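import Pool.Agent.Q92.UM.BLZa

set_option autoImplicit false

/-!
Zeta near the critical line at height `T` is a smooth Dirichlet polynomial of length `T^b` for every `b > 1` (the starting file
`Pool/Agent/Q92/UM/BLZ.lean`, where `b = 5/4`, with general exponents).
-/

namespace Pool.Agent.V8H7.SM.BLZ

open Filter Topology MeasureTheory Complex
open scoped ContDiff
open Pool.Agent.Q92.UM.BLZ (EE ex Hv Dw EE_zero EE_deriv EE_contDiff EE_cont PP PP_Hv EE_iter PP_bound EE_le EE_int pois sum_int)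

noncomputable section


/-- the exponents of the step function -/
structure Ex (a b : ℝ) : Prop where
  a1 : 1 ≤ a
  ab : a < b
  b5 : b ≤ 5 / 4

/-- the step function -/
def psi (a b u : ℝ) : ℝ := 1 - Real.smoothTransition ((u - a) / (b - a))

theorem psi_smooth (a b : ℝ) : ContDiff ℝ ∞ (psi a b) :=
  contDiff_const.sub (Real.smoothTransition.contDiff.comp (by fun_prop))

theorem psi_one {a b : ℝ} (hE : Ex a b) {u : ℝ} (hu : u ≤ a) : psi a b u = 1 := by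
  unfold psi
  have h := hE.ab
  rw [Real.smoothTransition.zero_of_nonpos (div_nonpos_of_nonpos_of_nonneg (by linarith) (by linarith)), sub_zero]

theorem psi_zero {a b : ℝ} (hE : Ex a b) {u : ℝ} (hu : b ≤ u) : psi a b u = 0 := by
  unfold psi
  have h := hE.ab
  rw [Real.smoothTransition.one_of_one_le (by rw [le_div_iff₀ (by linarith)]; linarith), sub_self]

theorem psi_mem (a b u : ℝ) : 0 ≤ psi a b u ∧ psi a b u ≤ 1 := by
  unfold psi
  have h1 := Real.smoothTransition.nonneg ((u - a) / (b - a))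
  have h2 := Real.smoothTransition.le_one ((u - a) / (b - a))
  constructor <;> linarith

/-- the complex version -/
def pc (a b u : ℝ) : ℂ := ((psi a b u : ℝ) : ℂ)

theorem pc_smooth (a b : ℝ) : ContDiff ℝ ∞ (pc a b) := Complex.ofRealCLM.contDiff.comp (psi_smooth a b)

/-- all derivatives are bounded -/
theorem pc_bd {a b : ℝ} (hE : Ex a b) (i : ℕ) : ∃ A : ℝ, ∀ u, ‖iteratedDeriv i (pc a b) u‖ ≤ A := by
  have ha1 := hE.a1
  have hab := hE.ab
  have hb5 := hE.b5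
  have hc : Continuous (iteratedDeriv i (pc a b)) :=
    (pc_smooth a b).continuous_iteratedDeriv i (by exact_mod_cast le_top)
  obtain ⟨A, hA⟩ := (isCompact_Icc (a := (1 : ℝ)) (b := 2)).exists_bound_of_continuousOn hc.continuousOn
  refine ⟨max A 1, fun u => ?_⟩
  rcases lt_or_ge u 1 with h | h
  · have e1 : pc a b =ᶠ[𝓝 u] fun _ => (1 : ℂ) := by
      filter_upwards [Iio_mem_nhds h] with y hy
      have hy' : y < 1 := hy
      unfold pc
      rw [psi_one hE (by linarith), Complex.ofReal_one]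
    rw [e1.iteratedDeriv_eq i]
    refine le_max_of_le_right ?_
    rw [iteratedDeriv_const]
    split_ifs <;> simp
  · rcases le_or_gt u 2 with h2 | h2
    · exact le_max_of_le_left (hA u ⟨h, h2⟩)
    · have e1 : pc a b =ᶠ[𝓝 u] fun _ => (0 : ℂ) := by
        filter_upwards [Ioi_mem_nhds h2] with y hy
        have hy' : 2 < y := hy
        unfold pc
        rw [psi_zero hE (by linarith), Complex.ofReal_zero]
      rw [e1.iteratedDeriv_eq i]
      refine le_max_of_le_right ?_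
      rw [iteratedDeriv_const]
      split_ifs <;> simp

theorem pc_bds {a b : ℝ} (hE : Ex a b) (m : ℕ) : ∃ A : ℝ, 0 ≤ A ∧ ∀ i ≤ m, ∀ u, ‖iteratedDeriv i (pc a b) u‖ ≤ A := by
  choose A hA using pc_bd hE
  refine ⟨∑ i ∈ Finset.range (m + 1), |A i|, Finset.sum_nonneg fun _ _ => abs_nonneg _, ?_⟩
  intro i hi u
  refine (hA i u).trans ((le_abs_self _).trans ?_)
  exact Finset.single_le_sum (f := fun i => |A i|) (fun _ _ => abs_nonneg _)
    (Finset.mem_range.2 (by omega))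

/-- the scaled function -/
def ps (a b L v : ℝ) : ℂ := pc a b (L⁻¹ * v)

theorem ps_smooth (a b L : ℝ) : ContDiff ℝ ∞ (ps a b L) := (pc_smooth a b).comp (contDiff_const.mul contDiff_id)

theorem ps_bds {a b : ℝ} (hE : Ex a b) (m : ℕ) : ∃ A : ℝ, 0 ≤ A ∧ ∀ L : ℝ, 1 ≤ L → ∀ i ≤ m, ∀ u, ‖iteratedDeriv i (ps a b L) u‖ ≤ A := by
  obtain ⟨A, h0, hA⟩ := pc_bds hE m
  refine ⟨A, h0, fun L hL i hi u => ?_⟩
  have e1 : iteratedDeriv i (ps a b L) = fun x => (L⁻¹) ^ i • iteratedDeriv i (pc a b) (L⁻¹ * x) :=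
    iteratedDeriv_comp_const_smul ((pc_smooth a b).of_le (by exact_mod_cast le_top)) L⁻¹
  rw [e1]
  simp only
  rw [norm_smul, norm_pow, Real.norm_eq_abs, abs_of_pos (by positivity)]
  have h1 : (L⁻¹) ^ i ≤ 1 := pow_le_one₀ (by positivity) (inv_le_one_of_one_le₀ hL)
  calc (L⁻¹) ^ i * ‖iteratedDeriv i (pc a b) (L⁻¹ * u)‖ ≤ 1 * A :=
        mul_le_mul h1 (hA i hi _) (norm_nonneg _) (by norm_num)
    _ = A := one_mul A

theorem ps_one {a b : ℝ} (hE : Ex a b) {L v : ℝ} (hL : 0 < L) (hv : v ≤ a * L) : ps a b L v = 1 := by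
  unfold ps pc
  rw [psi_one hE, Complex.ofReal_one]
  rw [inv_mul_le_iff₀ hL]
  linarith

theorem ps_zero {a b : ℝ} (hE : Ex a b) {L v : ℝ} (hL : 0 < L) (hv : b * L ≤ v) : ps a b L v = 0 := by
  unfold ps pc
  rw [psi_zero hE, Complex.ofReal_zero]
  rw [le_inv_mul_iff₀ hL]
  linarith

/-- `1 - ψ` -/
def h1 (a b L v : ℝ) : ℂ := 1 - ps a b L v

/-- the difference of two step functions -/
def h2 (a b L Y v : ℝ) : ℂ := ps a b Y v - ps a b L v

theorem h1_Hv {a b : ℝ} (hE : Ex a b) {L : ℝ} (hL : 0 < L) : Hv (h1 a b L) (a * L) := by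
  constructor
  · exact contDiff_const.sub (ps_smooth a b L)
  · intro v hv
    unfold h1
    rw [ps_one hE hL hv.le, sub_self]

theorem h2_Hv {a b : ℝ} (hE : Ex a b) {L Y : ℝ} (hL : 0 < L) (hY : L ≤ Y) : Hv (h2 a b L Y) (a * L) := by
  have ha1 := hE.a1
  constructor
  · exact (ps_smooth a b Y).sub (ps_smooth a b L)
  · intro v hv
    unfold h2
    rw [ps_one hE hL hv.le, ps_one hE (by linarith) (by nlinarith), sub_self]

theorem h1_bd {a b : ℝ} (hE : Ex a b) (m : ℕ) : ∃ A : ℝ, 0 ≤ A ∧ ∀ L : ℝ, 1 ≤ L → ∀ i ≤ m, ∀ v, ‖iteratedDeriv i (h1 a b L) v‖ ≤ A := by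
  obtain ⟨A, h0, hA⟩ := ps_bds hE m
  refine ⟨1 + A, by linarith, fun L hL i hi v => ?_⟩
  have e1 : iteratedDeriv i (h1 a b L) v = iteratedDeriv i (fun _ => (1 : ℂ)) v - iteratedDeriv i (ps a b L) v :=
    iteratedDeriv_fun_sub contDiffAt_const ((ps_smooth a b L).contDiffAt.of_le (by exact_mod_cast le_top))
  rw [e1]
  refine (norm_sub_le _ _).trans (add_le_add ?_ (hA L hL i hi v))
  rw [iteratedDeriv_const]
  split_ifs <;> simp

theorem h2_bd {a b : ℝ} (hE : Ex a b) (m : ℕ) : ∃ A : ℝ, 0 ≤ A ∧ ∀ L Y : ℝ, 1 ≤ L → 1 ≤ Y → ∀ i ≤ m, ∀ v, ‖iteratedDeriv i (h2 a b L Y) v‖ ≤ A := by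
  obtain ⟨A, h0, hA⟩ := ps_bds hE m
  refine ⟨A + A, by linarith, fun L Y hL hY i hi v => ?_⟩
  have e1 : iteratedDeriv i (h2 a b L Y) v = iteratedDeriv i (ps a b Y) v - iteratedDeriv i (ps a b L) v :=
    iteratedDeriv_fun_sub ((ps_smooth a b Y).contDiffAt.of_le (by exact_mod_cast le_top))
      ((ps_smooth a b L).contDiffAt.of_le (by exact_mod_cast le_top))
  rw [e1]
  exact (norm_sub_le _ _).trans (add_le_add (hA Y hY i hi v) (hA L hL i hi v))

theorem EE_nat (h : ℝ → ℂ) (s : ℂ) {k : ℕ} (hk : 1 ≤ k) :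
    EE (ex h (-s)) k = h (Real.log k) * (k : ℂ) ^ (-s) := by
  have hk0 : (0 : ℝ) < k := by exact_mod_cast hk
  have hkc : (k : ℂ) ≠ 0 := by exact_mod_cast (by omega : k ≠ 0)
  unfold EE ex
  rw [if_pos hk0, Complex.cpow_def_of_ne_zero hkc, ← Complex.natCast_log, mul_comm (-s)]

/-- the Poisson part -/
theorem partC {a b : ℝ} (hE : Ex a b) (m : ℕ) (hm : 2 ≤ m) : ∃ C : ℝ, 0 ≤ C ∧ ∀ (L Y : ℝ) (s : ℂ) (N : ℕ), 1 ≤ L → L ≤ Y → 0 ≤ s.re →
    Real.exp (b * Y) ≤ N →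
    ‖∑ k ∈ Finset.Icc 1 N, EE (ex (h2 a b L Y) (-s)) k - ∫ x in (0 : ℝ)..N, EE (ex (h2 a b L Y) (-s)) x‖ ≤
      C * (1 + ‖s‖ + m) ^ m * Real.exp (a * L) ^ (-s.re - m + 1) := by
  obtain ⟨C, hC0, hC⟩ := pois m hm
  obtain ⟨A, hA0, hA⟩ := h2_bd hE m
  refine ⟨C * A, by positivity, ?_⟩
  intro L Y s N hL hY hs hN
  have hL0 : 0 < L := by linarith
  have hY0 : 0 < Y := by linarith
  have hv := h2_Hv hE hL0 hY
  obtain ⟨f, hf⟩ : ∃ f, f = EE (ex (h2 a b L Y) (-s)) := ⟨_, rfl⟩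
  rw [← hf]
  have hz : ∀ x : ℝ, (x < Real.exp (a * L) ∨ Real.exp (b * Y) ≤ x) → f x = 0 := by
    intro x hx
    rw [hf]
    rcases hx with hx | hx
    · exact EE_zero hv _ hx
    · have hx0 : 0 < x := (Real.exp_pos _).trans_le hx
      unfold EE ex
      rw [if_pos hx0]
      have h5 : b * Y ≤ Real.log x := (Real.le_log_iff_exp_le hx0).2 hx
      unfold h2
      rw [ps_zero hE hY0 h5, ps_zero hE hL0 (by nlinarith [hE.a1, hE.ab]), sub_zero, zero_mul]
  have hcs : HasCompactSupport f := by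
    refine HasCompactSupport.of_support_subset_isCompact
      (K := Set.Icc (Real.exp (a * L)) (Real.exp (b * Y))) isCompact_Icc ?_
    intro x hx
    by_contra hc
    rw [Set.mem_Icc, not_and_or, not_le, not_le] at hc
    refine hx (hz x ?_)
    rcases hc with hc | hc
    · exact Or.inl hc
    · exact Or.inr hc.le
  have hsm : ContDiff ℝ ∞ f := by
    rw [hf]
    exact EE_contDiff hv _
  have key := hC f hsm hcs
  have e1 : ∑' n : ℤ, f n = ∑ k ∈ Finset.Icc 1 N, f (k : ℝ) := by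
    have h3 : ∀ n : ℤ, n ∉ (Finset.Icc 1 N).map Nat.castEmbedding → f (n : ℝ) = 0 := by
      intro n hn
      rw [Finset.mem_map] at hn
      push Not at hn
      rcases lt_or_ge n 1 with h | h
      · apply hz
        left
        have h4 : (n : ℝ) ≤ 0 := by exact_mod_cast (by omega : n ≤ 0)
        exact h4.trans_lt (Real.exp_pos _)
      · apply hz
        right
        have h4 : (N : ℤ) < n := by
          by_contra hc
          rw [not_lt] at hc
          refine hn n.toNat (Finset.mem_Icc.2 ⟨by omega, by omega⟩) ?_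
          simp
          omega
        have h5 : (N : ℝ) < n := by exact_mod_cast h4
        linarith
    rw [tsum_eq_sum (s := (Finset.Icc 1 N).map Nat.castEmbedding) h3, Finset.sum_map]
    simp
  have hle : (0 : ℝ) ≤ N := Nat.cast_nonneg N
  have hsub : Function.support f ⊆ Set.Ioc (0 : ℝ) N := by
    intro x hx
    rw [Set.mem_Ioc]
    constructor
    · by_contra hc
      exact hx (hz x (Or.inl (lt_of_le_of_lt (not_lt.1 hc) (Real.exp_pos _))))
    · by_contra hc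
      exact hx (hz x (Or.inr (hN.trans (not_le.1 hc).le)))
  have e2 : ∫ x, f x = ∫ x in (0 : ℝ)..N, f x := by
    rw [intervalIntegral.integral_of_le hle, setIntegral_eq_integral_of_forall_compl_eq_zero]
    intro x hx
    by_contra hc
    exact hx (hsub hc)
  rw [e1, e2] at key
  refine key.trans ?_
  rw [hf, EE_iter hv]
  have hw : (-s - (m : ℂ)).re = -s.re - m := by simp
  have hm2 : (2 : ℝ) ≤ m := by exact_mod_cast hm
  have hb : ∀ v, ‖PP (-s) (h2 a b L Y) m v‖ ≤ A * (1 + ‖s‖ + m) ^ m := by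
    intro v
    have := PP_bound hv (-s) m A (hA L Y hL (hL.trans hY)) m 0 (by omega) v
    rwa [iteratedDeriv_zero, norm_neg] at this
  have h3 := (EE_int (PP_Hv hv (-s) m) (w := -s - (m : ℂ)) (by rw [hw]; linarith) hb).2
  rw [hw] at h3
  have h4 : Real.exp (a * L) ^ (-s.re - m + 1) / -(-s.re - m + 1) ≤
      Real.exp (a * L) ^ (-s.re - m + 1) :=
    div_le_self (Real.rpow_nonneg (Real.exp_pos _).le _) (by linarith)
  calc C * ∫ x, ‖EE (ex (PP (-s) (h2 a b L Y) m) (-s - m)) x‖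
      ≤ C * (A * (1 + ‖s‖ + m) ^ m * (Real.exp (a * L) ^ (-s.re - m + 1) / -(-s.re - m + 1))) :=
        mul_le_mul_of_nonneg_left h3 hC0
    _ ≤ C * (A * (1 + ‖s‖ + m) ^ m * Real.exp (a * L) ^ (-s.re - m + 1)) :=
        mul_le_mul_of_nonneg_left (mul_le_mul_of_nonneg_left h4 (by positivity)) hC0
    _ = _ := by ring

/-- the sum against the integral for `1 - ψ` -/
theorem partB {a b : ℝ} (hE : Ex a b) : ∃ C : ℝ, 0 ≤ C ∧ ∀ (Y : ℝ) (s : ℂ) (N : ℕ), 1 ≤ Y → 1 / 4 ≤ s.re →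
    ‖∑ k ∈ Finset.Icc 1 N, EE (ex (h1 a b Y) (-s)) k - ∫ x in (0 : ℝ)..N, EE (ex (h1 a b Y) (-s)) x‖ ≤
      C * (2 + ‖s‖) * Real.exp (a * Y) ^ (-s.re) := by
  obtain ⟨A, hA0, hA⟩ := h1_bd hE 1
  refine ⟨4 * A, by positivity, ?_⟩
  intro Y s N hY hs
  have hY0 : 0 < Y := by linarith
  have hv := h1_Hv hE hY0
  have h0 := sum_int (fun x => EE_deriv hv (-s) x) (EE_cont (hv.Dw (-s)) (-s - 1)) N
  refine h0.trans ?_
  have hw : (-s - 1 : ℂ).re = -s.re - 1 := by simp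
  have hb : ∀ v, ‖Dw (-s) (h1 a b Y) v‖ ≤ A * (2 + ‖s‖) := by
    intro v
    have := PP_bound hv (-s) 1 A (hA Y hY) 1 0 (by omega) v
    rw [iteratedDeriv_zero, norm_neg, pow_one] at this
    have e : PP (-s) (h1 a b Y) 1 = Dw (-s) (h1 a b Y) := by
      show Dw (-s - ((0 : ℕ) : ℂ)) (h1 a b Y) = _
      rw [Nat.cast_zero, sub_zero]
    rw [e] at this
    refine this.trans (le_of_eq ?_)
    push_cast
    ring
  obtain ⟨h3, h4⟩ := EE_int (hv.Dw (-s)) (w := -s - 1) (by rw [hw]; linarith) hb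
  rw [hw] at h4
  have h5 : ∫ x in (0 : ℝ)..N, ‖EE (ex (Dw (-s) (h1 a b Y)) (-s - 1)) x‖ ≤
      ∫ x, ‖EE (ex (Dw (-s) (h1 a b Y)) (-s - 1)) x‖ := by
    rw [intervalIntegral.integral_of_le (Nat.cast_nonneg N)]
    exact setIntegral_le_integral h3.norm (Eventually.of_forall fun x => norm_nonneg _)
  refine h5.trans (h4.trans ?_)
  have e1 : -s.re - 1 + 1 = -s.re := by ring
  rw [e1, neg_neg]
  have h6 : Real.exp (a * Y) ^ (-s.re) / s.re ≤ 4 * Real.exp (a * Y) ^ (-s.re) := by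
    rw [div_le_iff₀ (by linarith)]
    have : 0 < Real.exp (a * Y) ^ (-s.re) := Real.rpow_pos_of_pos (Real.exp_pos _) _
    nlinarith
  calc A * (2 + ‖s‖) * (Real.exp (a * Y) ^ (-s.re) / s.re)
      ≤ A * (2 + ‖s‖) * (4 * Real.exp (a * Y) ^ (-s.re)) :=
        mul_le_mul_of_nonneg_left h6 (by positivity)
    _ = _ := by ring

/-- one integration by parts -/
theorem ibp1 {h : ℝ → ℂ} {v₀ : ℝ} (hh : Hv h v₀) (s : ℂ) {N : ℝ} (hN : 0 < N) :
    (∫ x in (0 : ℝ)..N, EE (ex (deriv h) (-s)) x) + (1 - s) * ∫ x in (0 : ℝ)..N, EE (ex h (-s)) x =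
      h (Real.log N) * cexp ((1 - s) * Real.log N) := by
  have hz : (1 - s : ℂ) - 1 = -s := by ring
  have hI := intervalIntegral.integral_eq_sub_of_hasDerivAt (a := 0) (b := N)
    (fun x _ => EE_deriv hh (1 - s) x) ((EE_cont (hh.Dw (1 - s)) (1 - s - 1)).intervalIntegrable _ _)
  rw [hz] at hI
  have e1 : EE (ex h (1 - s)) N = h (Real.log N) * cexp ((1 - s) * Real.log N) := by
    unfold EE ex
    rw [if_pos hN]
  have e2 : EE (ex h (1 - s)) 0 = 0 := EE_zero hh _ (Real.exp_pos _)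
  rw [e1, e2, sub_zero] at hI
  have i2 : IntervalIntegrable (fun x : ℝ => (1 - s) * EE (ex h (-s)) x) volume 0 N :=
    (continuous_const.mul (EE_cont hh _)).intervalIntegrable _ _
  rw [← hI, ← intervalIntegral.integral_const_mul, ← intervalIntegral.integral_add
    ((EE_cont hh.deriv _).intervalIntegrable _ _) i2]
  congr 1
  ext x
  unfold EE ex Dw
  split_ifs <;> ring

/-- the frequency zero -/
theorem partD {a b : ℝ} (hE : Ex a b) (p : ℕ) : ∃ C : ℝ, 0 ≤ C ∧ ∀ (L : ℝ) (s : ℂ) (N : ℕ), 1 ≤ L → 0 ≤ s.re → s ≠ 1 →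
    Real.exp (2 * L) ≤ N →
    ‖(∫ x in (0 : ℝ)..N, EE (ex (h1 a b L) (-s)) x) - (N : ℂ) ^ (1 - s) / (1 - s)‖ ≤ C * N / ‖1 - s‖ ^ (p + 1) := by
  obtain ⟨A, hA0, hA⟩ := h1_bd hE (p + 1)
  refine ⟨A, hA0, ?_⟩
  intro L s N hL hs hs1 hN
  have hL0 : 0 < L := by linarith
  have hN0 : (0 : ℝ) < N := (Real.exp_pos _).trans_le hN
  have hNc : (N : ℂ) ≠ 0 := by exact_mod_cast hN0.ne'
  have hz : (1 - s : ℂ) ≠ 0 := sub_ne_zero.2 (Ne.symm hs1)
  have hzn : 0 < ‖1 - s‖ := norm_pos_iff.2 hz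
  have hlog : 2 * L ≤ Real.log N := (Real.le_log_iff_exp_le hN0).2 hN
  have hv := h1_Hv hE hL0
  have hvj : ∀ j, Hv (iteratedDeriv j (h1 a b L)) (a * L) := by
    intro j
    induction j with
    | zero => rwa [iteratedDeriv_zero]
    | succ j ih =>
      rw [iteratedDeriv_succ]
      exact ih.deriv
  have hloc : h1 a b L =ᶠ[𝓝 (Real.log N)] fun _ => (1 : ℂ) := by
    filter_upwards [Ioi_mem_nhds (show b * L < Real.log N by nlinarith [hE.b5])] with y hy
    have hy' : b * L < y := hy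
    unfold h1
    rw [ps_zero hE hL0 hy'.le, sub_zero]
  have hdz : ∀ j, iteratedDeriv (j + 1) (h1 a b L) (Real.log N) = 0 := by
    intro j
    rw [hloc.iteratedDeriv_eq (j + 1), iteratedDeriv_const]
    simp
  obtain ⟨I, hI⟩ : ∃ I : ℕ → ℂ, I = fun j => ∫ x in (0 : ℝ)..N, EE (ex (iteratedDeriv j (h1 a b L)) (-s)) x :=
    ⟨_, rfl⟩
  have h3 : ∀ j, I (j + 1) + (1 - s) * I j =
      iteratedDeriv j (h1 a b L) (Real.log N) * cexp ((1 - s) * Real.log N) := by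
    intro j
    have := ibp1 (hvj j) s hN0
    rw [← iteratedDeriv_succ] at this
    rw [hI]
    exact this
  have h4 : ∀ j, ‖I 1‖ = ‖I (j + 1)‖ / ‖1 - s‖ ^ j := by
    intro j
    induction j with
    | zero => simp
    | succ j ih =>
      have h5 := h3 (j + 1)
      rw [hdz, zero_mul] at h5
      have h6 : I (j + 1) = -(I (j + 1 + 1) / (1 - s)) := by
        field_simp
        linear_combination h5
      rw [ih, h6, norm_neg, norm_div, pow_succ]
      field_simp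
  have h5 := h3 0
  rw [iteratedDeriv_zero, hloc.eq_of_nhds, one_mul] at h5
  have e1 : cexp ((1 - s) * Real.log N) = (N : ℂ) ^ (1 - s) := by
    rw [Complex.cpow_def_of_ne_zero hNc, ← Complex.natCast_log, mul_comm]
  rw [e1] at h5
  have e2 : (∫ x in (0 : ℝ)..N, EE (ex (h1 a b L) (-s)) x) = I 0 := by
    rw [hI]
    simp only [iteratedDeriv_zero]
  have e3 : I 0 - (N : ℂ) ^ (1 - s) / (1 - s) = -(I 1 / (1 - s)) := by
    field_simp
    linear_combination h5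
  rw [e2, e3, norm_neg, norm_div, h4 p]
  have h6 : ‖I (p + 1)‖ ≤ A * N := by
    rw [hI]
    simp only
    have h7 := intervalIntegral.norm_integral_le_of_norm_le_const (a := 0) (b := (N : ℝ)) (C := A)
      (f := EE (ex (iteratedDeriv (p + 1) (h1 a b L)) (-s))) ?_
    · rwa [sub_zero, abs_of_pos hN0] at h7
    · intro x hx
      rw [Set.uIoc_of_le hN0.le] at hx
      rcases lt_or_ge x 1 with hx1 | hx1
      · rw [EE_zero (hvj (p + 1)), norm_zero]
        · exact hA0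
        · have : (1 : ℝ) ≤ Real.exp (a * L) := Real.one_le_exp (by have := hE.a1; positivity)
          linarith
      · refine (EE_le (hA L hL (p + 1) le_rfl) hx.1).trans ?_
        have h8 : x ^ (-s).re ≤ 1 := Real.rpow_le_one_of_one_le_of_nonpos hx1 (by simp; exact hs)
        calc A * x ^ (-s).re ≤ A * 1 := mul_le_mul_of_nonneg_left h8 hA0
          _ = A := mul_one A
  rw [pow_succ, ← div_div]
  exact div_le_div_of_nonneg_right (div_le_div_of_nonneg_right h6 (by positivity)) hzn.le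

/-- the exact decomposition -/
theorem decomp {a b : ℝ} (hE : Ex a b) {L Y : ℝ} (s : ℂ) {N : ℕ} (hL : 1 ≤ L) (hY : L ≤ Y) (hs : 0 < s.re) (hs1 : s ≠ 1) (hN : 1 ≤ N) :
    riemannZeta s - ∑ k ∈ Finset.Icc 1 N, ps a b L (Real.log k) * (k : ℂ) ^ (-s) =
    (∑ k ∈ Finset.Icc 1 N, EE (ex (h1 a b Y) (-s)) k - ∫ x in (0 : ℝ)..N, EE (ex (h1 a b Y) (-s)) x) +
    (∑ k ∈ Finset.Icc 1 N, EE (ex (h2 a b L Y) (-s)) k - ∫ x in (0 : ℝ)..N, EE (ex (h2 a b L Y) (-s)) x) +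
    ((∫ x in (0 : ℝ)..N, EE (ex (h1 a b L) (-s)) x) - (N : ℂ) ^ (1 - s) / (1 - s)) -
    s * ∫ u in Set.Ioi (N : ℝ), ((Int.fract u : ℝ) : ℂ) * (u : ℂ) ^ (-s - 1) := by
  have hL0 : 0 < L := by linarith
  have hY0 : 0 < Y := by linarith
  rw [ZU.J_a1.zeta_formula N hN s hs hs1]
  have e1 : ZU.DN N s = ∑ k ∈ Finset.Icc 1 N, EE (ex (h1 a b Y) (-s)) k +
      ∑ k ∈ Finset.Icc 1 N, EE (ex (h2 a b L Y) (-s)) k +
      ∑ k ∈ Finset.Icc 1 N, ps a b L (Real.log k) * (k : ℂ) ^ (-s) := by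
    unfold ZU.DN
    rw [← Finset.sum_add_distrib, ← Finset.sum_add_distrib]
    refine Finset.sum_congr rfl fun k hk => ?_
    rw [EE_nat _ _ (Finset.mem_Icc.1 hk).1, EE_nat _ _ (Finset.mem_Icc.1 hk).1]
    unfold h1 h2
    ring
  have e2 : (∫ x in (0 : ℝ)..N, EE (ex (h1 a b L) (-s)) x) = (∫ x in (0 : ℝ)..N, EE (ex (h1 a b Y) (-s)) x) +
      ∫ x in (0 : ℝ)..N, EE (ex (h2 a b L Y) (-s)) x := by
    rw [← intervalIntegral.integral_add ((EE_cont (h1_Hv hE hY0) _).intervalIntegrable _ _)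
      ((EE_cont (h2_Hv hE hL0 hY) _).intervalIntegrable _ _)]
    congr 1
    ext x
    unfold EE ex h1 h2
    split_ifs <;> ring
  have e3 : (N : ℂ) ^ (1 - s) / (s - 1) = -((N : ℂ) ^ (1 - s) / (1 - s)) := by
    rw [← neg_sub 1 s, div_neg]
  rw [e1, e2, e3]
  ring

/-- the tail in the formula for zeta -/
theorem tail_le {s : ℂ} (hs : 1 / 4 ≤ s.re) {N : ℕ} (hN : 1 ≤ N) :
    ‖s * ∫ u in Set.Ioi (N : ℝ), ((Int.fract u : ℝ) : ℂ) * (u : ℂ) ^ (-s - 1)‖ ≤
      4 * ‖s‖ * (N : ℝ) ^ (-s.re) := by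
  have hN0 : (0 : ℝ) < N := by exact_mod_cast hN
  have hi : IntegrableOn (fun u : ℝ => u ^ (-s.re - 1)) (Set.Ioi (N : ℝ)) :=
    integrableOn_Ioi_rpow_of_lt (by linarith) hN0
  have h1 : ‖∫ u in Set.Ioi (N : ℝ), ((Int.fract u : ℝ) : ℂ) * (u : ℂ) ^ (-s - 1)‖ ≤
      ∫ u in Set.Ioi (N : ℝ), u ^ (-s.re - 1) := by
    refine norm_integral_le_of_norm_le hi ?_
    filter_upwards [ae_restrict_mem measurableSet_Ioi] with u hu
    have hu0 : 0 < u := hN0.trans hu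
    rw [norm_mul, Complex.norm_real, Complex.norm_cpow_eq_rpow_re_of_pos hu0, Real.norm_eq_abs,
      abs_of_nonneg (Int.fract_nonneg u)]
    have h2 : (-s - 1).re = -s.re - 1 := by simp
    rw [h2]
    have h3 : 0 < u ^ (-s.re - 1) := Real.rpow_pos_of_pos hu0 _
    have h4 := (Int.fract_lt_one u).le
    nlinarith
  have h2 : ∫ u in Set.Ioi (N : ℝ), u ^ (-s.re - 1) = (N : ℝ) ^ (-s.re) / s.re := by
    rw [integral_Ioi_rpow_of_lt (by linarith) hN0]
    have : -s.re - 1 + 1 = -s.re := by ring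
    rw [this, neg_div_neg_eq]
  rw [h2] at h1
  have h3 : (N : ℝ) ^ (-s.re) / s.re ≤ 4 * (N : ℝ) ^ (-s.re) := by
    rw [div_le_iff₀ (by linarith)]
    have : 0 < (N : ℝ) ^ (-s.re) := Real.rpow_pos_of_pos hN0 _
    nlinarith
  rw [norm_mul]
  calc ‖s‖ * ‖∫ u in Set.Ioi (N : ℝ), ((Int.fract u : ℝ) : ℂ) * (u : ℂ) ^ (-s - 1)‖
      ≤ ‖s‖ * (4 * (N : ℝ) ^ (-s.re)) := mul_le_mul_of_nonneg_left (h1.trans h3) (norm_nonneg _)
    _ = _ := by ring


end

end Pool.Agent.V8H7.SM.BLZ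

namespace Pool.Agent.V8H7.SM

open Filter Topology MeasureTheory Complex BLZ
open scoped ContDiff

/-- zeta is a smooth Dirichlet polynomial of length `T^b`, near height `T` -/
theorem blz {a b : ℝ} (hE : Ex a b) (ha : 1 < a) : ∃ C : ℝ, 0 ≤ C ∧ ∀ᶠ T : ℝ in atTop, ∀ s : ℂ, |s.re - 1 / 2| ≤ 1 / 4 →
    T / 4 ≤ s.im → s.im ≤ 4 * T → ∀ N₁ : ℕ, T ^ b ≤ N₁ →
    ‖riemannZeta s - ∑ k ∈ Finset.Icc 1 N₁, ((psi a b (Real.log k / Real.log T) : ℝ) : ℂ) * (k : ℂ) ^ (-s)‖ ≤ C / T ^ 3 := by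
  have ha1 := hE.a1
  have hab := hE.ab
  have hb5 := hE.b5
  obtain ⟨m, hm⟩ : ∃ m : ℕ, 6 / (a - 1) ≤ m ∧ 2 ≤ m := by
    obtain ⟨m, hm⟩ := exists_nat_ge (6 / (a - 1))
    exact ⟨m + 2, by push_cast; linarith, by omega⟩
  obtain ⟨hm6, hm2⟩ := hm
  have hma : 6 ≤ m * (a - 1) := by
    rwa [div_le_iff₀ (by linarith)] at hm6
  obtain ⟨C₁, hC₁0, hC₁⟩ := partC hE m hm2
  obtain ⟨C₂, hC₂0, hC₂⟩ := partB hE
  obtain ⟨C₃, hC₃0, hC₃⟩ := partD hE 27
  refine ⟨C₂ * 10 + C₁ * 6 ^ m + C₃ * 2 * 4 ^ 28 + 20, by positivity, ?_⟩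
  filter_upwards [eventually_ge_atTop 100, eventually_ge_atTop (Real.exp 1), eventually_ge_atTop (m : ℝ)]
    with T hT hTe hTm s hs1 hs2 hs3 N₁ hN₁
  have hT0 : 0 < T := by linarith
  have hT1 : 1 ≤ T := by linarith
  obtain ⟨L, hL⟩ : ∃ L, L = Real.log T := ⟨_, rfl⟩
  have hL1 : 1 ≤ L := by
    rw [hL]
    exact (Real.le_log_iff_exp_le hT0).2 hTe
  have hL0 : 0 < L := by linarith
  have hexp : ∀ c : ℝ, Real.exp (c * L) = T ^ c := by
    intro c
    rw [hL, Real.rpow_def_of_pos hT0, mul_comm]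
  -- any length beyond `T^b` will do
  have any : ∀ N₂ : ℕ, T ^ b ≤ N₂ → ∀ N₃ : ℕ, N₂ ≤ N₃ → ∑ k ∈ Finset.Icc 1 N₂, ps a b L (Real.log k) * (k : ℂ) ^ (-s) =
      ∑ k ∈ Finset.Icc 1 N₃, ps a b L (Real.log k) * (k : ℂ) ^ (-s) := by
    intro N₂ h2 N₃ h3
    refine Finset.sum_subset (Finset.Icc_subset_Icc_right h3) ?_
    intro k hk hk2
    rw [Finset.mem_Icc] at hk hk2
    have h4 : N₂ < k := by
      by_contra hc
      exact hk2 ⟨hk.1, not_lt.1 hc⟩
    have h5 : T ^ b ≤ k := h2.trans (by exact_mod_cast h4.le)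
    have hk0 : (0 : ℝ) < k := (by positivity : (0 : ℝ) < T ^ b).trans_le h5
    rw [ps_zero hE hL0, zero_mul]
    rw [Real.le_log_iff_exp_le hk0, hexp]
    exact h5
  obtain ⟨N, hN⟩ : ∃ N : ℕ, N = ⌈T ^ (25 : ℝ)⌉₊ := ⟨_, rfl⟩
  have hT25 : 1 ≤ T ^ (25 : ℝ) := Real.one_le_rpow hT1 (by norm_num)
  have hN1 : T ^ (25 : ℝ) ≤ N := by rw [hN]; exact Nat.le_ceil _
  have hN2 : (N : ℝ) ≤ 2 * T ^ (25 : ℝ) := by
    rw [hN]
    have := (Nat.ceil_lt_add_one (by linarith : (0:ℝ) ≤ T ^ (25 : ℝ))).le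
    linarith
  have hN3 : 1 ≤ N := by
    have : (1 : ℝ) ≤ N := hT25.trans hN1
    exact_mod_cast this
  have hN0 : (0 : ℝ) < N := by linarith
  -- the size of s
  have hre := abs_le.1 hs1
  have hs4 : ‖s‖ ≤ 4 * T + 1 := by
    refine (Complex.norm_le_abs_re_add_abs_im s).trans ?_
    have h3 : |s.re| ≤ 1 := by rw [abs_le]; constructor <;> linarith
    have h4 : |s.im| ≤ 4 * T := by rw [abs_le]; constructor <;> linarith
    linarith
  have hs5 : T / 4 ≤ ‖1 - s‖ := by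
    have h3 := Complex.abs_im_le_norm (1 - s)
    have h4 : (1 - s).im = -s.im := by simp
    rw [h4, abs_neg, abs_of_nonneg (by linarith)] at h3
    linarith
  have hsne : s ≠ 1 := by
    intro h
    rw [h, sub_self, norm_zero] at hs5
    linarith
  -- the truncation
  have e1 : ∑ k ∈ Finset.Icc 1 N₁, ((psi a b (Real.log k / Real.log T) : ℝ) : ℂ) * (k : ℂ) ^ (-s) =
      ∑ k ∈ Finset.Icc 1 N, ps a b L (Real.log k) * (k : ℂ) ^ (-s) := by
    have e2 : ∀ k : ℕ, ((psi a b (Real.log k / Real.log T) : ℝ) : ℂ) = ps a b L (Real.log k) := by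
      intro k
      unfold ps pc
      rw [← hL, div_eq_inv_mul]
    simp only [e2]
    have hb25 : T ^ b ≤ N := (Real.rpow_le_rpow_of_exponent_le hT1 (by linarith)).trans hN1
    rcases le_total N₁ N with h | h
    · exact any N₁ hN₁ N h
    · exact (any N hb25 N₁ h).symm
  rw [e1, decomp hE s hL1 (show L ≤ 20 * L by linarith) (by linarith) hsne hN3]
  have b1 := hC₂ (20 * L) s N (by linarith) (by linarith)
  have b2 := hC₁ L (20 * L) s N hL1 (by linarith) (by linarith) (by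
    have h1 : b * (20 * L) = (20 * b) * L := by ring
    rw [h1, hexp]
    exact (Real.rpow_le_rpow_of_exponent_le hT1 (by linarith)).trans hN1)
  have b3 := hC₃ L s N hL1 (by linarith) hsne (by
    rw [hexp]
    exact (Real.rpow_le_rpow_of_exponent_le hT1 (by norm_num)).trans hN1)
  have b4 := tail_le (s := s) (by linarith) hN3
  have hT3 : 0 < T ^ 3 := by positivity
  -- the four sizes
  have c1 : C₂ * (2 + ‖s‖) * Real.exp (a * (20 * L)) ^ (-s.re) ≤ C₂ * 10 / T ^ 3 := by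
    have h3 : Real.exp (a * (20 * L)) ^ (-s.re) ≤ T ^ (-4 : ℝ) := by
      have : a * (20 * L) = (20 * a) * L := by ring
      rw [this, hexp, ← Real.rpow_mul hT0.le]
      exact Real.rpow_le_rpow_of_exponent_le hT1 (by nlinarith)
    have h4 : T ^ (-4 : ℝ) = 1 / (T * T ^ 3) := by
      rw [show (-4 : ℝ) = -((4 : ℕ) : ℝ) by norm_num, Real.rpow_neg hT0.le, Real.rpow_natCast]
      rw [one_div]
      congr 1
      ring
    have h5 : 2 + ‖s‖ ≤ 10 * T := by linarith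
    calc C₂ * (2 + ‖s‖) * Real.exp (a * (20 * L)) ^ (-s.re) ≤ C₂ * (10 * T) * (1 / (T * T ^ 3)) := by
          rw [← h4]
          exact mul_le_mul (mul_le_mul_of_nonneg_left h5 hC₂0) h3
            (Real.rpow_nonneg (Real.exp_pos _).le _) (by positivity)
      _ = C₂ * 10 / T ^ 3 := by field_simp
  have c2 : C₁ * (1 + ‖s‖ + (m : ℕ)) ^ m * Real.exp (a * L) ^ (-s.re - (m : ℕ) + 1) ≤
      C₁ * 6 ^ m / T ^ 3 := by
    have h3 : Real.exp (a * L) ^ (-s.re - (m : ℕ) + 1) ≤ T ^ (-((m : ℝ) + 3)) := by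
      rw [hexp, ← Real.rpow_mul hT0.le]
      refine Real.rpow_le_rpow_of_exponent_le hT1 ?_
      nlinarith
    have h4 : T ^ (-((m : ℝ) + 3)) = 1 / (T ^ m * T ^ 3) := by
      rw [show -((m : ℝ) + 3) = -((m + 3 : ℕ) : ℝ) by push_cast; ring, Real.rpow_neg hT0.le, Real.rpow_natCast]
      rw [one_div, pow_add]
    have h5 : (1 + ‖s‖ + (m : ℕ)) ^ m ≤ (6 * T) ^ m := by
      refine pow_le_pow_left₀ (by positivity) ?_ m
      linarith
    calc C₁ * (1 + ‖s‖ + (m : ℕ)) ^ m * Real.exp (a * L) ^ (-s.re - (m : ℕ) + 1)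
        ≤ C₁ * (6 * T) ^ m * (1 / (T ^ m * T ^ 3)) := by
          rw [← h4]
          exact mul_le_mul (mul_le_mul_of_nonneg_left h5 hC₁0) h3
            (Real.rpow_nonneg (Real.exp_pos _).le _) (by positivity)
      _ = C₁ * 6 ^ m / T ^ 3 := by
          rw [mul_pow]
          field_simp
  have c3 : C₃ * N / ‖1 - s‖ ^ (27 + 1) ≤ C₃ * 2 * 4 ^ 28 / T ^ 3 := by
    have h3 : (T / 4) ^ 28 ≤ ‖1 - s‖ ^ (27 + 1) := pow_le_pow_left₀ (by positivity) hs5 28
    have h4 : T ^ (25 : ℝ) = T ^ 25 := by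
      rw [show (25 : ℝ) = ((25 : ℕ) : ℝ) by norm_num, Real.rpow_natCast]
    rw [h4] at hN2
    calc C₃ * N / ‖1 - s‖ ^ (27 + 1) ≤ C₃ * (2 * T ^ 25) / (T / 4) ^ 28 :=
          div_le_div₀ (by positivity) (mul_le_mul_of_nonneg_left hN2 hC₃0) (by positivity) h3
      _ = C₃ * 2 * 4 ^ 28 / T ^ 3 := by
          field_simp
  have c4 : 4 * ‖s‖ * (N : ℝ) ^ (-s.re) ≤ 20 / T ^ 3 := by
    have h3 : (N : ℝ) ^ (-s.re) ≤ T ^ (-4 : ℝ) := by
      have h5 : (N : ℝ) ^ (-s.re) ≤ (T ^ (25 : ℝ)) ^ (-s.re) :=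
        Real.rpow_le_rpow_of_nonpos (by positivity) hN1 (by linarith)
      refine h5.trans ?_
      rw [← Real.rpow_mul hT0.le]
      exact Real.rpow_le_rpow_of_exponent_le hT1 (by linarith)
    have h4 : T ^ (-4 : ℝ) = 1 / (T * T ^ 3) := by
      rw [show (-4 : ℝ) = -((4 : ℕ) : ℝ) by norm_num, Real.rpow_neg hT0.le, Real.rpow_natCast]
      rw [one_div]
      congr 1
      ring
    have h5 : 4 * ‖s‖ ≤ 20 * T := by linarith
    calc 4 * ‖s‖ * (N : ℝ) ^ (-s.re) ≤ 20 * T * (1 / (T * T ^ 3)) := by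
          rw [← h4]
          exact mul_le_mul h5 h3 (by positivity) (by positivity)
      _ = 20 / T ^ 3 := by field_simp
  have d := (norm_sub_le _ _).trans (add_le_add ((norm_add_le _ _).trans (add_le_add
    ((norm_add_le _ _).trans (add_le_add (b1.trans c1) (b2.trans c2))) (b3.trans c3))) (b4.trans c4))
  refine d.trans (le_of_eq ?_)
  ring

end Pool.Agent.V8H7.SM
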