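import Pool.Agent.V8H7.SM.PW
import Pool.Agent.V8H7.SM.BLZ
import Pool.Agent.Q97.UM.Stm4
import Pool.Agent.Q84.UM.R2

/-! The Dirichlet polynomial of the mollified zeta function. -/

set_option autoImplicit false

open Finset MeasureTheory Complex

namespace Pool.Agent.V8H7.SM

open Pool.Agent.H452R4.LI (dens)
open Pool.Agent.Q97.UM (cv N2 dp dq et al Gev S_AL eta fm)
open BLZ (Ex psi psi_one psi_zero psi_mem)

noncomputable section

/-- the coefficients of the Dirichlet polynomial of zeta -/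
def az (a b T : ℝ) (k : ℕ) : ℂ := ((psi a b (Real.log k / Real.log T) : ℝ) : ℂ)

/-- the coefficients of the mollified zeta function -/
def cz (Pw : ℝ → ℝ) (Y : ℕ) (a b T : ℝ) : ℕ → ℂ := cv (az a b T) (cv (et Pw Y) (et Pw Y))

theorem az_norm (a b T : ℝ) (k : ℕ) : ‖az a b T k‖ ≤ 1 := by
  unfold az
  rw [Complex.norm_real, Real.norm_eq_abs, abs_of_nonneg (psi_mem a b _).1]
  exact (psi_mem a b _).2

theorem cv_card {b c : ℕ → ℂ} {β γ : ℝ} {n : ℕ} (hn : 1 ≤ n) (hβ : 0 ≤ β) (hb : ∀ m, 1 ≤ m → m ∣ n → ‖b m‖ ≤ β)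
    (hc : ∀ m, 1 ≤ m → m ∣ n → ‖c m‖ ≤ γ) : ‖cv b c n‖ ≤ n.divisors.card * (β * γ) := by
  unfold cv
  have h3 : n.divisorsAntidiagonal.card = n.divisors.card := by
    rw [← Nat.map_div_right_divisors, Finset.card_map]
  have h1 : ∀ p ∈ n.divisorsAntidiagonal, ‖b p.1 * c p.2‖ ≤ β * γ := by
    intro p hp
    rw [Nat.mem_divisorsAntidiagonal] at hp
    have h6 : p.1 ≠ 0 := by rintro h; rw [h] at hp; simp at hp; omega
    have h7 : p.2 ≠ 0 := by rintro h; rw [h] at hp; simp at hp; omega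
    rw [norm_mul]
    exact mul_le_mul (hb _ (by omega) ⟨p.2, hp.1.symm⟩) (hc _ (by omega) ⟨p.1, by rw [mul_comm]; exact hp.1.symm⟩)
      (norm_nonneg _) hβ
  refine (norm_sum_le_of_le _ h1).trans (le_of_eq ?_)
  rw [Finset.sum_const, nsmul_eq_mul, h3]

variable {Pw q : ℝ → ℝ} {c₀ C₀ : ℝ}

theorem cz_norm (hG : Gev Pw q c₀ C₀) (hA : S_AL) (Y : ℕ) (a b T : ℝ) {n : ℕ} (hn : 1 ≤ n) :
    ‖cz Pw Y a b T n‖ ≤ (n.divisors.card : ℝ) ^ 2 := by
  unfold cz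
  have h1 : ∀ m, 1 ≤ m → m ∣ n → ‖cv (et Pw Y) (et Pw Y) m‖ ≤ n.divisors.card := by
    intro m hm hmn
    have h2 := cv_card (b := et Pw Y) (c := et Pw Y) (β := 1) (γ := 1) hm zero_le_one
      (fun k _ _ => Pool.Agent.Q84.UM.et_norm hG hA Y k) (fun k _ _ => Pool.Agent.Q84.UM.et_norm hG hA Y k)
    rw [mul_one, mul_one] at h2
    refine h2.trans ?_
    exact_mod_cast Finset.card_le_card (Nat.divisors_subset_of_dvd (by omega) hmn)
  have h2 := cv_card (b := az a b T) (c := cv (et Pw Y) (et Pw Y)) (β := 1) hn zero_le_one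
    (fun k _ _ => az_norm a b T k) h1
  refine h2.trans (le_of_eq ?_)
  ring

theorem et_flat (hG : Gev Pw q c₀ C₀) {Y d : ℕ} (hd : 1 ≤ d) (h : Real.log d ≤ 1 / 4 * Real.log Y) :
    et Pw Y d = (al d : ℂ) := by
  unfold et
  have h0 : 0 ≤ Real.log d := Real.log_nonneg (by exact_mod_cast hd)
  have h1 : |Real.log d / Real.log Y| ≤ 1 / 4 := by
    have h2 : 0 ≤ Real.log (Y : ℝ) := by linarith
    rw [abs_of_nonneg (div_nonneg h0 h2)]
    rcases h2.eq_or_lt with h3 | h3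
    · rw [← h3]; simp
    · rw [div_le_iff₀ h3]
      exact h
  rw [hG.flat _ h1, mul_one]

theorem al_one : al 1 = 1 := by
  unfold al
  simp

theorem cz_one (hG : Gev Pw q c₀ C₀) (Y : ℕ) {a b : ℝ} (hE : Ex a b) (T : ℝ) : cz Pw Y a b T 1 = 1 := by
  unfold cz cv
  have h1 : et Pw Y 1 = 1 := by
    unfold et
    rw [al_one]
    simp [hG.flat 0 (by norm_num)]
  have h2 : az a b T 1 = 1 := by
    unfold az
    rw [Nat.cast_one, Real.log_one, zero_div, psi_one hE (by have := hE.a1; linarith)]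
    simp
  simp [h1, h2]

theorem cz_zero (hG : Gev Pw q c₀ C₀) (hA : S_AL) {Y : ℕ} {a b : ℝ} (hE : Ex a b) {T : ℝ} (hT : 1 < T) {k : ℕ} (hk : 1 < k)
    (h1 : Real.log k ≤ 1 / 4 * Real.log Y) (h2 : Real.log k ≤ Real.log T) : cz Pw Y a b T k = 0 := by
  have hL : 0 < Real.log T := Real.log_pos hT
  have ha1 := hE.a1
  have e1 : ∀ m, 1 ≤ m → m ≤ k → az a b T m = 1 := by
    intro m hm hmk
    unfold az
    rw [psi_one hE]
    · simp
    · rw [div_le_iff₀ hL]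
      have : Real.log m ≤ Real.log k := Real.log_le_log (by exact_mod_cast hm) (by exact_mod_cast hmk)
      nlinarith
  have e2 : ∀ m, 1 ≤ m → m ≤ k → cv (et Pw Y) (et Pw Y) m = ((ArithmeticFunction.moebius m : ℤ) : ℂ) := by
    intro m hm hmk
    have h3 := hA.1 m hm
    have h4 : ((∑ p ∈ m.divisorsAntidiagonal, al p.1 * al p.2 : ℝ) : ℂ) = ((ArithmeticFunction.moebius m : ℝ) : ℂ) := by
      rw [h3]
    have h5 : ((ArithmeticFunction.moebius m : ℝ) : ℂ) = ((ArithmeticFunction.moebius m : ℤ) : ℂ) := by push_cast; rfl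
    rw [← h5, ← h4]
    unfold cv
    rw [Complex.ofReal_sum]
    refine Finset.sum_congr rfl fun p hp => ?_
    rw [Nat.mem_divisorsAntidiagonal] at hp
    have h6 : p.1 ≠ 0 := by rintro h; rw [h] at hp; simp at hp; omega
    have h7 : p.2 ≠ 0 := by rintro h; rw [h] at hp; simp at hp; omega
    have h8 : p.1 ≤ m := Nat.le_of_dvd hm ⟨p.2, hp.1.symm⟩
    have h9 : p.2 ≤ m := Nat.le_of_dvd hm ⟨p.1, by rw [mul_comm]; exact hp.1.symm⟩
    have hlog : ∀ j : ℕ, 1 ≤ j → j ≤ m → Real.log j ≤ 1 / 4 * Real.log Y := fun j hj hjm =>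
      (Real.log_le_log (by exact_mod_cast hj) (by exact_mod_cast hjm.trans hmk)).trans h1
    rw [et_flat hG (by omega) (hlog _ (by omega) h8), et_flat hG (by omega) (hlog _ (by omega) h9)]
    push_cast
    rfl
  unfold cz
  have h3 : cv (az a b T) (cv (et Pw Y) (et Pw Y)) k = ∑ p ∈ k.divisorsAntidiagonal, ((ArithmeticFunction.moebius p.2 : ℤ) : ℂ) := by
    show ∑ p ∈ k.divisorsAntidiagonal, az a b T p.1 * cv (et Pw Y) (et Pw Y) p.2 = _
    refine Finset.sum_congr rfl fun p hp => ?_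
    rw [Nat.mem_divisorsAntidiagonal] at hp
    have h6 : p.1 ≠ 0 := by rintro h; rw [h] at hp; simp at hp; omega
    have h7 : p.2 ≠ 0 := by rintro h; rw [h] at hp; simp at hp; omega
    have h8 : p.1 ≤ k := Nat.le_of_dvd (by omega) ⟨p.2, hp.1.symm⟩
    have h9 : p.2 ≤ k := Nat.le_of_dvd (by omega) ⟨p.1, by rw [mul_comm]; exact hp.1.symm⟩
    rw [e1 _ (by omega) h8, e2 _ (by omega) h9, one_mul]
  rw [h3]
  have h4 : ((ArithmeticFunction.zeta : ArithmeticFunction ℤ) * ArithmeticFunction.moebius) k = 0 := by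
    rw [ArithmeticFunction.coe_zeta_mul_moebius]
    exact ArithmeticFunction.one_apply_ne (by omega)
  rw [ArithmeticFunction.mul_apply] at h4
  have h5 : ∑ p ∈ k.divisorsAntidiagonal, (ArithmeticFunction.moebius p.2 : ℤ) = 0 := by
    rw [← h4]
    refine Finset.sum_congr rfl fun p hp => ?_
    rw [Nat.mem_divisorsAntidiagonal] at hp
    have h6 : p.1 ≠ 0 := by rintro h; rw [h] at hp; simp at hp; omega
    simp [ArithmeticFunction.natCoe_apply, ArithmeticFunction.zeta_apply, h6]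
  exact_mod_cast h5

theorem az_supp {a b : ℝ} (hE : Ex a b) {T : ℝ} (hT : 1 < T) {N₁ : ℕ} (hN : T ^ b ≤ N₁) (n : ℕ) (hn : N₁ < n) :
    az a b T n = 0 := by
  unfold az
  have hL : 0 < Real.log T := Real.log_pos hT
  rw [psi_zero hE]
  · simp
  · rw [le_div_iff₀ hL, ← Real.log_rpow (by linarith)]
    refine Real.log_le_log (by positivity) (hN.trans (by exact_mod_cast hn.le))

theorem cz_supp (hG : Gev Pw q c₀ C₀) {Y : ℕ} (hY : 2 ≤ Y) {a b : ℝ} (hE : Ex a b) {T : ℝ} (hT : 1 < T) {N₁ : ℕ}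
    (hN : T ^ b ≤ N₁) (n : ℕ) (hn : N₁ * (Y * Y) < n) : cz Pw Y a b T n = 0 := by
  unfold cz
  exact Pool.Agent.Q84.UM.cv_supp (az_supp hE hT hN)
    (Pool.Agent.Q84.UM.cv_supp (Pool.Agent.Q84.UM.et_supp hG hY) (Pool.Agent.Q84.UM.et_supp hG hY)) n hn

/-- the mollified zeta function is close to a Dirichlet polynomial -/
theorem fm_approx (hG : Gev Pw q c₀ C₀) (hA : S_AL) {a b : ℝ} (hE : Ex a b) {C T : ℝ} {Y N₁ : ℕ} (hY : 2 ≤ Y)
    (hT : 1 < T) (hN : T ^ b ≤ N₁) {t : ℝ}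
    (hB : ‖riemannZeta (1 / 2 + t * I) - ∑ k ∈ Finset.Icc 1 N₁, az a b T k * (k : ℂ) ^ (-(1 / 2 + (t : ℂ) * I))‖ ≤ C) :
    ‖fm Pw Y (1 / 2 + t * I) - dp (N₁ * (Y * Y)) (cz Pw Y a b T) t‖ ≤ C * (Y : ℝ) ^ 2 := by
  have h1 : dp (N₁ * (Y * Y)) (cz Pw Y a b T) t = dp N₁ (az a b T) t * (dp Y (et Pw Y) t * dp Y (et Pw Y) t) := by
    unfold cz
    rw [← Pool.Agent.Q84.UM.dp_mul N₁ (Y * Y) _ _ t (az_supp hE hT hN)
      (Pool.Agent.Q84.UM.cv_supp (Pool.Agent.Q84.UM.et_supp hG hY) (Pool.Agent.Q84.UM.et_supp hG hY)),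
      ← Pool.Agent.Q84.UM.dp_mul Y Y _ _ t (Pool.Agent.Q84.UM.et_supp hG hY) (Pool.Agent.Q84.UM.et_supp hG hY)]
  have h2 : fm Pw Y (1 / 2 + t * I) = riemannZeta (1 / 2 + t * I) * (dp Y (et Pw Y) t * dp Y (et Pw Y) t) := by
    unfold fm
    rw [sq]
    rfl
  have h3 := Pool.Agent.Q84.UM.eta_norm hG hA Y t
  rw [h1, h2, ← sub_mul, norm_mul, norm_mul]
  have h4 : ‖dp Y (et Pw Y) t‖ ≤ Y := h3
  have hC : 0 ≤ C := (norm_nonneg _).trans hB
  have h5 : ‖dp Y (et Pw Y) t‖ * ‖dp Y (et Pw Y) t‖ ≤ (Y : ℝ) ^ 2 := by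
    rw [sq]
    exact mul_le_mul h4 h4 (norm_nonneg _) (Nat.cast_nonneg Y)
  exact mul_le_mul hB h5 (by positivity) hC

end

end Pool.Agent.V8H7.SM
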