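import Pool.Agent.V8H7.SM.FA
import Pool.Agent.H510R2.Div

/-! Sums of a short Dirichlet polynomial over the sums `x + z` of the elements of two sets. -/

set_option autoImplicit false

open Finset MeasureTheory Complex

namespace Pool.Agent.V8H7.SM

open Pool.Agent.H452R4.LI (dens mvS)
open Pool.Agent.Q97.UM (cv N2 dp)

noncomputable section

/-- from moments to means -/
theorem mean_le {Z : Finset ℝ} {f : ℝ → ℝ} (hf : ∀ z ∈ Z, 0 ≤ f z) {r R : ℕ} (hr : 1 ≤ r) (hrR : r ≤ R)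
    {α lam Ξ : ℝ} (hα : 0 < α) (hl : 0 < lam) (hl1 : lam ≤ 1) (hΞ : 0 ≤ Ξ)
    (h : ∑ z ∈ Z, f z ^ (2 * r) ≤ Ξ * α ^ (2 * r)) :
    ∑ z ∈ Z, f z ≤ α * (lam * Z.card + (lam⁻¹) ^ (2 * R) * Ξ) := by
  have hla : 0 < lam * α := by positivity
  obtain ⟨s, hs⟩ : ∃ s, 2 * r = s + 1 := ⟨2 * r - 1, by omega⟩
  have h1 : ∀ z ∈ Z, f z ≤ lam * α + f z ^ (2 * r) / (lam * α) ^ s := by
    intro z hz
    rcases le_or_gt (f z) (lam * α) with h2 | h2
    · have : 0 ≤ f z ^ (2 * r) / (lam * α) ^ s := by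
        have := hf z hz
        positivity
      linarith
    · have h3 : f z * (lam * α) ^ s ≤ f z ^ (2 * r) := by
        rw [hs, pow_succ, mul_comm]
        exact mul_le_mul_of_nonneg_right (pow_le_pow_left₀ hla.le h2.le s) (hf z hz)
      have h4 : f z ≤ f z ^ (2 * r) / (lam * α) ^ s := by
        rw [le_div_iff₀ (by positivity)]
        exact h3
      linarith
  have h2 : ∑ z ∈ Z, f z ≤ ∑ z ∈ Z, (lam * α + f z ^ (2 * r) / (lam * α) ^ s) := Finset.sum_le_sum h1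
  rw [Finset.sum_add_distrib, Finset.sum_const, nsmul_eq_mul, ← Finset.sum_div] at h2
  have h3 : (∑ z ∈ Z, f z ^ (2 * r)) / (lam * α) ^ s ≤ α * ((lam⁻¹) ^ (2 * R) * Ξ) := by
    rw [div_le_iff₀ (by positivity)]
    refine h.trans ?_
    have h4 : 1 ≤ (lam⁻¹) ^ (2 * R) * lam ^ s := by
      have h5 : (lam⁻¹) ^ (2 * R) * lam ^ s = (lam⁻¹) ^ (2 * R - s) := by
        have h6 : 2 * R = (2 * R - s) + s := by omega
        rw [h6, pow_add, mul_assoc, ← mul_pow, inv_mul_cancel₀ hl.ne', one_pow, mul_one]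
        congr 1
        omega
      rw [h5]
      exact one_le_pow₀ (one_le_inv_iff₀.2 ⟨hl, hl1⟩)
    have h7 : α * ((lam⁻¹) ^ (2 * R) * Ξ) * (lam * α) ^ s = ((lam⁻¹) ^ (2 * R) * lam ^ s) * (Ξ * α ^ (s + 1)) := by
      rw [mul_pow]
      ring
    rw [h7, hs]
    have h8 : 0 ≤ Ξ * α ^ (s + 1) := by positivity
    nlinarith
  calc ∑ z ∈ Z, f z ≤ Z.card * (lam * α) + (∑ z ∈ Z, f z ^ (2 * r)) / (lam * α) ^ s := h2
    _ ≤ Z.card * (lam * α) + α * ((lam⁻¹) ^ (2 * R) * Ξ) := by linarith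
    _ = _ := by ring

/-- the exponential sum of a set -/
def Ah (A : Finset ℝ) (n : ℕ) : ℂ := ∑ x ∈ A, en x n

/-- coefficients of a block -/
def bj (c : ℕ → ℂ) (A : Finset ℝ) (j n : ℕ) : ℂ := if 2 ^ j < n ∧ n ≤ 2 * 2 ^ j then c n * Ah A n else 0

theorem bj_supp (c : ℕ → ℂ) (A : Finset ℝ) (j n : ℕ) (h : bj c A j n ≠ 0) : 2 ^ j < n ∧ n ≤ 2 * 2 ^ j := by
  unfold bj at h
  by_contra hc
  exact h (if_neg hc)

theorem split_pow {M : Type} [AddCommMonoid M] (J : ℕ) (f : ℕ → M) : ∑ n ∈ Ioc 1 (2 ^ J), f n =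
    ∑ j ∈ range J, ∑ n ∈ Ioc (2 ^ j) (2 * 2 ^ j), f n := by
  induction J with
  | zero => simp
  | succ J ih =>
    rw [Finset.sum_range_succ, ← ih, ← Finset.sum_union]
    · congr 1
      ext n
      simp only [Finset.mem_Ioc, Finset.mem_union]
      have : 1 ≤ 2 ^ J := Nat.one_le_two_pow
      rw [pow_succ]
      omega
    · rw [Finset.disjoint_left]
      intro n h1 h2
      rw [Finset.mem_Ioc] at h1 h2
      omega

theorem en_add (x z : ℝ) (n : ℕ) : en (x + z) n = en x n * en z n := by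
  unfold en
  rw [← Complex.exp_add]
  congr 1
  push_cast
  ring

theorem sum_blocks {K₀ J : ℕ} (hK : K₀ ≤ 2 ^ J) {c : ℕ → ℂ} (hc1 : c 1 = 1) (hc : ∀ n, K₀ < n → c n = 0) (A : Finset ℝ)
    (z : ℝ) : ∑ x ∈ A, (dp K₀ c (x + z) - 1) = ∑ j ∈ range J, dp (2 * 2 ^ j) (bj c A j) z := by
  have h1 : ∀ t : ℝ, dp K₀ c t - 1 = ∑ n ∈ Ioc 1 (2 ^ J), c n * (((Real.sqrt n)⁻¹ : ℝ) * en t n) := by
    intro t
    unfold dp
    have e1 : ∑ n ∈ Icc 1 K₀, c n * (n : ℂ) ^ (-(1 / 2 + (t : ℂ) * I)) =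
        ∑ n ∈ Icc 1 (2 ^ J), c n * (n : ℂ) ^ (-(1 / 2 + (t : ℂ) * I)) := by
      refine Finset.sum_subset (Finset.Icc_subset_Icc_right hK) ?_
      intro n hn hn2
      rw [Finset.mem_Icc] at hn hn2
      rw [hc n (by omega), zero_mul]
    have e2 : Icc 1 (2 ^ J) = insert 1 (Ioc 1 (2 ^ J)) := by
      ext n
      simp only [Finset.mem_Icc, Finset.mem_insert, Finset.mem_Ioc]
      have : 1 ≤ 2 ^ J := Nat.one_le_two_pow
      omega
    rw [e1, e2, Finset.sum_insert (by simp), hc1]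
    simp only [Nat.cast_one, Complex.one_cpow, mul_one, add_sub_cancel_left]
    refine Finset.sum_congr rfl fun n hn => ?_
    rw [Finset.mem_Ioc] at hn
    rw [cpow_en (by omega)]
  have h2 : ∑ x ∈ A, (dp K₀ c (x + z) - 1) = ∑ n ∈ Ioc 1 (2 ^ J), c n * Ah A n * (((Real.sqrt n)⁻¹ : ℝ) * en z n) := by
    have h3 : ∀ x ∈ A, dp K₀ c (x + z) - 1 = ∑ n ∈ Ioc 1 (2 ^ J), c n * en x n * (((Real.sqrt n)⁻¹ : ℝ) * en z n) := by
      intro x _
      rw [h1 (x + z)]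
      refine Finset.sum_congr rfl fun n _ => ?_
      rw [en_add]
      ring
    rw [Finset.sum_congr rfl h3, Finset.sum_comm]
    refine Finset.sum_congr rfl fun n _ => ?_
    unfold Ah
    rw [← Finset.sum_mul, ← Finset.mul_sum]
  rw [h2, split_pow]
  refine Finset.sum_congr rfl fun j _ => ?_
  unfold dp
  have e3 : ∑ n ∈ Icc 1 (2 * 2 ^ j), bj c A j n * (n : ℂ) ^ (-(1 / 2 + (z : ℂ) * I)) =
      ∑ n ∈ Ioc (2 ^ j) (2 * 2 ^ j), bj c A j n * (n : ℂ) ^ (-(1 / 2 + (z : ℂ) * I)) := by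
    symm
    refine Finset.sum_subset ?_ ?_
    · intro n hn
      rw [Finset.mem_Ioc] at hn
      rw [Finset.mem_Icc]
      omega
    · intro n hn hn2
      rw [Finset.mem_Icc] at hn
      rw [Finset.mem_Ioc] at hn2
      have : bj c A j n = 0 := by
        by_contra h
        exact hn2 (bj_supp c A j n h)
      rw [this, zero_mul]
  rw [e3]
  refine Finset.sum_congr rfl fun n hn => ?_
  rw [Finset.mem_Ioc] at hn
  rw [cpow_en (by omega)]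
  unfold bj
  rw [if_pos hn]

theorem Ah_eq (A : Finset ℝ) (n : ℕ) : Ah A n = mvS A (fun _ => 1) (Real.log n) := by
  unfold Ah mvS en
  refine Finset.sum_congr rfl fun x _ => ?_
  rw [one_mul]

/-- the moments of a block -/
theorem block : ∃ C : ℝ, 1 ≤ C ∧ ∀ (A Z : Finset ℝ) (T' wA Δ : ℝ) (j r : ℕ) (c : ℕ → ℂ), 1 ≤ T' →
    (∀ x ∈ A, |x| ≤ T') → (∀ z ∈ Z, |z| ≤ T') → dens A wA → dens Z 1 → 1 ≤ r → 1 ≤ Δ →
    (∀ n, 2 ^ j < n → n ≤ 2 * 2 ^ j → ‖c n‖ ≤ Δ ^ 2) →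
    (∀ n : ℕ, 1 ≤ n → n ≤ (2 * 2 ^ j) ^ r → (n.divisors.card : ℝ) ≤ Δ) →
    ∑ z ∈ Z, ‖dp (2 * 2 ^ j) (bj c A j) z‖ ^ (2 * r) ≤
      C * ((j + 1) * r) * ((2 * 2 ^ j) ^ r + T') * (C * Δ ^ 5 * ((2 ^ j + T') / 2 ^ j) * (wA * A.card)) ^ r := by
  obtain ⟨C₁, hC₁, h1⟩ := moment
  obtain ⟨C₂, hC₂, h2⟩ := mvg
  refine ⟨max 1 (max C₁ C₂), le_max_left _ _, ?_⟩
  obtain ⟨C, hC⟩ : ∃ C, C = max 1 (max C₁ C₂) := ⟨_, rfl⟩
  have hC0 : 1 ≤ C := by rw [hC]; exact le_max_left _ _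
  have hC1 : C₁ ≤ C := by rw [hC]; exact (le_max_left _ _).trans (le_max_right _ _)
  have hC2 : C₂ ≤ C := by rw [hC]; exact (le_max_right _ _).trans (le_max_right _ _)
  rw [← hC]
  intro A Z T' wA Δ j r c hT hA hZ hdA hdZ hr hΔ hc hd
  have hwA : 0 ≤ wA := by
    have := hdA 0
    exact le_trans (Nat.cast_nonneg _) this
  have hD1 : 1 ≤ 2 ^ j := Nat.one_le_two_pow
  have hD0 : (0 : ℝ) < 2 ^ j := by positivity
  have hN2 : N2 (2 * 2 ^ j) (bj c A j) ≤ C * Δ ^ 4 * ((2 ^ j + T') / 2 ^ j) * (wA * A.card) := by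
    unfold N2
    have e1 : ∑ n ∈ Icc 1 (2 * 2 ^ j), ‖bj c A j n‖ ^ 2 / (n : ℝ) =
        ∑ n ∈ Ioc (2 ^ j) (2 * 2 ^ j), ‖bj c A j n‖ ^ 2 / (n : ℝ) := by
      symm
      refine Finset.sum_subset ?_ ?_
      · intro n hn
        rw [Finset.mem_Ioc] at hn
        rw [Finset.mem_Icc]
        omega
      · intro n hn hn2
        rw [Finset.mem_Ioc] at hn2
        have : bj c A j n = 0 := by
          by_contra h
          exact hn2 (bj_supp c A j n h)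
        rw [this]
        simp
    rw [e1]
    have e2 : ∑ n ∈ Ioc (2 ^ j) (2 * 2 ^ j), ‖bj c A j n‖ ^ 2 / (n : ℝ) ≤
        ∑ n ∈ (Ioc (2 ^ j) (2 * 2 ^ j) : Finset ℕ), (Δ ^ 4 / 2 ^ j) * ‖mvS A (fun _ => 1) (Real.log n)‖ ^ 2 := by
      refine Finset.sum_le_sum fun n hn => ?_
      rw [Finset.mem_Ioc] at hn
      have hn0 : (2 : ℝ) ^ j ≤ n := by exact_mod_cast hn.1.le
      unfold bj
      rw [if_pos hn, Ah_eq, norm_mul, mul_pow]
      have h3 : ‖c n‖ ^ 2 ≤ Δ ^ 4 := by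
        have := pow_le_pow_left₀ (norm_nonneg _) (hc n hn.1 hn.2) 2
        rwa [← pow_mul] at this
      calc ‖c n‖ ^ 2 * ‖mvS A (fun _ => 1) (Real.log n)‖ ^ 2 / n ≤
            Δ ^ 4 * ‖mvS A (fun _ => 1) (Real.log n)‖ ^ 2 / 2 ^ j :=
            div_le_div₀ (by positivity) (mul_le_mul_of_nonneg_right h3 (by positivity)) hD0 hn0
        _ = _ := by ring
    refine e2.trans ?_
    rw [← Finset.mul_sum]
    have h4 := h2 A (fun _ => 1) T' wA (2 ^ j) hT hD1 hA hdA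
    simp only [norm_one, one_pow, Finset.sum_const, nsmul_eq_mul, mul_one] at h4
    push_cast at h4
    calc Δ ^ 4 / 2 ^ j * ∑ n ∈ (Ioc (2 ^ j) (2 * 2 ^ j) : Finset ℕ), ‖mvS A (fun _ => 1) (Real.log n)‖ ^ 2 ≤
          Δ ^ 4 / 2 ^ j * (C₂ * (2 ^ j + T') * wA * A.card) := mul_le_mul_of_nonneg_left h4 (by positivity)
      _ ≤ Δ ^ 4 / 2 ^ j * (C * (2 ^ j + T') * wA * A.card) := by gcongr
      _ = _ := by ring
  have h5 := h1 Z T' 1 ((j + 1) * r) (bj c A j) (2 ^ j) (2 * 2 ^ j) r Δ hT hZ hdZ hD1 (by omega) hr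
    (fun n hn => bj_supp c A j n hn) (by rw [← pow_succ', ← pow_mul]) hΔ hd
  have h6 : (2 : ℝ) ^ ((j + 1) * r) = (2 * 2 ^ j) ^ r := by rw [← pow_succ', ← pow_mul]
  rw [h6] at h5
  have h7 : Δ * N2 (2 * 2 ^ j) (bj c A j) ≤ C * Δ ^ 5 * ((2 ^ j + T') / 2 ^ j) * (wA * A.card) := by
    calc Δ * N2 (2 * 2 ^ j) (bj c A j) ≤ Δ * (C * Δ ^ 4 * ((2 ^ j + T') / 2 ^ j) * (wA * A.card)) :=
          mul_le_mul_of_nonneg_left hN2 (by linarith)
      _ = _ := by ring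
  have h8 : 0 ≤ Δ * N2 (2 * 2 ^ j) (bj c A j) := mul_nonneg (by linarith) (N2_nn _ _)
  refine h5.trans ?_
  push_cast
  rw [mul_one]
  refine mul_le_mul ?_ (pow_le_pow_left₀ h8 h7 r) (by positivity) (by positivity)
  gcongr

end

end Pool.Agent.V8H7.SM
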