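import Pool.Agent.V8H7.SM.FB

/-! The first moment of the mollified zeta function over the sums `x + z` of the elements of two sets. -/

set_option autoImplicit false

open Finset MeasureTheory Complex Filter Topology

namespace Pool.Agent.V8H7.SM

open Pool.Agent.H452R4.LI (dens)
open Pool.Agent.Q97.UM (cv N2 dp dq et al Gev S_AL eta fm)
open BLZ (Ex psi psi_one psi_zero psi_mem)

noncomputable section

/-- the moment of a block in closed form -/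
theorem block_num {S Ck T K w M Q Δ α : ℝ} {R J j r : ℕ} (hCk : 1 ≤ Ck) (hT : 1 ≤ T) (hK : 1 ≤ K) (hw : 0 ≤ w) (hM : 0 ≤ M)
    (hQ : 1 ≤ Q) (hΔ : 1 ≤ Δ) (hα : 0 ≤ α) (hr1 : 1 ≤ r) (hrR : r ≤ R) (hj : j + 1 ≤ J) (hwM : T * w ≤ M * α)
    (hS : S ≤ Ck * ((j + 1) * r) * ((2 * 2 ^ j) ^ r + K * T) * (Ck * Δ ^ 5 * ((2 ^ j + K * T) / 2 ^ j) * (w * α)) ^ r)
    (hcase : ((2 : ℝ) ^ j < T ∧ T ≤ ((2 : ℝ) ^ j) ^ r) ∨ (T ≤ 2 ^ j ∧ r = 1 ∧ (2 : ℝ) ^ j ≤ Q * T)) :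
    S ≤ (Ck * (J * R) * (2 ^ R + K) * (Ck * Δ ^ 5 * (1 + K) * (M + 1)) ^ R * Q) * α ^ (2 * r) := by
  obtain ⟨D, hD⟩ : ∃ D : ℝ, D = 2 ^ j := ⟨_, rfl⟩
  have hD0 : 1 ≤ D := by rw [hD]; exact one_le_pow₀ (by norm_num)
  rw [← hD] at hS hcase
  obtain ⟨G, hG⟩ : ∃ G, G = Ck * Δ ^ 5 * (1 + K) * (M + 1) := ⟨_, rfl⟩
  have hΔ5 : 1 ≤ Δ ^ 5 := one_le_pow₀ hΔ
  have hG1 : 1 ≤ G := by
    rw [hG]
    have h1 : 1 ≤ Ck * Δ ^ 5 := one_le_mul_of_one_le_of_one_le hCk hΔ5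
    have h2 : 1 ≤ Ck * Δ ^ 5 * (1 + K) := one_le_mul_of_one_le_of_one_le h1 (by linarith)
    exact one_le_mul_of_one_le_of_one_le h2 (by linarith)
  rw [← hG]
  have hjJ : ((j : ℝ) + 1) * r ≤ J * R := by
    have h1 : ((j : ℝ) + 1) ≤ J := by exact_mod_cast hj
    have h2 : (r : ℝ) ≤ R := by exact_mod_cast hrR
    exact mul_le_mul h1 h2 (Nat.cast_nonneg r) (Nat.cast_nonneg J)
  have h2r : (2 : ℝ) ^ r ≤ 2 ^ R := pow_le_pow_right₀ (by norm_num) hrR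
  have hR2 : (2 : ℝ) ≤ 2 ^ R := by
    calc (2 : ℝ) = 2 ^ 1 := by norm_num
      _ ≤ 2 ^ R := pow_le_pow_right₀ (by norm_num) (hr1.trans hrR)
  have hGr : G ^ r ≤ G ^ R := pow_le_pow_right₀ hG1 hrR
  have hα2 : 0 ≤ α ^ (2 * r) := by positivity
  have hJ0 : (0 : ℝ) ≤ J * R := by positivity
  have hCk0 : 0 ≤ Ck := by linarith
  rcases hcase with ⟨h1, h2⟩ | ⟨h1, h2, h3⟩
  · have hX : Ck * Δ ^ 5 * ((D + K * T) / D) * (w * α) ≤ G * α ^ 2 / D := by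
      rw [hG, mul_div_assoc' , div_mul_eq_mul_div]
      refine div_le_div_of_nonneg_right ?_ (by linarith)
      have h3 : D + K * T ≤ (1 + K) * T := by linarith
      have h4 : (D + K * T) * (w * α) ≤ (1 + K) * (M + 1) * α ^ 2 := by
        calc (D + K * T) * (w * α) ≤ ((1 + K) * T) * (w * α) := mul_le_mul_of_nonneg_right h3 (by positivity)
          _ = (1 + K) * (T * w) * α := by ring
          _ ≤ (1 + K) * (M * α) * α := by gcongr
          _ = (1 + K) * M * α ^ 2 := by ring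
          _ ≤ (1 + K) * (M + 1) * α ^ 2 := by gcongr; linarith
      calc Ck * Δ ^ 5 * (D + K * T) * (w * α) = Ck * Δ ^ 5 * ((D + K * T) * (w * α)) := by ring
        _ ≤ Ck * Δ ^ 5 * ((1 + K) * (M + 1) * α ^ 2) := mul_le_mul_of_nonneg_left h4 (by positivity)
        _ = _ := by ring
    have hX0 : 0 ≤ Ck * Δ ^ 5 * ((D + K * T) / D) * (w * α) := by positivity
    have hDr : (0 : ℝ) < D ^ r := by positivity
    calc S ≤ _ := hS
      _ ≤ Ck * ((j + 1) * r) * ((2 * D) ^ r + K * T) * (G * α ^ 2 / D) ^ r :=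
          mul_le_mul_of_nonneg_left (pow_le_pow_left₀ hX0 hX r) (by positivity)
      _ ≤ Ck * (J * R) * ((2 ^ R + K) * D ^ r) * (G * α ^ 2 / D) ^ r := by
          have h5 : (2 * D) ^ r + K * T ≤ (2 ^ R + K) * D ^ r := by
            rw [mul_pow, add_mul]
            exact add_le_add (mul_le_mul_of_nonneg_right h2r hDr.le) (mul_le_mul_of_nonneg_left h2 (by linarith))
          gcongr
      _ = Ck * (J * R) * (2 ^ R + K) * G ^ r * α ^ (2 * r) := by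
          rw [div_pow, mul_pow, pow_mul]
          field_simp
      _ ≤ Ck * (J * R) * (2 ^ R + K) * G ^ R * α ^ (2 * r) := by gcongr
      _ ≤ (Ck * (J * R) * (2 ^ R + K) * G ^ R * Q) * α ^ (2 * r) := by
          refine mul_le_mul_of_nonneg_right ?_ hα2
          refine le_mul_of_one_le_right ?_ hQ
          positivity
  · subst h2
    simp only [pow_one, mul_one, Nat.cast_one] at hS hjJ ⊢
    have hX : Ck * Δ ^ 5 * ((D + K * T) / D) * (w * α) ≤ Ck * Δ ^ 5 * (1 + K) * (w * α) := by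
      have h4 : (D + K * T) / D ≤ 1 + K := by
        rw [div_le_iff₀ (by linarith)]
        have := mul_le_mul_of_nonneg_left h1 (by linarith : (0:ℝ) ≤ K)
        linarith
      gcongr
    have h5 : 2 * D + K * T ≤ (2 ^ R + K) * D := by
      have h7 := mul_le_mul_of_nonneg_left h1 (by linarith : (0:ℝ) ≤ K)
      have h8 := mul_le_mul_of_nonneg_right hR2 (by linarith : (0:ℝ) ≤ D)
      linarith
    have h6 : D * (w * α) ≤ Q * (M * α ^ 2) := by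
      calc D * (w * α) ≤ (Q * T) * (w * α) := mul_le_mul_of_nonneg_right h3 (by positivity)
        _ = Q * ((T * w) * α) := by ring
        _ ≤ Q * ((M * α) * α) := by gcongr
        _ = _ := by ring
    have hG2 : G ≤ G ^ R := le_self_pow₀ hG1 (by omega)
    calc S ≤ _ := hS
      _ ≤ Ck * (J * R) * ((2 ^ R + K) * D) * (Ck * Δ ^ 5 * (1 + K) * (w * α)) := by gcongr
      _ = Ck * (J * R) * (2 ^ R + K) * (Ck * Δ ^ 5 * (1 + K)) * (D * (w * α)) := by ring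
      _ ≤ Ck * (J * R) * (2 ^ R + K) * (Ck * Δ ^ 5 * (1 + K)) * (Q * (M * α ^ 2)) := by gcongr
      _ ≤ Ck * (J * R) * (2 ^ R + K) * (Ck * Δ ^ 5 * (1 + K)) * (Q * ((M + 1) * α ^ 2)) := by
          gcongr
          linarith
      _ = Ck * (J * R) * (2 ^ R + K) * G * Q * α ^ 2 := by rw [hG]; ring
      _ ≤ Ck * (J * R) * (2 ^ R + K) * G ^ R * Q * α ^ 2 := by gcongr

/-- the choice of the exponent -/
theorem choose_r {D T θ : ℝ} {R : ℕ} (hT : 1 < T) (hθ : 0 < θ) (hD : θ / 16 * Real.log T ≤ Real.log D) (hD1 : 1 ≤ D)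
    (hR : 16 / θ + 1 ≤ R) : ∃ r : ℕ, 1 ≤ r ∧ r ≤ R ∧ T ≤ D ^ r ∧ D ^ r ≤ D * T := by
  have hL : 0 < Real.log T := Real.log_pos hT
  have hlD : 0 < Real.log D := lt_of_lt_of_le (by positivity) hD
  have hD0 : 0 < D := by linarith
  obtain ⟨r, hr⟩ : ∃ r, r = ⌈Real.log T / Real.log D⌉₊ := ⟨_, rfl⟩
  have h1 : Real.log T / Real.log D ≤ r := by rw [hr]; exact Nat.le_ceil _
  have h2 : (r : ℝ) < Real.log T / Real.log D + 1 := by rw [hr]; exact Nat.ceil_lt_add_one (by positivity)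
  have h3 : 0 < Real.log T / Real.log D := by positivity
  refine ⟨r, ?_, ?_, ?_, ?_⟩
  · rw [hr]
    exact Nat.ceil_pos.2 h3
  · have h4 : Real.log T / Real.log D ≤ 16 / θ := by
      rw [div_le_div_iff₀ hlD hθ]
      linarith
    have : (r : ℝ) ≤ R := by linarith
    exact_mod_cast this
  · rw [← Real.log_le_log_iff (by linarith) (by positivity), Real.log_pow]
    rwa [div_le_iff₀ hlD] at h1
  · rw [← Real.log_le_log_iff (by positivity) (by positivity), Real.log_pow, Real.log_mul hD0.ne' (by linarith)]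
    have h5 : ((r : ℝ) - 1) * Real.log D ≤ Real.log T := by
      have h6 : (r : ℝ) - 1 ≤ Real.log T / Real.log D := by linarith
      rwa [le_div_iff₀ hlD] at h6
    linarith

theorem log_pow_le (k : ℕ) {c s : ℝ} (hc : 0 < c) (hs : 0 < s) : ∀ᶠ T : ℝ in atTop, Real.log T ^ k ≤ c * T ^ s := by
  have h := (isLittleO_log_rpow_rpow_atTop (k : ℝ) hs).def hc
  filter_upwards [h, eventually_ge_atTop 1] with T hT hT1
  have h1 : 0 ≤ Real.log T := Real.log_nonneg hT1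
  rw [Real.rpow_natCast, Real.norm_of_nonneg (by positivity), Real.norm_of_nonneg (by positivity)] at hT
  exact hT

theorem aux1 {x : ℝ} (h : 4 ≤ x) : x ≤ (x / 2) ^ 2 := by nlinarith

theorem aux2 {J l L : ℝ} (h : J * l ≤ 2 * L) (hl : 0.6931471803 < l) (hJ : 0 ≤ J) : J ≤ 3 * L := by nlinarith

theorem aux3 {J L : ℝ} (h : J ≤ 3 * L) (hL : 192 ≤ L) : J ≤ 1 / 64 * L ^ 2 := by nlinarith

theorem first {Pw q : ℝ → ℝ} {c₀ C₀ : ℝ} (hG : Gev Pw q c₀ C₀) (hA : S_AL) {θ ε K η : ℝ} (hθ : 0 < θ) (hθε : θ ≤ ε / 16)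
    (hε : 0 < ε) (hε1 : ε ≤ 1) (hK : 1 ≤ K) (hη : 0 < η) :
    ∀ᶠ T : ℝ in atTop, ∀ A Z : Finset ℝ, (∀ x ∈ A, |x| ≤ K * T) → (∀ z ∈ Z, |z| ≤ K * T) → dens A (K * Real.log T) →
      dens Z 1 → η * T * Real.log T ≤ A.card → T ^ ε ≤ Z.card → (∀ x ∈ A, ∀ z ∈ Z, T ≤ x + z ∧ x + z ≤ 2 * T) →
      ∑ z ∈ Z, ‖∑ x ∈ A, (fm Pw ⌊T ^ θ⌋₊ (1 / 2 + ((x + z : ℝ) : ℂ) * I) - 1)‖ ≤ 1 / 8 * (A.card * Z.card) := by
  obtain ⟨a, ha⟩ : ∃ a : ℝ, a = 1 + ε / 32 := ⟨_, rfl⟩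
  obtain ⟨b, hb⟩ : ∃ b : ℝ, b = 1 + ε / 16 := ⟨_, rfl⟩
  have hE : Ex a b := ⟨by rw [ha]; linarith, by rw [ha, hb]; linarith, by rw [hb]; linarith⟩
  obtain ⟨Cb, hCb0, hblz⟩ := blz hE (by rw [ha]; linarith)
  obtain ⟨Ck, hCk, hblock⟩ := block
  obtain ⟨R, hR, hR1⟩ : ∃ R : ℕ, 16 / θ + 1 ≤ R ∧ 1 ≤ R := by
    refine ⟨⌈16 / θ⌉₊ + 1, ?_, by omega⟩
    push_cast
    have := Nat.le_ceil (16 / θ)
    linarith
  have hR0 : (0 : ℝ) < R := by exact_mod_cast hR1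
  obtain ⟨δ, hδ⟩ : ∃ δ : ℝ, δ = ε / (80 * R) := ⟨_, rfl⟩
  have hδ0 : 0 < δ := by rw [hδ]; positivity
  have hδR : 5 * R * δ = ε / 16 := by rw [hδ]; field_simp; norm_num
  obtain ⟨Cd, hCd, hdiv⟩ := Pool.Agent.H510R2.divisor_bound (δ / 4) (by positivity)
  obtain ⟨M, hM⟩ : ∃ M : ℝ, M = K / η := ⟨_, rfl⟩
  have hM0 : 0 ≤ M := by rw [hM]; positivity
  obtain ⟨B, hB⟩ : ∃ B : ℝ, B = 36 * Ck * R * (2 ^ R + K) * (Ck * (1 + K) * (M + 1)) ^ R := ⟨_, rfl⟩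
  have hB0 : 0 < B := by rw [hB]; positivity
  have tp : ∀ s : ℝ, 0 < s → Tendsto (fun T : ℝ => T ^ s) atTop atTop := fun s hs => tendsto_rpow_atTop hs
  filter_upwards [hblz, eventually_ge_atTop 100, (tp θ hθ).eventually_ge_atTop 4, (tp (δ / 4) (by positivity)).eventually_ge_atTop Cd,
    eventually_ge_atTop ((2 : ℝ) ^ R), (tp (θ / 16) (by positivity)).eventually_ge_atTop 2,
    Real.tendsto_log_atTop.eventually_ge_atTop 192, eventually_ge_atTop (32 * Cb),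
    log_pow_le (4 * R + 2) (c := 1 / (64 * B)) (by positivity) (show 0 < 3 / 4 * ε by positivity)]
    with T hblzT hT100 hTθ hTd hTR hT16 hL192 hTCb hlog A Z hAK hZK hdA hdZ hcA hcZ hAZ
  have hT0 : 0 < T := by linarith
  have hT1 : 1 < T := by linarith
  obtain ⟨L, hL⟩ : ∃ L, L = Real.log T := ⟨_, rfl⟩
  rw [← hL] at hL192 hlog hcA hdA
  have hL0 : 0 < L := by linarith
  -- the mollifier
  obtain ⟨Y, hY⟩ : ∃ Y : ℕ, Y = ⌊T ^ θ⌋₊ := ⟨_, rfl⟩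
  rw [← hY]
  have hYle : (Y : ℝ) ≤ T ^ θ := by rw [hY]; exact Nat.floor_le (by positivity)
  have hYge : T ^ θ / 2 ≤ Y := by
    have h1 : T ^ θ < (Y : ℝ) + 1 := by rw [hY]; exact Nat.lt_floor_add_one _
    linarith
  have hY2 : 2 ≤ Y := by
    have : (2 : ℝ) ≤ Y := by linarith
    exact_mod_cast this
  have hY0 : (0 : ℝ) < Y := by linarith
  have hlogY : θ / 2 * L ≤ Real.log Y := by
    have h1 : Real.sqrt (T ^ θ) ≤ Y := by
      have h2 : Real.sqrt (T ^ θ) ≤ T ^ θ / 2 := by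
        rw [Real.sqrt_le_left (by linarith)]
        exact aux1 hTθ
      linarith
    have h2 : Real.log (Real.sqrt (T ^ θ)) = θ / 2 * L := by
      rw [Real.log_sqrt (by linarith), Real.log_rpow hT0, hL]
      ring
    rw [← h2]
    exact Real.log_le_log (Real.sqrt_pos.2 (by linarith)) h1
  have hθ1 : θ ≤ 1 := by linarith
  have hYT : Real.log Y ≤ L := by
    rw [hL]
    refine Real.log_le_log hY0 (hYle.trans ?_)
    calc T ^ θ ≤ T ^ (1 : ℝ) := Real.rpow_le_rpow_of_exponent_le hT1.le hθ1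
      _ = T := Real.rpow_one T
  have hlogY0 : 0 < Real.log Y := lt_of_lt_of_le (by positivity) hlogY
  -- the length
  obtain ⟨N₁, hN₁⟩ : ∃ N₁ : ℕ, N₁ = ⌈T ^ b⌉₊ := ⟨_, rfl⟩
  have hTb : 1 ≤ T ^ b := Real.one_le_rpow hT1.le (by rw [hb]; linarith)
  have hN₁1 : T ^ b ≤ N₁ := by rw [hN₁]; exact Nat.le_ceil _
  have hN₁2 : (N₁ : ℝ) ≤ 2 * T ^ b := by
    rw [hN₁]
    have := (Nat.ceil_lt_add_one (by linarith : (0:ℝ) ≤ T ^ b)).le
    linarith
  obtain ⟨K₀, hK₀⟩ : ∃ K₀ : ℕ, K₀ = N₁ * (Y * Y) := ⟨_, rfl⟩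
  have hK₀le : (K₀ : ℝ) ≤ 2 * T ^ (b + 2 * θ) := by
    rw [hK₀]
    push_cast
    have h1 : (Y : ℝ) * Y ≤ T ^ θ * T ^ θ := mul_le_mul hYle hYle hY0.le (by positivity)
    calc (N₁ : ℝ) * (Y * Y) ≤ (2 * T ^ b) * (T ^ θ * T ^ θ) := mul_le_mul hN₁2 h1 (by positivity) (by positivity)
      _ = 2 * T ^ (b + 2 * θ) := by
          rw [← Real.rpow_add hT0, mul_assoc, ← Real.rpow_add hT0]
          ring_nf
  have hK₀1 : 1 < K₀ := by
    rw [hK₀]
    have h1 : 1 ≤ N₁ := by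
      have : (1 : ℝ) ≤ N₁ := hTb.trans hN₁1
      exact_mod_cast this
    have h2 : 2 * 2 ≤ Y * Y := Nat.mul_le_mul hY2 hY2
    exact lt_of_lt_of_le (by norm_num) (Nat.mul_le_mul h1 h2)
  obtain ⟨J, hJ⟩ : ∃ J : ℕ, J = Nat.clog 2 K₀ := ⟨_, rfl⟩
  have hJ1 : K₀ ≤ 2 ^ J := by rw [hJ]; exact Nat.le_pow_clog (by norm_num) _
  have hJ2 : (2 : ℝ) ^ J ≤ 4 * T ^ (b + 2 * θ) := by
    have h1 : 2 ^ (J - 1) < K₀ := by
      rw [hJ]
      exact Nat.pow_pred_clog_lt_self (by norm_num) hK₀1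
    have h2 : 1 ≤ J := by
      rw [hJ]
      exact Nat.clog_pos (by norm_num) hK₀1
    have h3 : (2 : ℝ) ^ J = 2 * 2 ^ (J - 1) := by
      rw [← pow_succ']
      congr 1
      omega
    have h4 : (2 : ℝ) ^ (J - 1) ≤ K₀ := by exact_mod_cast h1.le
    rw [h3]
    linarith
  have hb2 : 4 * T ^ (b + 2 * θ) ≤ T ^ 2 := by
    have h1 : (4 : ℝ) ≤ T ^ (1 / 2 : ℝ) := by
      rw [← Real.sqrt_eq_rpow]
      refine (Real.le_sqrt (by norm_num) hT0.le).2 (by linarith)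
    calc 4 * T ^ (b + 2 * θ) ≤ T ^ (1 / 2 : ℝ) * T ^ (3 / 2 : ℝ) :=
          mul_le_mul h1 (Real.rpow_le_rpow_of_exponent_le hT1.le (by rw [hb]; linarith)) (by positivity) (by positivity)
      _ = T ^ 2 := by
          rw [← Real.rpow_add hT0, ← Real.rpow_natCast]
          norm_num
  have hJL : (J : ℝ) ≤ 3 * L := by
    have h1 : Real.log ((2 : ℝ) ^ J) ≤ Real.log (T ^ 2) := Real.log_le_log (by positivity) (hJ2.trans hb2)
    rw [Real.log_pow, Real.log_pow, ← hL] at h1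
    have h2 := Real.log_two_gt_d9
    push_cast at h1
    have h3 : (0 : ℝ) ≤ J := Nat.cast_nonneg J
    exact aux2 h1 h2 h3
  -- the divisor bound
  obtain ⟨Δ, hΔ⟩ : ∃ Δ : ℝ, Δ = T ^ δ := ⟨_, rfl⟩
  have hΔ1 : 1 ≤ Δ := by rw [hΔ]; exact Real.one_le_rpow hT1.le hδ0.le
  have hd : ∀ n : ℕ, 1 ≤ n → (n : ℝ) ≤ T ^ 3 → (n.divisors.card : ℝ) ≤ Δ := by
    intro n hn hnT
    refine (hdiv n hn).trans ?_
    calc Cd * (n : ℝ) ^ (δ / 4) ≤ T ^ (δ / 4) * (T ^ 3) ^ (δ / 4) :=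
          mul_le_mul hTd (Real.rpow_le_rpow (Nat.cast_nonneg n) hnT (by positivity)) (by positivity) (by positivity)
      _ = Δ := by
          rw [hΔ, ← Real.rpow_natCast T 3, ← Real.rpow_mul hT0.le, ← Real.rpow_add hT0]
          congr 1
          push_cast
          ring
  -- the coefficients
  obtain ⟨c, hc⟩ : ∃ c, c = cz Pw Y a b T := ⟨_, rfl⟩
  have hc1 : c 1 = 1 := by rw [hc]; exact cz_one hG Y hE T
  have hcs : ∀ n, K₀ < n → c n = 0 := by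
    intro n hn
    rw [hc]
    exact cz_supp hG hY2 hE hT1 hN₁1 n (by rw [← hK₀]; exact hn)
  have hA0 : 0 < (A.card : ℝ) := lt_of_lt_of_le (by positivity) hcA
  have hwM : T * (K * L) ≤ M * A.card := by
    rw [hM, div_mul_eq_mul_div, le_div_iff₀ hη]
    have := mul_le_mul_of_nonneg_left hcA (by linarith : (0:ℝ) ≤ K)
    linarith
  obtain ⟨Q, hQ⟩ : ∃ Q : ℝ, Q = 4 * T ^ (3 / 16 * ε) := ⟨_, rfl⟩
  have hQ1 : 1 ≤ Q := by
    have : 1 ≤ T ^ (3 / 16 * ε) := Real.one_le_rpow hT1.le (by positivity)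
    rw [hQ]
    linarith
  obtain ⟨Ξ, hΞ⟩ : ∃ Ξ : ℝ, Ξ = Ck * (J * R) * (2 ^ R + K) * (Ck * Δ ^ 5 * (1 + K) * (M + 1)) ^ R * Q := ⟨_, rfl⟩
  have hΞ0 : 0 ≤ Ξ := by rw [hΞ]; positivity
  have hmain : ∀ j ∈ range J, ∑ z ∈ Z, ‖dp (2 * 2 ^ j) (bj c A j) z‖ ≤
      A.card * ((L ^ 2)⁻¹ * Z.card + (((L ^ 2)⁻¹)⁻¹) ^ (2 * R) * Ξ) := by
    intro j hj
    rw [Finset.mem_range] at hj
    have hDpos : (0 : ℝ) < 2 ^ j := by positivity
    have h2D : ((2 : ℝ) * 2 ^ j) ≤ 2 ^ J := by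
      rw [← pow_succ']
      exact pow_le_pow_right₀ (by norm_num) (by omega)
    rcases le_or_gt (Real.log (2 * 2 ^ j)) (1 / 4 * Real.log Y) with hs | hs
    · -- the block is zero
      have h1 : ∀ z : ℝ, dp (2 * 2 ^ j) (bj c A j) z = 0 := by
        intro z
        unfold dp
        refine Finset.sum_eq_zero fun n hn => ?_
        have h2 : bj c A j n = 0 := by
          unfold bj
          split_ifs with h3
          · have h4 : 1 < n := by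
              have : 1 ≤ 2 ^ j := Nat.one_le_two_pow
              omega
            have h5 : Real.log n ≤ Real.log (2 * 2 ^ j) :=
              Real.log_le_log (by exact_mod_cast (by omega : 0 < n)) (by exact_mod_cast h3.2)
            rw [hc, cz_zero hG hA hE hT1 h4 (h5.trans hs) (by rw [← hL]; linarith), zero_mul]
          · rfl
        rw [h2, zero_mul]
      simp only [h1, norm_zero, Finset.sum_const_zero]
      positivity
    · have hlD : θ / 16 * L ≤ Real.log (2 ^ j) := by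
        have h1 : Real.log (2 * 2 ^ j) = Real.log 2 + Real.log (2 ^ j) := Real.log_mul (by norm_num) hDpos.ne'
        have h2 : Real.log 2 ≤ θ / 16 * L := by
          rw [hL, ← Real.log_rpow hT0]
          exact Real.log_le_log (by norm_num) hT16
        linarith
      have hD1 : (1 : ℝ) ≤ 2 ^ j := one_le_pow₀ (by norm_num)
      -- the exponent
      have hr : ∃ r : ℕ, 1 ≤ r ∧ r ≤ R ∧ ((2 : ℝ) * 2 ^ j) ^ r ≤ T ^ 3 ∧
          (((2 : ℝ) ^ j < T ∧ T ≤ ((2 : ℝ) ^ j) ^ r) ∨ (T ≤ 2 ^ j ∧ r = 1 ∧ (2 : ℝ) ^ j ≤ Q * T)) := by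
        rcases lt_or_ge ((2 : ℝ) ^ j) T with h | h
        · obtain ⟨r, h1, h2, h3, h4⟩ := choose_r hT1 hθ (by rw [← hL]; exact hlD) hD1 hR
          refine ⟨r, h1, h2, ?_, Or.inl ⟨h, h3⟩⟩
          rw [mul_pow]
          calc (2 : ℝ) ^ r * (2 ^ j) ^ r ≤ T * (2 ^ j * T) :=
                mul_le_mul ((pow_le_pow_right₀ (by norm_num) h2).trans hTR) h4 (by positivity) hT0.le
            _ ≤ T * (T * T) := by gcongr
            _ = T ^ 3 := by ring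
        · refine ⟨1, le_rfl, hR1, ?_, Or.inr ⟨h, rfl, ?_⟩⟩
          · rw [pow_one]
            refine (h2D.trans (hJ2.trans hb2)).trans ?_
            exact pow_le_pow_right₀ hT1.le (by norm_num)
          · have h5 : (2 : ℝ) * 2 ^ j ≤ 4 * T ^ (b + 2 * θ) := h2D.trans hJ2
            have h6 : T ^ (b + 2 * θ) ≤ T ^ (3 / 16 * ε) * T := by
              calc T ^ (b + 2 * θ) ≤ T ^ (3 / 16 * ε + 1) :=
                    Real.rpow_le_rpow_of_exponent_le hT1.le (by rw [hb]; linarith)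
                _ = _ := by rw [Real.rpow_add hT0, Real.rpow_one]
            rw [hQ]
            linarith
      obtain ⟨r, hr1, hrR, hr3, hrc⟩ := hr
      have hdr : ∀ n : ℕ, 1 ≤ n → n ≤ (2 * 2 ^ j) ^ r → (n.divisors.card : ℝ) ≤ Δ := by
        intro n hn hn2
        refine hd n hn (le_trans ?_ hr3)
        exact_mod_cast hn2
      have hcn : ∀ n, 2 ^ j < n → n ≤ 2 * 2 ^ j → ‖c n‖ ≤ Δ ^ 2 := by
        intro n hn hn2
        have h1 : 1 ≤ n := by omega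
        rw [hc]
        refine (cz_norm hG hA Y a b T h1).trans ?_
        refine pow_le_pow_left₀ (Nat.cast_nonneg _) (hdr n h1 (hn2.trans ?_)) 2
        exact Nat.le_self_pow (by omega) _
      have hS := hblock A Z (K * T) (K * L) Δ j r c (one_le_mul_of_one_le_of_one_le hK hT1.le) hAK hZK hdA hdZ hr1 hΔ1 hcn hdr
      have hS2 := block_num (J := J) hCk hT1.le hK (by positivity : (0 : ℝ) ≤ K * L) hM0 hQ1 hΔ1 hA0.le hr1 hrR (by omega) hwM hS hrc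
      rw [← hΞ] at hS2
      exact mean_le (fun z _ => norm_nonneg _) hr1 hrR hA0 (by positivity) (inv_le_one_of_one_le₀ (one_le_pow₀ (by linarith)))
        hΞ0 hS2
  -- the error of the approximation
  have herr : ∀ x ∈ A, ∀ z ∈ Z, ‖fm Pw Y (1 / 2 + ((x + z : ℝ) : ℂ) * I) - dp K₀ c (x + z)‖ ≤ 1 / 32 := by
    intro x hx z hz
    obtain ⟨h1, h2⟩ := hAZ x hx z hz
    have h3 := hblzT (1 / 2 + ((x + z : ℝ) : ℂ) * I) (by simp) (by simp; linarith) (by simp; linarith) N₁ hN₁1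
    have h4 := fm_approx (t := x + z) hG hA hE hY2 hT1 hN₁1 h3
    rw [hK₀, hc]
    refine h4.trans ?_
    have h5 : (Y : ℝ) ^ 2 ≤ T ^ 2 := by
      refine pow_le_pow_left₀ hY0.le (hYle.trans ?_) 2
      calc T ^ θ ≤ T ^ (1 : ℝ) := Real.rpow_le_rpow_of_exponent_le hT1.le hθ1
        _ = T := Real.rpow_one T
    calc Cb / T ^ 3 * (Y : ℝ) ^ 2 ≤ Cb / T ^ 3 * T ^ 2 := mul_le_mul_of_nonneg_left h5 (by positivity)
      _ = Cb / T := by field_simp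
      _ ≤ 1 / 32 := by
          rw [div_le_iff₀ hT0]
          linarith
  have hz : ∀ z ∈ Z, ‖∑ x ∈ A, (fm Pw Y (1 / 2 + ((x + z : ℝ) : ℂ) * I) - 1)‖ ≤
      ∑ j ∈ range J, ‖dp (2 * 2 ^ j) (bj c A j) z‖ + A.card * (1 / 32) := by
    intro z hz
    have h1 : ∑ x ∈ A, (fm Pw Y (1 / 2 + ((x + z : ℝ) : ℂ) * I) - 1) =
        ∑ x ∈ A, (dp K₀ c (x + z) - 1) + ∑ x ∈ A, (fm Pw Y (1 / 2 + ((x + z : ℝ) : ℂ) * I) - dp K₀ c (x + z)) := by
      rw [← Finset.sum_add_distrib]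
      refine Finset.sum_congr rfl fun x _ => by ring
    rw [h1, sum_blocks hJ1 hc1 hcs]
    refine (norm_add_le _ _).trans (add_le_add (norm_sum_le _ _) ?_)
    refine (norm_sum_le_of_le _ fun x hx => herr x hx z hz).trans ?_
    rw [Finset.sum_const, nsmul_eq_mul]
  refine (Finset.sum_le_sum hz).trans ?_
  rw [Finset.sum_add_distrib, Finset.sum_comm, Finset.sum_const, nsmul_eq_mul]
  refine (add_le_add_left (Finset.sum_le_sum hmain) _).trans ?_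
  rw [Finset.sum_const, Finset.card_range, nsmul_eq_mul, inv_inv]
  -- the final numbers
  have hZ0 : 0 < (Z.card : ℝ) := lt_of_lt_of_le (by positivity) hcZ
  have f1 : (J : ℝ) * (L ^ 2)⁻¹ ≤ 1 / 64 := by
    rw [mul_inv_le_iff₀ (by positivity)]
    exact aux3 hJL hL192
  have f2 : (J : ℝ) * ((L ^ 2) ^ (2 * R) * Ξ) ≤ 1 / 64 * Z.card := by
    have h1 : Ξ ≤ Ck * (3 * L * R) * (2 ^ R + K) * ((Ck * (1 + K) * (M + 1)) ^ R * T ^ (ε / 16)) * (4 * T ^ (3 / 16 * ε)) := by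
      have h2 : (Ck * Δ ^ 5 * (1 + K) * (M + 1)) ^ R = (Ck * (1 + K) * (M + 1)) ^ R * T ^ (ε / 16) := by
        have h3 : Ck * Δ ^ 5 * (1 + K) * (M + 1) = (Ck * (1 + K) * (M + 1)) * Δ ^ 5 := by ring
        rw [h3, mul_pow]
        congr 1
        rw [hΔ, ← pow_mul, ← Real.rpow_natCast, ← Real.rpow_mul hT0.le]
        congr 1
        push_cast
        linarith
      rw [hΞ, h2, hQ]
      gcongr
    have h4 : (J : ℝ) * ((L ^ 2) ^ (2 * R) * Ξ) ≤ (3 * L) * (L ^ (4 * R) *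
        (Ck * (3 * L * R) * (2 ^ R + K) * ((Ck * (1 + K) * (M + 1)) ^ R * T ^ (ε / 16)) * (4 * T ^ (3 / 16 * ε)))) := by
      have h5 : (L ^ 2) ^ (2 * R) = L ^ (4 * R) := by
        rw [← pow_mul]
        congr 1
        ring
      rw [h5]
      gcongr
    have h6 : (3 * L) * (L ^ (4 * R) * (Ck * (3 * L * R) * (2 ^ R + K) * ((Ck * (1 + K) * (M + 1)) ^ R * T ^ (ε / 16)) *
        (4 * T ^ (3 / 16 * ε)))) = B * L ^ (4 * R + 2) * T ^ (ε / 4) := by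
      have h7 : T ^ (ε / 4) = T ^ (ε / 16) * T ^ (3 / 16 * ε) := by
        rw [← Real.rpow_add hT0]
        ring_nf
      rw [hB, h7]
      ring
    rw [h6] at h4
    refine h4.trans ?_
    calc B * L ^ (4 * R + 2) * T ^ (ε / 4) ≤ B * (1 / (64 * B) * T ^ (3 / 4 * ε)) * T ^ (ε / 4) := by gcongr
      _ = 1 / 64 * (T ^ (3 / 4 * ε) * T ^ (ε / 4)) := by field_simp
      _ = 1 / 64 * T ^ ε := by
          rw [← Real.rpow_add hT0]
          ring_nf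
      _ ≤ 1 / 64 * Z.card := by linarith
  calc (J : ℝ) * ((A.card : ℝ) * ((L ^ 2)⁻¹ * (Z.card : ℝ) + (L ^ 2) ^ (2 * R) * Ξ)) + (Z.card : ℝ) * ((A.card : ℝ) * (1 / 32)) =
        (A.card : ℝ) * (((J : ℝ) * (L ^ 2)⁻¹) * (Z.card : ℝ) + (J : ℝ) * ((L ^ 2) ^ (2 * R) * Ξ) + 1 / 32 * (Z.card : ℝ)) := by ring
    _ ≤ (A.card : ℝ) * (1 / 64 * (Z.card : ℝ) + 1 / 64 * (Z.card : ℝ) + 1 / 32 * (Z.card : ℝ)) := by gcongr
    _ ≤ 1 / 8 * ((A.card : ℝ) * (Z.card : ℝ)) := by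
        have hAZ0 : 0 ≤ (A.card : ℝ) * (Z.card : ℝ) := by positivity
        linarith

end

end Pool.Agent.V8H7.SM
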