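import Pool.Agent.Q277.UM.Sup
import Pool.Agent.Q97.UM.Stm4

/-! Sums over sparse sets of points of the mean of `|F|^2` over small boxes. -/

set_option autoImplicit false

open MeasureTheory Complex Filter Topology Set

namespace Pool.Agent.V8H7.SM

open Pool.Agent.Q277.UM.Sup (kk kk_cont kk_nonneg kk_eq hh hh_meas submean)

noncomputable section

theorem shift_lint (g : ℝ → ENNReal) (w t : ℝ) :
    ∫⁻ y in Icc (-w) w, g (t + y) = ∫⁻ u in Icc (t - w) (t + w), g u := by
  rw [← lintegral_indicator measurableSet_Icc, ← lintegral_indicator measurableSet_Icc,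
    ← lintegral_add_left_eq_self ((Icc (t - w) (t + w)).indicator fun u => g u) t]
  congr 1
  ext y
  by_cases h : y ∈ Icc (-w) w
  · have h2 : t + y ∈ Icc (t - w) (t + w) := ⟨by linarith [h.1], by linarith [h.2]⟩
    rw [indicator_of_mem h, indicator_of_mem h2]
  · have h2 : t + y ∉ Icc (t - w) (t + w) := fun h3 => h ⟨by linarith [h3.1], by linarith [h3.2]⟩
    rw [indicator_of_notMem h, indicator_of_notMem h2]

theorem hh_eq {f : ℂ → ℂ} (hf : DifferentiableOn ℂ f {s : ℂ | s ≠ 1}) (a b w t : ℝ) :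
    hh f (Icc a b ×ˢ Icc (-w) w) t =
      ∫⁻ x in Icc a b, ∫⁻ u in Icc (t - w) (t + w), ENNReal.ofReal (kk f (x, u)) := by
  have hk := kk_cont hf
  unfold hh
  rw [Measure.volume_eq_prod, ← Measure.prod_restrict, lintegral_prod]
  · refine lintegral_congr fun x => ?_
    exact shift_lint (fun u => ENNReal.ofReal (kk f (x, u))) w t
  · apply Measurable.aemeasurable
    apply Measurable.ennreal_ofReal
    apply Continuous.measurable
    exact hk.comp (by fun_prop)

/-- the integral over a long vertical segment -/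
theorem long {F : ℂ → ℂ} (hF : DifferentiableOn ℂ F {s : ℂ | s ≠ 1}) {T C w : ℝ} (hT : 100 ≤ T) (hC : 0 ≤ C) (hw1 : w ≤ 1 / 4)
    (hwL : w * Real.log T ≤ 2)
    (hms : ∀ σ y : ℝ, 1 / 4 ≤ σ → σ ≤ 3 → |y| ≤ T / 8 →
      ∫ t in T..(2 * T), ‖F (σ + (t + y : ℝ) * I)‖ ^ 2 ≤ C * T * Real.exp (4 * |σ - 1 / 2| * Real.log T))
    {σ : ℝ} (hσ : |σ - 1 / 2| ≤ w) :
    ∫⁻ u in Icc (T - w) (2 * T + w), ENNReal.ofReal (kk (fun s => F s + 1) (σ, u)) ≤
      ENNReal.ofReal (2 * (C * T * Real.exp 8)) := by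
  have hf : DifferentiableOn ℂ (fun s => F s + 1) {s : ℂ | s ≠ 1} := hF.add_const 1
  have hk := kk_cont hf
  have hσ' := abs_le.1 hσ
  have hw0 : 0 ≤ w := (abs_nonneg _).trans hσ
  have hL0 : 0 < Real.log T := Real.log_pos (by linarith)
  have hT0 : 0 < T := by linarith
  -- one piece
  have piece : ∀ y : ℝ, |y| ≤ T / 8 → ∫⁻ u in Icc (T + y) (2 * T + y), ENNReal.ofReal (kk (fun s => F s + 1) (σ, u)) ≤
      ENNReal.ofReal (C * T * Real.exp 8) := by
    intro y hy
    have hy' := abs_le.1 hy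
    have hc : Continuous (fun u : ℝ => kk (fun s => F s + 1) (σ, u)) := hk.comp (by fun_prop)
    rw [← ofReal_integral_eq_lintegral_ofReal hc.integrableOn_Icc (Eventually.of_forall fun u => kk_nonneg _ _)]
    apply ENNReal.ofReal_le_ofReal
    rw [integral_Icc_eq_integral_Ioc, ← intervalIntegral.integral_of_le (by linarith)]
    have h1 : ∫ u in (T + y)..(2 * T + y), kk (fun s => F s + 1) (σ, u) =
        ∫ t in T..(2 * T), kk (fun s => F s + 1) (σ, t + y) :=
      (intervalIntegral.integral_comp_add_right (fun u => kk (fun s => F s + 1) (σ, u)) y).symm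
    rw [h1]
    have h2 : ∫ t in T..(2 * T), kk (fun s => F s + 1) (σ, t + y) = ∫ t in T..(2 * T), ‖F (σ + (t + y : ℝ) * I)‖ ^ 2 := by
      refine intervalIntegral.integral_congr fun t ht => ?_
      rw [uIcc_of_le (by linarith)] at ht
      rw [kk_eq _ (by linarith [ht.1]), add_sub_cancel_right]
    rw [h2]
    refine (hms σ y (by linarith) (by linarith) hy).trans ?_
    have h3 : 4 * |σ - 1 / 2| * Real.log T ≤ 8 := by nlinarith
    gcongr
  have hsub : Icc (T - w) (2 * T + w) ⊆ Icc (T + -(T / 8)) (2 * T + -(T / 8)) ∪ Icc (T + T / 8) (2 * T + T / 8) := by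
    intro u hu
    rcases le_or_gt u (3 / 2 * T) with h | h
    · left
      exact ⟨by linarith [hu.1], by linarith⟩
    · right
      exact ⟨by linarith, by linarith [hu.2]⟩
  have h1 := piece (-(T / 8)) (by rw [abs_neg, abs_of_pos (by positivity)])
  have h2 := piece (T / 8) (by rw [abs_of_pos (by positivity)])
  calc ∫⁻ u in Icc (T - w) (2 * T + w), ENNReal.ofReal (kk (fun s => F s + 1) (σ, u)) ≤
        ∫⁻ u in Icc (T + -(T / 8)) (2 * T + -(T / 8)) ∪ Icc (T + T / 8) (2 * T + T / 8), ENNReal.ofReal (kk (fun s => F s + 1) (σ, u)) :=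
        lintegral_mono_set hsub
    _ ≤ _ := lintegral_union_le _ _ _
    _ ≤ ENNReal.ofReal (C * T * Real.exp 8) + ENNReal.ofReal (C * T * Real.exp 8) := add_le_add h1 h2
    _ = ENNReal.ofReal (2 * (C * T * Real.exp 8)) := by
        rw [← ENNReal.ofReal_add (by positivity) (by positivity)]
        congr 1
        ring

theorem sum_hh {F : ℂ → ℂ} (hF : DifferentiableOn ℂ F {s : ℂ | s ≠ 1}) {T C w : ℝ} (hT : 100 ≤ T) (hC : 0 ≤ C) (hw0 : 0 ≤ w) (hw1 : w ≤ 1 / 4)
    (hwL : w * Real.log T ≤ 2)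
    (hms : ∀ σ y : ℝ, 1 / 4 ≤ σ → σ ≤ 3 → |y| ≤ T / 8 →
      ∫ t in T..(2 * T), ‖F (σ + (t + y : ℝ) * I)‖ ^ 2 ≤ C * T * Real.exp (4 * |σ - 1 / 2| * Real.log T))
    (S : Finset ℝ) (hS : ∀ t ∈ S, T ≤ t ∧ t ≤ 2 * T) (m : ℕ)
    (hm : ∀ u : ℝ, (S.filter (fun t => |u - t| ≤ w)).card ≤ m) :
    ∑ t ∈ S, hh (fun s => F s + 1) (Icc (1 / 2 - w) (1 / 2 + w) ×ˢ Icc (-w) w) t ≤
      ENNReal.ofReal (m * (2 * (C * T * Real.exp 8)) * (2 * w)) := by
  have hf : DifferentiableOn ℂ (fun s => F s + 1) {s : ℂ | s ≠ 1} := hF.add_const 1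
  have hk := kk_cont hf
  have hT0 : 0 < T := by linarith
  have hmeas : ∀ t : ℝ, Measurable fun x : ℝ => ∫⁻ u in Icc (t - w) (t + w), ENNReal.ofReal (kk (fun s => F s + 1) (x, u)) := by
    intro t
    have h1 : Measurable (fun q : ℝ × ℝ => ENNReal.ofReal (kk (fun s => F s + 1) (q.1, q.2))) := by
      apply Measurable.ennreal_ofReal
      apply Continuous.measurable
      exact hk.comp (by fun_prop)
    exact h1.lintegral_prod_right'
  have hmeas2 : ∀ x : ℝ, Measurable fun u : ℝ => ENNReal.ofReal (kk (fun s => F s + 1) (x, u)) := by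
    intro x
    apply Measurable.ennreal_ofReal
    apply Continuous.measurable
    exact hk.comp (by fun_prop)
  have e1 : ∑ t ∈ S, hh (fun s => F s + 1) (Icc (1 / 2 - w) (1 / 2 + w) ×ˢ Icc (-w) w) t =
      ∫⁻ x in Icc (1 / 2 - w) (1 / 2 + w), ∑ t ∈ S, ∫⁻ u in Icc (t - w) (t + w), ENNReal.ofReal (kk (fun s => F s + 1) (x, u)) := by
    rw [lintegral_finsetSum _ fun t _ => hmeas t]
    exact Finset.sum_congr rfl fun t _ => hh_eq hf _ _ w t
  rw [e1]
  have e2 : ∀ x ∈ Icc (1 / 2 - w) (1 / 2 + w), ∑ t ∈ S, ∫⁻ u in Icc (t - w) (t + w), ENNReal.ofReal (kk (fun s => F s + 1) (x, u)) ≤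
      ENNReal.ofReal (m * (2 * (C * T * Real.exp 8))) := by
    intro x hx
    have hx' : |x - 1 / 2| ≤ w := by
      rw [abs_le]
      exact ⟨by linarith [hx.1], by linarith [hx.2]⟩
    have h3 := long hF hT hC hw1 hwL hms hx'
    have h4 : ∑ t ∈ S, ∫⁻ u in Icc (t - w) (t + w), ENNReal.ofReal (kk (fun s => F s + 1) (x, u)) =
        ∫⁻ u, ∑ t ∈ S, (Icc (t - w) (t + w)).indicator (fun u => ENNReal.ofReal (kk (fun s => F s + 1) (x, u))) u := by
      rw [lintegral_finsetSum _ fun t _ => (hmeas2 x).indicator measurableSet_Icc]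
      exact Finset.sum_congr rfl fun t _ => (lintegral_indicator measurableSet_Icc _).symm
    rw [h4]
    have h5 : ∀ u : ℝ, ∑ t ∈ S, (Icc (t - w) (t + w)).indicator (fun u => ENNReal.ofReal (kk (fun s => F s + 1) (x, u))) u ≤
        (m : ENNReal) * (Icc (T - w) (2 * T + w)).indicator (fun u => ENNReal.ofReal (kk (fun s => F s + 1) (x, u))) u := by
      intro u
      have h6 : ∑ t ∈ S, (Icc (t - w) (t + w)).indicator (fun u => ENNReal.ofReal (kk (fun s => F s + 1) (x, u))) u =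
          ∑ t ∈ S.filter (fun t => |u - t| ≤ w), ENNReal.ofReal (kk (fun s => F s + 1) (x, u)) := by
        rw [Finset.sum_filter]
        refine Finset.sum_congr rfl fun t _ => ?_
        by_cases h7 : |u - t| ≤ w
        · rw [if_pos h7, indicator_of_mem]
          rw [abs_le] at h7
          exact ⟨by linarith [h7.1], by linarith [h7.2]⟩
        · rw [if_neg h7, indicator_of_notMem]
          intro h8
          apply h7
          rw [abs_le]
          exact ⟨by linarith [h8.1], by linarith [h8.2]⟩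
      rw [h6, Finset.sum_const, nsmul_eq_mul]
      by_cases h9 : u ∈ Icc (T - w) (2 * T + w)
      · rw [indicator_of_mem h9]
        have : ((S.filter (fun t => |u - t| ≤ w)).card : ENNReal) ≤ (m : ENNReal) := by exact_mod_cast hm u
        gcongr
      · have h10 : S.filter (fun t => |u - t| ≤ w) = ∅ := by
          rw [Finset.filter_eq_empty_iff]
          intro t ht h11
          apply h9
          rw [abs_le] at h11
          have := hS t ht
          exact ⟨by linarith [h11.1], by linarith [h11.2]⟩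
        rw [h10]
        simp
    refine (lintegral_mono h5).trans ?_
    rw [lintegral_const_mul' _ _ (ENNReal.natCast_ne_top m), lintegral_indicator measurableSet_Icc,
      ENNReal.ofReal_mul (Nat.cast_nonneg m), ENNReal.ofReal_natCast]
    gcongr
  refine (setLIntegral_mono' measurableSet_Icc e2).trans ?_
  rw [lintegral_const, Measure.restrict_apply_univ, Real.volume_Icc, ← ENNReal.ofReal_mul (by positivity)]
  apply le_of_eq
  congr 1
  ring

/-- the local mean as a real number -/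
def gl (F : ℂ → ℂ) (w t : ℝ) : ℝ := (4 / (Real.pi * w ^ 2)) * (hh (fun s => F s + 1) (Icc (1 / 2 - w) (1 / 2 + w) ×ˢ Icc (-w) w) t).toReal

theorem gl_nonneg (F : ℂ → ℂ) (w t : ℝ) : 0 ≤ gl F w t := by
  unfold gl
  have := Real.pi_pos
  positivity

/-- the local means: sum over a sparse set, and bound for `F` -/
theorem local_means {F : ℂ → ℂ} (hF : DifferentiableOn ℂ F {s : ℂ | s ≠ 1}) {T C w : ℝ} (hT : 100 ≤ T) (hC : 0 ≤ C) (hw : 0 < w) (hw1 : w ≤ 1 / 4)
    (hwL : w * Real.log T ≤ 2)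
    (hms : ∀ σ y : ℝ, 1 / 4 ≤ σ → σ ≤ 3 → |y| ≤ T / 8 →
      ∫ t in T..(2 * T), ‖F (σ + (t + y : ℝ) * I)‖ ^ 2 ≤ C * T * Real.exp (4 * |σ - 1 / 2| * Real.log T))
    (S : Finset ℝ) (hS : ∀ t ∈ S, T ≤ t ∧ t ≤ 2 * T) (m : ℕ)
    (hm : ∀ u : ℝ, (S.filter (fun t => |u - t| ≤ w)).card ≤ m) :
    (∑ t ∈ S, gl F w t ≤ 16 * Real.exp 8 / Real.pi * (C * m * T / w)) ∧
    ∀ t ∈ S, ∀ s : ℂ, ‖s - (1 / 2 + t * I)‖ ≤ w / 2 → ‖F s‖ ^ 2 ≤ gl F w t := by
  have hπ := Real.pi_pos
  have hT0 : 0 < T := by linarith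
  have h1 := sum_hh hF hT hC hw.le hw1 hwL hms S hS m hm
  have hne : ∀ t ∈ S, hh (fun s => F s + 1) (Icc (1 / 2 - w) (1 / 2 + w) ×ˢ Icc (-w) w) t ≠ ⊤ := by
    intro t ht
    have h2 : hh (fun s => F s + 1) (Icc (1 / 2 - w) (1 / 2 + w) ×ˢ Icc (-w) w) t ≤
        ENNReal.ofReal (m * (2 * (C * T * Real.exp 8)) * (2 * w)) :=
      (Finset.single_le_sum (f := fun t => hh (fun s => F s + 1) (Icc (1 / 2 - w) (1 / 2 + w) ×ˢ Icc (-w) w) t)
        (fun _ _ => bot_le) ht).trans h1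
    exact ne_top_of_le_ne_top ENNReal.ofReal_ne_top h2
  constructor
  · unfold gl
    rw [← Finset.mul_sum]
    have h3 : ∑ t ∈ S, (hh (fun s => F s + 1) (Icc (1 / 2 - w) (1 / 2 + w) ×ˢ Icc (-w) w) t).toReal ≤
        m * (2 * (C * T * Real.exp 8)) * (2 * w) := by
      rw [← ENNReal.toReal_sum hne]
      refine (ENNReal.toReal_mono ENNReal.ofReal_ne_top h1).trans (le_of_eq ?_)
      exact ENNReal.toReal_ofReal (by positivity)
    calc 4 / (Real.pi * w ^ 2) * ∑ t ∈ S, (hh (fun s => F s + 1) (Icc (1 / 2 - w) (1 / 2 + w) ×ˢ Icc (-w) w) t).toReal ≤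
          4 / (Real.pi * w ^ 2) * (m * (2 * (C * T * Real.exp 8)) * (2 * w)) := mul_le_mul_of_nonneg_left h3 (by positivity)
      _ = _ := by field_simp; ring
  · intro t ht s hs
    have hf : DifferentiableOn ℂ (fun s => F s + 1) {s : ℂ | s ≠ 1} := hF.add_const 1
    have h2 := (hS t ht).1
    have hre : |s.re - 1 / 2| ≤ w / 2 := by
      have h3 := (Complex.abs_re_le_norm (s - (1 / 2 + t * I))).trans hs
      simp at h3
      rw [one_div]
      exact h3
    have him : |s.im - t| ≤ w / 2 := by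
      have h3 := (Complex.abs_im_le_norm (s - (1 / 2 + t * I))).trans hs
      simp at h3
      exact h3
    rw [abs_le] at hre
    have h4 := submean hf (a := 1 / 2 - w) (b := 1 / 2 + w) (w := w) (r := w / 2) (t := t) (s := s) (by positivity) (by linarith)
      (by linarith) (by linarith [hre.1]) (by linarith [hre.2]) (by linarith)
    simp only [add_sub_cancel_right] at h4
    have h5 : Real.pi * (w / 2) ^ 2 * ‖F s‖ ^ 2 ≤
        (hh (fun s => F s + 1) (Icc (1 / 2 - w) (1 / 2 + w) ×ˢ Icc (-w) w) t).toReal := by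
      rw [← ENNReal.toReal_ofReal (by positivity : 0 ≤ Real.pi * (w / 2) ^ 2 * ‖F s‖ ^ 2)]
      exact ENNReal.toReal_mono (hne t ht) h4
    unfold gl
    calc ‖F s‖ ^ 2 = 4 / (Real.pi * w ^ 2) * (Real.pi * (w / 2) ^ 2 * ‖F s‖ ^ 2) := by field_simp; norm_num
      _ ≤ _ := mul_le_mul_of_nonneg_left h5 (by positivity)

end

end Pool.Agent.V8H7.SM
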