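import Pool.Agent.Q97.UM.Base2

set_option autoImplicit false

/-! The mollified second moment for every small mollifier: `θ` may be chosen as small as one likes
(the starting file `Pool/Agent/Q175/UM/R2K.lean` gives it for one `θ`). -/

namespace Pool.Agent.V8H7.SM

open Filter Topology MeasureTheory Complex
open Pool.Agent.Q97.UM
open Pool.Agent.Q175.UM (et_til_norm et_til_supp eta_til_norm smallK largeK)
open Pool.Agent.Q84.UM (cv_supp cv_norm coeff_le dp_shift dp_mul N2_shift N2_nonneg norm_dp_le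
  zt_cont zt_norm integrand_cont dp_cont t_MVL)

noncomputable section

/-- the twisted second moment with given constants -/
def TSat (θ C : ℝ) : Prop := ∀ᶠ T : ℝ in atTop, ∀ M : ℕ, (M : ℝ) ≤ T ^ θ → ∀ (c : ℕ → ℂ) (lam : ℝ),
  (∀ n, ‖c n‖ ≤ lam) →
  ∫ t in (T / 2)..(3 * T), ‖riemannZeta (1 / 2 + t * I)‖ ^ 2 * ‖∑ n ∈ Finset.Icc 1 M, c n * (n : ℂ) ^ (-(1 / 2 + t * I))‖ ^ 2 ≤
    C * T * (Real.log T * (QF M c).re + T ^ (-θ) * lam ^ 2)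

theorem TSat_mono {θ C θ' : ℝ} (hC : 1 ≤ C) (h : TSat θ C) (h2 : θ' ≤ θ) : TSat θ' C := by
  unfold TSat at *
  filter_upwards [h, eventually_ge_atTop 1] with T hT hT1 M hM c lam hc
  have h0 : 0 < T := by linarith
  refine (hT M (hM.trans (Real.rpow_le_rpow_of_exponent_le hT1 h2)) c lam hc).trans ?_
  have h3 : T ^ (-θ) ≤ T ^ (-θ') := Real.rpow_le_rpow_of_exponent_le hT1 (by linarith)
  gcongr

theorem r2k_at {Pw q : ℝ → ℝ} {c₀ C₀ D ϑ C : ℝ} (hG : Gev Pw q c₀ C₀) (hD : 0 ≤ D)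
    (hM : ∀ κ : ℝ, Moll (til Pw κ) (D * Real.exp (4 * |κ|))) (hϑ : 0 < ϑ) (hϑ4 : ϑ ≤ 1 / 4) (hC : 1 ≤ C) (hev : TSat ϑ C)
    (hA : S_AL) : R2K Pw (ϑ / 20) (max (C * 2 * (80 * D / ϑ + 1)) (16 * 180 ^ 2 * 33 ^ 4)) := by
  unfold TSat at hev
  obtain ⟨T₁, hT₁⟩ := eventually_atTop.1 hev
  have hinf : Tendsto (fun T : ℝ => T ^ (ϑ / 20)) atTop atTop := tendsto_rpow_atTop (by positivity)
  unfold R2K
  filter_upwards [eventually_ge_atTop (4 * T₁), eventually_ge_atTop 64,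
    hinf.eventually_ge_atTop 4] with T hT1 hT2 hT3
  intro N hN b κ y
  have hT0 : 0 < T := by linarith
  have hx1 := hN
  have h4ϑ : (4 : ℝ) ^ ϑ ≤ T ^ (ϑ / 2) := by
    have h1 : (4 : ℝ) ≤ T ^ (1 / 2 : ℝ) := by
      have h2 : (4 : ℝ) = (16 : ℝ) ^ (1 / 2 : ℝ) := by
        rw [← Real.sqrt_eq_rpow, show (16 : ℝ) = 4 ^ 2 by norm_num,
          Real.sqrt_sq (by norm_num)]
      rw [h2]
      exact Real.rpow_le_rpow (by norm_num) (by linarith) (by norm_num)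
    calc (4 : ℝ) ^ ϑ ≤ (T ^ (1 / 2 : ℝ)) ^ ϑ := Real.rpow_le_rpow (by norm_num) h1 hϑ.le
      _ = T ^ (ϑ / 2) := by rw [← Real.rpow_mul hT0.le]; congr 1; ring
  obtain ⟨Y, hYdef⟩ : ∃ Y : ℕ, Y = ⌊T ^ (ϑ / 20)⌋₊ := ⟨_, rfl⟩
  rw [← hYdef]
  have hY2 : (Y : ℝ) ≤ T ^ (ϑ / 20) := by rw [hYdef]; exact Nat.floor_le (by positivity)
  have hY : 2 ≤ Y := by rw [hYdef]; exact Nat.le_floor (by push_cast; linarith)
  have hNY : N ≤ Y := by rw [hYdef]; exact Nat.le_floor hN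
  have hY3 : ϑ / 40 * Real.log T ≤ Real.log Y := by
    have h1 : Real.sqrt (T ^ (ϑ / 20)) ≤ (Y : ℕ) := by
      have h2 : T ^ (ϑ / 20) < (Y : ℕ) + 1 := by rw [hYdef]; exact Nat.lt_floor_add_one _
      have h3 : Real.sqrt (T ^ (ϑ / 20)) ≤ T ^ (ϑ / 20) / 2 := by
        rw [Real.sqrt_le_left (by linarith)]
        nlinarith
      linarith
    have h2 : Real.log (Real.sqrt (T ^ (ϑ / 20))) = ϑ / 40 * Real.log T := by
      rw [Real.log_sqrt (by linarith), Real.log_rpow hT0]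
      ring
    rw [← h2]
    exact Real.log_le_log (Real.sqrt_pos.2 (by linarith)) h1
  have hhalf : T ^ (1 / 2 : ℝ) ≤ T / 4 := by
    rw [← Real.sqrt_eq_rpow, Real.sqrt_le_left (by linarith)]
    nlinarith
  have hY5 : (Y : ℝ) ^ 5 ≤ (T / 4) ^ ϑ := by
    rw [Real.div_rpow hT0.le (by norm_num), le_div_iff₀ (by positivity)]
    calc (Y : ℝ) ^ 5 * 4 ^ ϑ ≤ (T ^ (ϑ / 20)) ^ 5 * T ^ (ϑ / 2) :=
          mul_le_mul (pow_le_pow_left₀ (Nat.cast_nonneg Y) hY2 5) h4ϑ (by positivity) (by positivity)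
      _ = T ^ (ϑ / 20 * 5 + ϑ / 2) := by
          rw [← Real.rpow_natCast, ← Real.rpow_mul hT0.le, ← Real.rpow_add hT0]
          norm_num
      _ ≤ T ^ ϑ := Real.rpow_le_rpow_of_exponent_le (by linarith) (by linarith)
  have hY4 : (Y : ℝ) ^ 4 ≤ T / 4 := by
    calc (Y : ℝ) ^ 4 ≤ (T ^ (ϑ / 20)) ^ 4 := pow_le_pow_left₀ (Nat.cast_nonneg Y) hY2 4
      _ = T ^ (ϑ / 20 * 4) := by rw [← Real.rpow_natCast, ← Real.rpow_mul hT0.le]; norm_num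
      _ ≤ T ^ (1 / 2 : ℝ) := Real.rpow_le_rpow_of_exponent_le (by linarith) (by linarith)
      _ ≤ T / 4 := hhalf
  have hN4 : (N : ℝ) ≤ (T / 4) ^ (1 / 4 : ℝ) := by
    calc (N : ℝ) ≤ T ^ (ϑ / 20) := hN
      _ ≤ T ^ (1 / 2 * (1 / 4) : ℝ) := Real.rpow_le_rpow_of_exponent_le (by linarith) (by linarith)
      _ = (T ^ (1 / 2 : ℝ)) ^ (1 / 4 : ℝ) := by rw [Real.rpow_mul hT0.le]
      _ ≤ (T / 4) ^ (1 / 4 : ℝ) := Real.rpow_le_rpow (by positivity) hhalf (by norm_num)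
  -- reduction to supported coefficients
  obtain ⟨b₀, hb₀⟩ : ∃ b₀ : ℕ → ℂ, b₀ = fun n => if 1 ≤ n ∧ n ≤ N then b n else 0 := ⟨_, rfl⟩
  have hb₀s : ∀ n, b₀ n ≠ 0 → 1 ≤ n ∧ n ≤ N := by
    intro n hn
    by_contra h
    apply hn
    rw [hb₀]
    simp only [if_neg h]
  have hb₀e : ∀ n ∈ Finset.Icc 1 N, b₀ n = b n := by
    intro n hn
    rw [hb₀]
    simp only [if_pos (Finset.mem_Icc.1 hn)]
  have hdp : ∀ t, dp N b t = dp N b₀ t := by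
    intro t
    unfold dp
    refine Finset.sum_congr rfl fun n hn => ?_
    rw [hb₀e n hn]
  have hN2 : N2 N b = N2 N b₀ := by
    unfold N2
    refine Finset.sum_congr rfl fun n hn => ?_
    rw [hb₀e n hn]
  have hn0 := N2_nonneg N b₀
  simp only [hdp, hN2]
  have he1 : ∀ n, ‖et (til Pw κ) Y n‖ ≤ Real.exp |κ| := fun n => et_til_norm hG hA κ Y n
  have he2 : ∀ n, Y < n → et (til Pw κ) Y n = 0 := fun n hn => et_til_supp hG κ hY n hn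
  have hexp4 : Real.exp |κ| ^ 4 = Real.exp (4 * |κ|) := by
    rw [← Real.exp_nat_mul]; norm_num
  have hmax1 : C * 2 * (80 * D / ϑ + 1) ≤
      max (C * 2 * (80 * D / ϑ + 1)) (16 * 180 ^ 2 * 33 ^ 4) := le_max_left _ _
  have hmax2 : (16 * 180 ^ 2 * 33 ^ 4 : ℝ) ≤
      max (C * 2 * (80 * D / ϑ + 1)) (16 * 180 ^ 2 * 33 ^ 4) := le_max_right _ _
  have hmax0 : 0 ≤ max (C * 2 * (80 * D / ϑ + 1)) (16 * 180 ^ 2 * 33 ^ 4) := by positivity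
  generalize max (C * 2 * (80 * D / ϑ + 1)) (16 * 180 ^ 2 * 33 ^ 4) = A at hmax1 hmax2 hmax0
  have hTN : 0 ≤ Real.exp (4 * |κ|) * T * N2 N b₀ := by positivity
  have hsm : |y| ≤ T / 8 → ∫ t in (T / 4)..(4 * T), ‖dp N b₀ t‖ ^ 2 *
      (‖zt (t + y)‖ * ‖eta (til Pw κ) Y (t + y)‖ ^ 2) ^ 2 ≤
      A * Real.exp (4 * |κ|) * T * N2 N b₀ := by
    intro hy
    have h1 := smallK (β := Real.exp |κ|) (hM κ) (by positivity) hC hϑ hT2 (Real.exp_pos _).le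
      (fun T' hT' => hT₁ T' (by linarith)) hY hY5 hY3 he1 he2 hNY b₀ hb₀s y hy
    refine h1.trans ?_
    rw [hexp4]
    calc C * 2 * (80 * (D * Real.exp (4 * |κ|)) / ϑ + Real.exp (4 * |κ|)) * T * N2 N b₀ =
          (C * 2 * (80 * D / ϑ + 1)) * (Real.exp (4 * |κ|) * T * N2 N b₀) := by ring
      _ ≤ A * (Real.exp (4 * |κ|) * T * N2 N b₀) := mul_le_mul_of_nonneg_right hmax1 hTN
      _ = A * Real.exp (4 * |κ|) * T * N2 N b₀ := by ring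
  refine ⟨hsm, ?_⟩
  have h6 : (1 : ℝ) ≤ (1 + |y|) ^ 6 := one_le_pow₀ (by linarith [abs_nonneg y])
  rcases le_or_gt |y| (T / 8) with hy | hy
  · refine (hsm hy).trans ?_
    calc A * Real.exp (4 * |κ|) * T * N2 N b₀ = (A * (Real.exp (4 * |κ|) * T * N2 N b₀)) * 1 := by
          ring
      _ ≤ (A * (Real.exp (4 * |κ|) * T * N2 N b₀)) * (1 + |y|) ^ 6 :=
          mul_le_mul_of_nonneg_left h6 (mul_nonneg hmax0 hTN)
      _ = A * Real.exp (4 * |κ|) * T * (1 + |y|) ^ 6 * N2 N b₀ := by ring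
  · have h1 := largeK (W := til Pw κ) (β := Real.exp |κ|) hT2 hY4 hN4
      (eta_til_norm hG hA κ Y) b₀ y hy
    refine h1.trans ?_
    rw [hexp4]
    calc 16 * 180 ^ 2 * 33 ^ 4 * Real.exp (4 * |κ|) * T * (1 + |y|) ^ 6 * N2 N b₀ =
          (16 * 180 ^ 2 * 33 ^ 4) * ((Real.exp (4 * |κ|) * T * N2 N b₀) * (1 + |y|) ^ 6) := by ring
      _ ≤ A * ((Real.exp (4 * |κ|) * T * N2 N b₀) * (1 + |y|) ^ 6) :=
          mul_le_mul_of_nonneg_right hmax2 (by positivity)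
      _ = A * Real.exp (4 * |κ|) * T * (1 + |y|) ^ 6 * N2 N b₀ := by ring


/-- all inputs, for every small `θ` -/
theorem inputs : ∃ (Pw q : ℝ → ℝ) (c₀ C₀ θ₀ : ℝ), Gev Pw q c₀ C₀ ∧ 0 < θ₀ ∧ θ₀ ≤ 1 / 80 ∧
    ∀ θ : ℝ, 0 < θ → θ ≤ θ₀ → ∃ C : ℝ, 0 ≤ C ∧ ∀ᶠ T : ℝ in atTop, ∀ σ y : ℝ, 1 / 4 ≤ σ → σ ≤ 3 → |y| ≤ T / 8 →
      ∫ t in T..(2 * T), ‖fm Pw ⌊T ^ θ⌋₊ (σ + (t + y : ℝ) * I)‖ ^ 2 ≤ C * T * Real.exp (4 * |σ - 1 / 2| * Real.log T) := by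
  obtain ⟨P, q, c₀, C₀, hG, hW⟩ := Pool.Agent.Q175.UM.t_GEV2
  obtain ⟨D, hD, hM⟩ := b_MOLL2 c₀ hG.cpos
  have hMo : ∀ κ : ℝ, Moll (til P κ) (D * C₀ ^ 4 * Real.exp (4 * |κ|)) := by
    intro κ
    obtain ⟨qκ, hq⟩ := hW κ
    have h := hM _ _ _ hq
    have e : D * (C₀ * Real.exp |κ|) ^ 4 = D * C₀ ^ 4 * Real.exp (4 * |κ|) := by
      rw [mul_pow, ← Real.exp_nat_mul]
      push_cast
      ring
    rw [e] at h
    exact h
  obtain ⟨ϑ, C, hϑ, hϑ4, hC, hTS⟩ := b_TS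
  refine ⟨P, q, c₀, C₀, ϑ / 20, hG, by positivity, by linarith, ?_⟩
  intro θ hθ hθ1
  have h1 : TSat (20 * θ) C := TSat_mono hC hTS (by linarith)
  have h2 := r2k_at (D := D * C₀ ^ 4) hG (by positivity) hMo (by linarith : 0 < 20 * θ) (by linarith) hC h1 Pool.Agent.Q208.UM.t_AL
  rw [show 20 * θ / 20 = θ by ring] at h2
  obtain ⟨C₁, hC₁, h3⟩ := Pool.Agent.Q16.UM.ms P q c₀ C₀ θ _ hG hθ (by linarith) (by positivity) h2 Pool.Agent.Q208.UM.t_AL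
    Pool.Agent.Q84.UM.t_DPM Pool.Agent.Q84.UM.t_MVL Pool.Agent.Q277.UM.TL.t_TL Pool.Agent.Q16.UM.cvb
    Pool.Agent.Q277.UM.t_FE
  refine ⟨C₁, hC₁, ?_⟩
  filter_upwards [h3, eventually_ge_atTop 1] with T hT hT1 σ y h4 h5 h6
  have h7 := hT 1 (by rw [Nat.cast_one]; exact Real.one_le_rpow hT1 (by positivity)) (fun _ => 1) σ y h4 h5 h6
  have h8 : ∀ t : ℝ, dp 1 (fun _ => 1) t = 1 := by
    intro t
    unfold dp
    simp
  have h9 : N2 1 (fun _ => 1) = 1 := by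
    unfold N2
    simp
  simp only [h8, h9, norm_one, one_pow, one_mul, mul_one] at h7
  exact h7

end

end Pool.Agent.V8H7.SM
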