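import Pool.Agent.V8H7.SM.FC
import Pool.Agent.V8H7.SM.FD
import Pool.Agent.V8H7.SM.R2S

/-! The core: sums `x + z` in a dyadic interval. -/

set_option autoImplicit false

open MeasureTheory Complex Filter Topology

namespace Pool.Agent.V8H7.SM

open Pool.Agent.H452R4.LI (dens)
open Pool.Agent.Q97.UM (Gev fm dq et)

noncomputable section

/-- no zero of zeta within `r` of the point `1/2 + it` -/
def Free (r t : ℝ) : Prop := ∀ ρ : ℂ, riemannZeta ρ = 0 → r ≤ ‖ρ - (1 / 2 + t * I)‖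

/-- many points with a value which is not small and a local mean which is not large -/
theorem many {A : Finset ℝ} {f g : ℝ → ℝ} {M : ℝ} (hM : 0 ≤ M) (hf0 : ∀ x ∈ A, 0 ≤ f x) (hfg : ∀ x ∈ A, f x ^ 2 ≤ g x)
    (h1 : 7 / 8 * (A.card : ℝ) ≤ ∑ x ∈ A, f x) (h2 : ∑ x ∈ A, g x ≤ M * A.card) :
    3 / (32 * (M + 1)) * A.card ≤ ((A.filter (fun x => 1 / 4 ≤ f x ∧ g x ≤ (4 * (M + 1)) ^ 2)).card : ℝ) := by
  obtain ⟨B, hB⟩ : ∃ B, B = 4 * (M + 1) := ⟨_, rfl⟩
  have hB0 : 4 ≤ B := by rw [hB]; linarith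
  rw [← hB]
  have key : ∀ x ∈ A, f x ≤ 1 / 4 + g x / B + (if 1 / 4 ≤ f x ∧ g x ≤ B ^ 2 then B else 0) := by
    intro x hx
    have hf := hf0 x hx
    have hg : 0 ≤ g x := (sq_nonneg _).trans (hfg x hx)
    have hgB : 0 ≤ g x / B := by positivity
    split_ifs with h
    · have : f x ≤ B := abs_le_of_sq_le_sq' ((hfg x hx).trans h.2) (by linarith) |>.2
      linarith
    · rw [not_and_or, not_le, not_le] at h
      rcases h with h | h
      · linarith
      · have h3 : f x ≤ g x / B := by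
          rw [le_div_iff₀ (by linarith)]
          rcases le_or_gt (f x) B with h4 | h4
          · nlinarith
          · have := hfg x hx
            nlinarith
        linarith
  have h3 := Finset.sum_le_sum key
  rw [Finset.sum_add_distrib, Finset.sum_add_distrib, Finset.sum_const, nsmul_eq_mul, ← Finset.sum_div,
    ← Finset.sum_filter, Finset.sum_const, nsmul_eq_mul] at h3
  have h4 : (∑ x ∈ A, g x) / B ≤ 1 / 4 * A.card := by
    rw [div_le_iff₀ (by linarith), hB]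
    have : (0 : ℝ) ≤ A.card := Nat.cast_nonneg _
    nlinarith
  have h5 : 3 / 8 * (A.card : ℝ) ≤ ((A.filter (fun x => 1 / 4 ≤ f x ∧ g x ≤ B ^ 2)).card : ℝ) * B := by linarith
  have h6 : 3 / (32 * (M + 1)) * (A.card : ℝ) = 3 / 8 * (A.card : ℝ) / B := by
    rw [hB]
    have : M + 1 ≠ 0 := by linarith
    field_simp
    ring
  rw [h6, div_le_iff₀ (by linarith)]
  exact h5

/-- a zero free disc around a point where the function is not small -/
theorem free_of {F : ℂ → ℂ} {s₀ : ℂ} {R B : ℝ} (hR : 0 < R) (hB : 0 ≤ B) (hd : DifferentiableOn ℂ F (Metric.ball s₀ R))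
    (hb : ∀ s ∈ Metric.ball s₀ R, ‖F s‖ ≤ B) (h0 : 1 / 4 ≤ ‖F s₀‖) {ρ : ℂ} (hρ : F ρ = 0) :
    R / (4 * (2 * B + 1)) ≤ ‖ρ - s₀‖ := by
  by_contra hc
  rw [not_le] at hc
  have h1 : R / (4 * (2 * B + 1)) ≤ R := by
    rw [div_le_iff₀ (by positivity)]
    nlinarith
  have h2 : ρ ∈ Metric.ball s₀ R := by
    rw [Metric.mem_ball, dist_eq_norm]
    linarith
  have h3 : Set.MapsTo F (Metric.ball s₀ R) (Metric.ball (F s₀) (2 * B + 1)) := by
    intro s hs
    rw [Metric.mem_ball, dist_eq_norm]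
    have h4 := hb s hs
    have h5 := hb s₀ (Metric.mem_ball_self hR)
    have := norm_sub_le (F s) (F s₀)
    linarith
  have h4 := Complex.dist_le_div_mul_dist_of_mapsTo_ball hd (h3.mono_right Metric.ball_subset_closedBall) h2
  rw [hρ, dist_zero_left, dist_eq_norm] at h4
  have h5 : (2 * B + 1) / R * ‖ρ - s₀‖ < 1 / 4 := by
    calc (2 * B + 1) / R * ‖ρ - s₀‖ < (2 * B + 1) / R * (R / (4 * (2 * B + 1))) :=
          mul_lt_mul_of_pos_left hc (by positivity)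
      _ = 1 / 4 := by field_simp
  linarith

theorem fm_diff (Pw : ℝ → ℝ) (Y : ℕ) : DifferentiableOn ℂ (fm Pw Y) {s : ℂ | s ≠ 1} := fun _ hs =>
  ((differentiableAt_riemannZeta hs).mul ((Pool.Agent.Q16.UM.dq_diff Y (et Pw Y)).differentiableAt.pow 2)).differentiableWithinAt

open Classical in
theorem count_cover {A : Finset ℝ} {h K : ℝ} (hh : 0 < h) (n : ℕ)
    (hA : ∀ u : ℝ, ((A.filter (fun x => u ≤ x ∧ x ≤ u + h)).card : ℝ) ≤ K) (u : ℝ) :
    ((A.filter (fun x => u ≤ x ∧ x ≤ u + n * h)).card : ℝ) ≤ (n + 1) * K := by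
  have hK : 0 ≤ K := (Nat.cast_nonneg _).trans (hA 0)
  induction n with
  | zero =>
    simp only [Nat.cast_zero, zero_mul, add_zero, zero_add, one_mul]
    refine le_trans ?_ (hA u)
    have h1 : A.filter (fun x => u ≤ x ∧ x ≤ u) ⊆ A.filter (fun x => u ≤ x ∧ x ≤ u + h) := by
      intro x hx
      rw [Finset.mem_filter] at hx ⊢
      exact ⟨hx.1, hx.2.1, by linarith [hx.2.2]⟩
    exact_mod_cast Finset.card_le_card h1
  | succ n ih =>
    have h1 : A.filter (fun x => u ≤ x ∧ x ≤ u + (n + 1 : ℕ) * h) ⊆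
        A.filter (fun x => u ≤ x ∧ x ≤ u + n * h) ∪ A.filter (fun x => u + n * h ≤ x ∧ x ≤ (u + n * h) + h) := by
      intro x hx
      rw [Finset.mem_filter] at hx
      rw [Finset.mem_union, Finset.mem_filter, Finset.mem_filter]
      have h2 := hx.2.2
      push_cast at h2
      rcases le_total x (u + n * h) with h3 | h3
      · exact Or.inl ⟨hx.1, hx.2.1, h3⟩
      · exact Or.inr ⟨hx.1, h3, by linarith⟩
    have h4 : ((A.filter (fun x => u ≤ x ∧ x ≤ u + (n + 1 : ℕ) * h)).card : ℝ) ≤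
        ((A.filter (fun x => u ≤ x ∧ x ≤ u + n * h)).card : ℝ) +
          ((A.filter (fun x => u + n * h ≤ x ∧ x ≤ (u + n * h) + h)).card : ℝ) := by
      exact_mod_cast (Finset.card_le_card h1).trans (Finset.card_union_le _ _)
    have h5 := hA (u + n * h)
    push_cast at h4 ⊢
    linarith

open Classical in
/-- the theorem for sums in a dyadic interval -/
theorem core (ε K η : ℝ) (hε : 0 < ε) (hε1 : ε ≤ 1) (hK : 1 ≤ K) (hη : 0 < η) : ∃ c κ : ℝ, 0 < c ∧ 0 < κ ∧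
    ∀ᶠ T : ℝ in atTop, ∀ A Z : Finset ℝ, (∀ x ∈ A, |x| ≤ K * T) → (∀ z ∈ Z, |z| ≤ K * T) →
      (∀ u : ℝ, ((A.filter (fun x => u ≤ x ∧ x ≤ u + 1 / Real.log T)).card : ℝ) ≤ K) → dens Z 1 →
      η * T * Real.log T ≤ A.card → T ^ ε ≤ Z.card → (∀ x ∈ A, ∀ z ∈ Z, T ≤ x + z ∧ x + z ≤ 2 * T) →
      ∃ z ∈ Z, c * A.card ≤ ((A.filter (fun x => Free (κ / Real.log T) (x + z))).card : ℝ) := by
  obtain ⟨Pw, q, c₀, C₀, θ₀, hG, hθ₀, hθ₀1, hin⟩ := inputs
  obtain ⟨θ, hθ⟩ : ∃ θ, θ = min θ₀ (ε / 16) := ⟨_, rfl⟩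
  have hθ0 : 0 < θ := by rw [hθ]; exact lt_min hθ₀ (by positivity)
  have hθ1 : θ ≤ θ₀ := by rw [hθ]; exact min_le_left _ _
  have hθ2 : θ ≤ ε / 16 := by rw [hθ]; exact min_le_right _ _
  obtain ⟨C, hC, hms⟩ := hin θ hθ0 hθ1
  obtain ⟨C₃, hC₃⟩ : ∃ C₃, C₃ = 16 * Real.exp 8 / Real.pi * C := ⟨_, rfl⟩
  have hπ := Real.pi_pos
  have hC₃0 : 0 ≤ C₃ := by rw [hC₃]; positivity
  obtain ⟨M, hM⟩ : ∃ M, M = 5 / 2 * K * C₃ / η := ⟨_, rfl⟩
  have hM0 : 0 ≤ M := by rw [hM]; positivity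
  refine ⟨3 / (32 * (M + 1)), 1 / (4 * (2 * (4 * (M + 1)) + 1)), by positivity, by positivity, ?_⟩
  filter_upwards [first hG Pool.Agent.Q208.UM.t_AL hθ0 hθ2 hε hε1 (show (1 : ℝ) ≤ 2 * K by linarith) hη, hms,
    eventually_ge_atTop 100, Real.tendsto_log_atTop.eventually_ge_atTop 8] with T hfirst hmsT hT hL8 A Z hAK hZK hsep hdZ hcA hcZ hAZ
  obtain ⟨L, hL⟩ : ∃ L, L = Real.log T := ⟨_, rfl⟩
  have hT0 : 0 < T := by linarith
  have hL0 : 0 < L := by rw [hL]; linarith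
  have hZ0 : 0 < (Z.card : ℝ) := lt_of_lt_of_le (by positivity) hcZ
  have hA0 : 0 < (A.card : ℝ) := lt_of_lt_of_le (by rw [← hL]; positivity) hcA
  -- density
  have hdA : dens A (2 * K * Real.log T) := by
    intro x
    obtain ⟨n, hn⟩ : ∃ n : ℕ, n = ⌈L⌉₊ := ⟨_, rfl⟩
    have hn1 : L ≤ n := by rw [hn]; exact Nat.le_ceil _
    have hn2 : (n : ℝ) < L + 1 := by rw [hn]; exact Nat.ceil_lt_add_one hL0.le
    have h1 := count_cover (A := A) (h := 1 / Real.log T) (K := K) (by rw [← hL]; positivity) n hsep x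
    have h2 : ((A.filter (fun a => x ≤ a ∧ a < x + 1)).card : ℝ) ≤
        ((A.filter (fun a => x ≤ a ∧ a ≤ x + n * (1 / Real.log T))).card : ℝ) := by
      have h3 : 1 ≤ n * (1 / Real.log T) := by
        rw [← hL, mul_one_div, le_div_iff₀ hL0]
        linarith
      have h4 : A.filter (fun a => x ≤ a ∧ a < x + 1) ⊆ A.filter (fun a => x ≤ a ∧ a ≤ x + n * (1 / Real.log T)) := by
        intro a ha
        rw [Finset.mem_filter] at ha ⊢
        exact ⟨ha.1, ha.2.1, by linarith [ha.2.2]⟩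
      exact_mod_cast Finset.card_le_card h4
    refine (le_trans (by convert h2) h1).trans ?_
    rw [← hL] at hL8 ⊢
    nlinarith
  have hf := hfirst A Z (fun x hx => (hAK x hx).trans (by nlinarith)) (fun z hz => (hZK z hz).trans (by nlinarith)) hdA hdZ hcA hcZ hAZ
  -- one good shift
  obtain ⟨z, hz, hz1⟩ : ∃ z ∈ Z, ‖∑ x ∈ A, (fm Pw ⌊T ^ θ⌋₊ (1 / 2 + ((x + z : ℝ) : ℂ) * I) - 1)‖ ≤ 1 / 8 * A.card := by
    by_contra hc
    push Not at hc
    have hne : Z.Nonempty := Finset.card_pos.1 (by exact_mod_cast hZ0)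
    have h1 := Finset.sum_lt_sum_of_nonempty hne hc
    rw [Finset.sum_const, nsmul_eq_mul] at h1
    nlinarith
  refine ⟨z, hz, ?_⟩
  obtain ⟨F, hF⟩ : ∃ F, F = fm Pw ⌊T ^ θ⌋₊ := ⟨_, rfl⟩
  rw [← hF] at hz1 hmsT
  have hFd : DifferentiableOn ℂ F {s : ℂ | s ≠ 1} := by rw [hF]; exact fm_diff Pw _
  -- the local means
  obtain ⟨w, hw⟩ : ∃ w, w = 2 / L := ⟨_, rfl⟩
  have hw0 : 0 < w := by rw [hw]; positivity
  obtain ⟨S, hS⟩ : ∃ S : Finset ℝ, S = A.image (fun x => x + z) := ⟨_, rfl⟩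
  have hinj : Set.InjOn (fun x : ℝ => x + z) A := fun x _ y _ h => by simpa using h
  have hcount : ∀ u : ℝ, (S.filter (fun t => |u - t| ≤ w)).card ≤ ⌊5 * K⌋₊ := by
    intro u
    refine Nat.le_floor ?_
    have h1 := count_cover (A := A) (h := 1 / Real.log T) (K := K) (by rw [← hL]; positivity) 4 hsep (u - z - w)
    have h2 : (S.filter (fun t => |u - t| ≤ w)).card ≤ (A.filter (fun x => u - z - w ≤ x ∧ x ≤ u - z - w + (4 : ℕ) * (1 / Real.log T))).card := by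
      rw [hS, Finset.filter_image, Finset.card_image_of_injOn (hinj.mono (by
        intro x hx
        rw [Finset.mem_coe, Finset.mem_filter] at hx
        exact hx.1))]
      refine Finset.card_le_card (Finset.monotone_filter_right _ fun x _ hx => ?_)
      have hx' : |u - (x + z)| ≤ w := hx
      rw [abs_le] at hx'
      refine ⟨by linarith [hx'.2], ?_⟩
      have : ((4 : ℕ) : ℝ) * (1 / Real.log T) = 2 * w := by
        rw [hw, ← hL]
        push_cast
        ring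
      rw [this]
      linarith [hx'.1]
    have h3 : ((S.filter (fun t => |u - t| ≤ w)).card : ℝ) ≤
        ((A.filter (fun x => u - z - w ≤ x ∧ x ≤ u - z - w + (4 : ℕ) * (1 / Real.log T))).card : ℝ) := by exact_mod_cast h2
    refine h3.trans (h1.trans (le_of_eq ?_))
    push_cast
    ring
  have hSr : ∀ t ∈ S, T ≤ t ∧ t ≤ 2 * T := by
    intro t ht
    rw [hS, Finset.mem_image] at ht
    obtain ⟨x, hx, rfl⟩ := ht
    exact hAZ x hx z hz
  have hlm := local_means hFd hT hC hw0 (by rw [hw, hL]; rw [div_le_div_iff₀ (by linarith) (by norm_num)]; linarith)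
    (by rw [hw, hL, div_mul_cancel₀]; linarith) hmsT S hSr ⌊5 * K⌋₊ hcount
  have hg : ∑ x ∈ A, gl F w (x + z) ≤ M * A.card := by
    have h1 : ∑ x ∈ A, gl F w (x + z) = ∑ t ∈ S, gl F w t := by
      rw [hS, Finset.sum_image hinj]
    rw [h1]
    refine hlm.1.trans ?_
    have h2 : (⌊5 * K⌋₊ : ℝ) ≤ 5 * K := Nat.floor_le (by positivity)
    calc 16 * Real.exp 8 / Real.pi * (C * (⌊5 * K⌋₊ : ℝ) * T / w) ≤ 16 * Real.exp 8 / Real.pi * (C * (5 * K) * T / w) := by gcongr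
      _ = (5 / 2 * K * C₃ / η) * (η * T * L) := by
          rw [hC₃, hw]
          field_simp
      _ ≤ M * A.card := by
          rw [← hM, hL]
          exact mul_le_mul_of_nonneg_left hcA hM0
  have hsum : 7 / 8 * (A.card : ℝ) ≤ ∑ x ∈ A, ‖F (1 / 2 + ((x + z : ℝ) : ℂ) * I)‖ := by
    have h1 : ∑ x ∈ A, (F (1 / 2 + ((x + z : ℝ) : ℂ) * I) - 1) = ∑ x ∈ A, F (1 / 2 + ((x + z : ℝ) : ℂ) * I) - A.card := by
      rw [Finset.sum_sub_distrib, Finset.sum_const, nsmul_eq_mul, mul_one]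
    rw [h1] at hz1
    have h2 : (A.card : ℝ) - ‖∑ x ∈ A, F (1 / 2 + ((x + z : ℝ) : ℂ) * I)‖ ≤
        ‖∑ x ∈ A, F (1 / 2 + ((x + z : ℝ) : ℂ) * I) - A.card‖ := by
      have h3 := norm_sub_norm_le (A.card : ℂ) (∑ x ∈ A, F (1 / 2 + ((x + z : ℝ) : ℂ) * I))
      rw [Complex.norm_natCast, norm_sub_rev] at h3
      exact h3
    have h4 := norm_sum_le A fun x => F (1 / 2 + ((x + z : ℝ) : ℂ) * I)
    linarith
  have hsmall : ∀ x ∈ A, ∀ s : ℂ, ‖s - (1 / 2 + ((x + z : ℝ) : ℂ) * I)‖ ≤ w / 2 → ‖F s‖ ^ 2 ≤ gl F w (x + z) :=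
    fun x hx s hs => hlm.2 (x + z) (by rw [hS]; exact Finset.mem_image_of_mem _ hx) s hs
  have hmany := many (f := fun x => ‖F (1 / 2 + ((x + z : ℝ) : ℂ) * I)‖) (g := fun x => gl F w (x + z)) hM0
    (fun x _ => norm_nonneg _) (fun x hx => hsmall x hx _ (by rw [sub_self, norm_zero]; positivity)) hsum hg
  refine hmany.trans ?_
  refine Nat.cast_le.2 (Finset.card_le_card fun x hx => ?_)
  rw [Finset.mem_filter] at hx ⊢
  obtain ⟨hxA, hx1, hx2⟩ := hx
  refine ⟨hxA, ?_⟩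
  intro ρ hρ
  have hFρ : F ρ = 0 := by
    rw [hF]
    unfold fm
    rw [hρ, zero_mul]
  have hB : (0 : ℝ) ≤ 4 * (M + 1) := by positivity
  have h3 := free_of (F := F) (s₀ := 1 / 2 + ((x + z : ℝ) : ℂ) * I) (R := w / 2) (B := 4 * (M + 1)) (by positivity) hB ?_ ?_ hx1 hFρ
  · refine le_trans (le_of_eq ?_) h3
    rw [hw, hL]
    field_simp
  · refine hFd.mono fun s hs h1 => ?_
    rw [Metric.mem_ball, dist_eq_norm] at hs
    have h4 := (Complex.abs_im_le_norm _).trans hs.le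
    rw [h1] at h4
    simp at h4
    have h5 := (hAZ x hxA z hz).1
    have h6 : w / 2 ≤ 1 := by
      rw [hw, hL, div_div, div_le_one (by linarith)]
      linarith
    have h7 : x + z ≤ |-z + -x| := by
      have := neg_abs_le (-z + -x)
      linarith
    linarith
  · intro s hs
    rw [Metric.mem_ball, dist_eq_norm] at hs
    have h4 := (hsmall x hxA s hs.le).trans hx2
    exact abs_le_of_sq_le_sq' h4 hB |>.2

end

end Pool.Agent.V8H7.SM
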