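import Pool.Agent.V8H7.SM.FE

/-! Reduction to a dyadic interval. -/

set_option autoImplicit false

open MeasureTheory Complex Filter Topology

namespace Pool.Agent.V8H7.SM

open Pool.Agent.H452R4.LI (dens)

noncomputable section

theorem Free_neg {r t : ℝ} (h : Free r (-t)) : Free r t := by
  intro ρ hρ
  have h1 : riemannZeta ((starRingEnd ℂ) ρ) = 0 := by
    rw [riemannZeta_conj, hρ, map_zero]
  refine (h _ h1).trans (le_of_eq ?_)
  rw [← RCLike.norm_conj (ρ - (1 / 2 + t * I))]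
  congr 1
  simp [Complex.conj_ofNat]

theorem Free_mono {r r' t : ℝ} (hr : r' ≤ r) (h : Free r t) : Free r' t := fun ρ hρ => hr.trans (h ρ hρ)

theorem dens_one {Z : Finset ℝ} (hZ : ∀ z ∈ Z, ∀ z' ∈ Z, z ≠ z' → 1 ≤ |z - z'|) : dens Z 1 := by
  intro x
  have h : (Z.filter (fun a => x ≤ a ∧ a < x + 1)).card ≤ 1 := by
    rw [Finset.card_le_one]
    intro a ha b hb
    rw [Finset.mem_filter] at ha hb
    by_contra hne
    have h1 := hZ a ha.1 b hb.1 hne
    have h2 : |a - b| < 1 := by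
      rw [abs_lt]
      constructor <;> linarith [ha.2.1, ha.2.2, hb.2.1, hb.2.2]
    linarith
  exact_mod_cast h

theorem dens_mono {Z Z' : Finset ℝ} {w : ℝ} (h : Z' ⊆ Z) (hZ : dens Z w) : dens Z' w := by
  intro x
  refine le_trans ?_ (hZ x)
  exact_mod_cast Finset.card_le_card (Finset.filter_subset_filter _ h)

open Classical in
theorem gen (ε K η : ℝ) (hε : 0 < ε) (hK : 1 ≤ K) (hη : 0 < η) : ∃ c κ T₀ : ℝ, 0 < c ∧ 0 < κ ∧ ∀ T : ℝ, T₀ ≤ T → ∀ A : Finset ℝ,
    (∀ x ∈ A, |x| ≤ K * T) → (∀ u : ℝ, ((A.filter (fun x => u ≤ x ∧ x ≤ u + 1 / Real.log T)).card : ℝ) ≤ K) →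
    η * T * Real.log T ≤ A.card → ∀ Z : Finset ℝ, (∀ z ∈ Z, |z| ≤ K * T) → (∀ z ∈ Z, ∀ z' ∈ Z, z ≠ z' → 1 ≤ |z - z'|) →
    (∀ z ∈ Z, ((A.filter (fun x => Free (κ / Real.log T) (x + z))).card : ℝ) < c * A.card) → (Z.card : ℝ) ≤ T ^ ε := by
  obtain ⟨δ, hδ⟩ : ∃ δ : ℝ, δ = η / (36 * K) := ⟨_, rfl⟩
  have hδ0 : 0 < δ := by rw [hδ]; positivity
  obtain ⟨m, hm⟩ : ∃ m : ℕ, K / δ + 1 ≤ m := by
    obtain ⟨m, hm⟩ := exists_nat_ge (K / δ + 1)
    exact ⟨m, hm⟩
  obtain ⟨P, hP⟩ : ∃ P : ℝ, P = 2 * m + 1 := ⟨_, rfl⟩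
  have hP0 : 0 < P := by rw [hP]; positivity
  obtain ⟨ε₁, hε₁, hε₁1, hε₁2⟩ : ∃ ε₁ : ℝ, 0 < ε₁ ∧ ε₁ ≤ 1 ∧ ε₁ ≤ ε / 2 :=
    ⟨min (ε / 2) 1, lt_min (by positivity) one_pos, min_le_right _ _, min_le_left _ _⟩
  obtain ⟨K₁, hK₁⟩ : ∃ K₁ : ℝ, K₁ = 3 * K + K / (3 * δ) := ⟨_, rfl⟩
  have hKd : 0 ≤ K / (3 * δ) := by positivity
  obtain ⟨η₁, hη₁⟩ : ∃ η₁ : ℝ, η₁ = 3 * η / (16 * K * P) := ⟨_, rfl⟩
  have hη₁0 : 0 < η₁ := by rw [hη₁]; positivity
  obtain ⟨c₁, κ₁, hc₁, hκ₁, hcore⟩ := core ε₁ K₁ η₁ hε₁ hε₁1 (by rw [hK₁]; linarith) hη₁0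
  obtain ⟨T₂, hT₂⟩ := eventually_atTop.1 hcore
  have hbig : ∀ᶠ T : ℝ in atTop, (2 * K) ^ ε₁ * P ^ 2 ≤ T ^ (ε / 2) :=
    (tendsto_rpow_atTop (by positivity)).eventually_ge_atTop _
  have hall : ∀ᶠ T : ℝ in atTop, 100 ≤ T ∧ T₂ / (3 * δ) ≤ T ∧ 1 / (9 * δ ^ 2) ≤ T ∧ 2 * K ≤ T ∧ 2 / δ ≤ T ∧
      (2 * K) ^ ε₁ * P ^ 2 ≤ T ^ (ε / 2) := by
    filter_upwards [hbig, eventually_ge_atTop 100, eventually_ge_atTop (T₂ / (3 * δ)), eventually_ge_atTop (1 / (9 * δ ^ 2)),
      eventually_ge_atTop (2 * K), eventually_ge_atTop (2 / δ)] with T h1 h2 h3 h4 h5 h6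
    exact ⟨h2, h3, h4, h5, h6, h1⟩
  obtain ⟨T₀, hT₀⟩ := eventually_atTop.1 hall
  refine ⟨c₁ * (3 / (4 * P)), κ₁ / 2, T₀, by positivity, by positivity, ?_⟩
  intro T hT A hAK hsep hcA Z hZK hZsep hbad
  obtain ⟨hT100, hTT₂, hTδ, hTK, hT2δ, hTε⟩ := hT₀ T hT
  by_contra hcon
  rw [not_le] at hcon
  have hT0 : 0 < T := by linarith
  have hT1 : 1 < T := by linarith
  obtain ⟨L, hL⟩ : ∃ L, L = Real.log T := ⟨_, rfl⟩
  have hL1 : 1 ≤ L := by
    rw [hL, Real.le_log_iff_exp_le hT0]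
    have := Real.exp_one_lt_d9
    linarith
  have hL0 : 0 < L := by linarith
  have hA0 : 0 < (A.card : ℝ) := lt_of_lt_of_le (by rw [← hL]; positivity) hcA
  obtain ⟨d, hd⟩ : ∃ d, d = δ * T := ⟨_, rfl⟩
  have hd0 : 0 < d := by rw [hd]; positivity
  have hd2 : 2 ≤ d := by
    rw [div_le_iff₀ hδ0] at hT2δ
    rw [hd]
    linarith
  -- the indices
  have hidx : ∀ x : ℝ, |x| ≤ K * T → ⌊x / d⌋ ∈ Finset.Icc (-(m : ℤ)) m := by
    intro x hx
    rw [abs_le] at hx
    have hKd2 : K * T / d = K / δ := by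
      rw [hd]
      field_simp
    have h1 : x / d ≤ K / δ := by
      rw [← hKd2]
      exact div_le_div_of_nonneg_right hx.2 hd0.le
    have h2 : -(K / δ) ≤ x / d := by
      rw [← hKd2, ← neg_div]
      exact div_le_div_of_nonneg_right (by linarith [hx.1]) hd0.le
    rw [Finset.mem_Icc]
    constructor
    · rw [Int.le_floor]
      push_cast
      linarith
    · have h3 : ((⌊x / d⌋ : ℤ) : ℝ) ≤ m := (Int.floor_le _).trans (by linarith)
      exact_mod_cast h3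
  have hcardP : ((Finset.Icc (-(m : ℤ)) m).card : ℝ) = P := by
    rw [Int.card_Icc, hP]
    have : ((m : ℤ) + 1 - -(m : ℤ)).toNat = 2 * m + 1 := by omega
    rw [this]
    push_cast
    ring
  have hmemI : ∀ x : ℝ, (⌊x / d⌋ : ℝ) * d ≤ x ∧ x < ((⌊x / d⌋ : ℝ) + 1) * d := by
    intro x
    constructor
    · rw [← le_div_iff₀ hd0]
      exact Int.floor_le _
    · rw [← div_lt_iff₀ hd0]
      exact Int.lt_floor_add_one _
  -- most sums are not small
  have hmost : ∀ z : ℝ, 3 / 4 * (A.card : ℝ) ≤ ((A.filter (fun x => 4 * d < |x + z|)).card : ℝ) := by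
    intro z
    have h1 : (A.filter (fun x => 4 * d < |x + z|)).card + (A.filter (fun x => ¬ 4 * d < |x + z|)).card = A.card :=
      Finset.card_filter_add_card_filter_not _
    obtain ⟨n, hn⟩ : ∃ n : ℕ, n = ⌈8 * d * L⌉₊ := ⟨_, rfl⟩
    have hn1 : 8 * d * L ≤ n := by rw [hn]; exact Nat.le_ceil _
    have hn2 : (n : ℝ) < 8 * d * L + 1 := by rw [hn]; exact Nat.ceil_lt_add_one (by positivity)
    have h2 := count_cover (A := A) (h := 1 / Real.log T) (K := K) (by rw [← hL]; positivity) n hsep (-z - 4 * d)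
    have h3 : A.filter (fun x => ¬ 4 * d < |x + z|) ⊆
        A.filter (fun x => -z - 4 * d ≤ x ∧ x ≤ -z - 4 * d + n * (1 / Real.log T)) := by
      intro x hx
      rw [Finset.mem_filter] at hx ⊢
      have hx2 := hx.2
      rw [not_lt, abs_le] at hx2
      refine ⟨hx.1, by linarith [hx2.1], ?_⟩
      have h4 : 8 * d ≤ n * (1 / Real.log T) := by
        rw [← hL, mul_one_div, le_div_iff₀ hL0]
        exact hn1
      linarith [hx2.2]
    have h4 : ((A.filter (fun x => ¬ 4 * d < |x + z|)).card : ℝ) ≤ (n + 1) * K :=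
      le_trans (by exact_mod_cast Finset.card_le_card h3) h2
    have h5 : ((n : ℝ) + 1) * K ≤ 1 / 4 * A.card := by
      have h6 : ((n : ℝ) + 1) ≤ 9 * (d * L) := by
        have := mul_le_mul hd2 hL1 zero_le_one hd0.le
        linarith
      calc ((n : ℝ) + 1) * K ≤ (9 * (d * L)) * K := mul_le_mul_of_nonneg_right h6 (by linarith)
        _ = 1 / 4 * (η * T * Real.log T) := by
            rw [hd, hδ, hL]
            field_simp
            ring
        _ ≤ 1 / 4 * A.card := by linarith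
    have h7 : ((A.filter (fun x => 4 * d < |x + z|)).card : ℝ) + ((A.filter (fun x => ¬ 4 * d < |x + z|)).card : ℝ) = A.card := by
      exact_mod_cast h1
    linarith
  -- the interval for `z`
  have hi : ∀ z : ℝ, ∃ i ∈ Finset.Icc (-(m : ℤ)) m, 3 / (4 * P) * (A.card : ℝ) ≤
      (((A.filter (fun x => 4 * d < |x + z|)).filter (fun x => ⌊x / d⌋ = i)).card : ℝ) := by
    intro z
    refine Finset.exists_le_card_fiber_of_nsmul_le_card_of_maps_to (fun x hx => hidx x (hAK x (Finset.mem_filter.1 hx).1)) ?_ ?_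
    · exact ⟨0, by rw [Finset.mem_Icc]; omega⟩
    · rw [nsmul_eq_mul, hcardP]
      refine le_trans (le_of_eq ?_) (hmost z)
      field_simp
  choose i hi1 hi2 using hi
  -- the intervals for many `z`
  obtain ⟨⟨i₀, k₀⟩, -, hZ'⟩ := Finset.exists_le_card_fiber_of_nsmul_le_card_of_maps_to (s := Z)
    (t := Finset.Icc (-(m : ℤ)) m ×ˢ Finset.Icc (-(m : ℤ)) m) (f := fun z => (i z, ⌊z / d⌋)) (b := (Z.card : ℝ) / P ^ 2)
    (fun z hz => Finset.mem_product.2 ⟨hi1 z, hidx z (hZK z hz)⟩)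
    ⟨(0, 0), by rw [Finset.mem_product, Finset.mem_Icc]; simp⟩
    (by rw [nsmul_eq_mul, Finset.card_product, Nat.cast_mul, hcardP]; apply le_of_eq; field_simp)
  obtain ⟨Z', hZ'd⟩ : ∃ Z', Z' = Z.filter (fun z => (i z, ⌊z / d⌋) = (i₀, k₀)) := ⟨_, rfl⟩
  rw [← hZ'd] at hZ'
  have hZpos : 0 < (Z.card : ℝ) := (Real.rpow_pos_of_pos hT0 ε).trans hcon
  have hZ'pos : 0 < (Z'.card : ℝ) := lt_of_lt_of_le (by positivity) hZ'
  obtain ⟨z₀, hz₀⟩ : Z'.Nonempty := Finset.card_pos.1 (by exact_mod_cast hZ'pos)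
  have hZ'sub : Z' ⊆ Z := by rw [hZ'd]; exact Finset.filter_subset _ _
  have hz₀' : i z₀ = i₀ ∧ ⌊z₀ / d⌋ = k₀ := by
    rw [hZ'd, Finset.mem_filter] at hz₀
    simpa using hz₀.2
  obtain ⟨A', hA'd⟩ : ∃ A', A' = A.filter (fun x => ⌊x / d⌋ = i₀) := ⟨_, rfl⟩
  have hA'sub : A' ⊆ A := by rw [hA'd]; exact Finset.filter_subset _ _
  have hfib := hi2 z₀
  rw [hz₀'.1] at hfib
  have hA'card : 3 / (4 * P) * (A.card : ℝ) ≤ A'.card := by
    refine hfib.trans ?_
    rw [hA'd]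
    exact_mod_cast Finset.card_le_card (Finset.filter_subset_filter _ (Finset.filter_subset _ _))
  have hfibpos : 0 < (((A.filter (fun x => 4 * d < |x + z₀|)).filter (fun x => ⌊x / d⌋ = i₀)).card : ℝ) :=
    lt_of_lt_of_le (by positivity) hfib
  obtain ⟨x₀, hx₀⟩ : ((A.filter (fun x => 4 * d < |x + z₀|)).filter (fun x => ⌊x / d⌋ = i₀)).Nonempty :=
    Finset.card_pos.1 (by exact_mod_cast hfibpos)
  rw [Finset.mem_filter, Finset.mem_filter] at hx₀
  obtain ⟨⟨hx₀A, hx₀4⟩, hx₀i⟩ := hx₀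
  have hrange : ∀ x ∈ A', ∀ z ∈ Z', ((i₀ + k₀ : ℤ) : ℝ) * d ≤ x + z ∧ x + z < ((i₀ + k₀ + 2 : ℤ) : ℝ) * d := by
    intro x hx z hz
    rw [hA'd, Finset.mem_filter] at hx
    rw [hZ'd, Finset.mem_filter, Prod.mk.injEq] at hz
    have h1 := hmemI x
    have h2 := hmemI z
    rw [hx.2] at h1
    rw [hz.2.2] at h2
    push_cast
    constructor <;> linarith [h1.1, h1.2, h2.1, h2.2]
  have hx₀A' : x₀ ∈ A' := by rw [hA'd, Finset.mem_filter]; exact ⟨hx₀A, hx₀i⟩
  have hr₀ := hrange x₀ hx₀A' z₀ hz₀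
  have hs2K : |x₀ + z₀| ≤ 2 * K * T := by
    refine (abs_add_le _ _).trans ?_
    have := hAK x₀ hx₀A
    have := hZK z₀ (hZ'sub hz₀)
    linarith
  have hsep' : ∀ u : ℝ, ((A'.filter (fun x => u ≤ x ∧ x ≤ u + 1 / Real.log T)).card : ℝ) ≤ K := by
    intro u
    refine le_trans ?_ (hsep u)
    exact_mod_cast Finset.card_le_card (Finset.filter_subset_filter _ hA'sub)
  -- the application of the core
  have claim : ∀ (A₁ Z₁ : Finset ℝ) (T₁ : ℝ), 3 * d ≤ T₁ → T₁ ≤ 2 * K * T → (∀ x ∈ A₁, |x| ≤ K * T) → (∀ z ∈ Z₁, |z| ≤ K * T) →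
      (∀ u : ℝ, ((A₁.filter (fun x => u ≤ x ∧ x ≤ u + 1 / Real.log T)).card : ℝ) ≤ K) → dens Z₁ 1 → A₁.card = A'.card →
      Z₁.card = Z'.card → (∀ x ∈ A₁, ∀ z ∈ Z₁, T₁ ≤ x + z ∧ x + z ≤ 2 * T₁) →
      ∃ z ∈ Z₁, c₁ * A'.card ≤ ((A₁.filter (fun x => Free (κ₁ / 2 / Real.log T) (x + z))).card : ℝ) := by
    intro A₁ Z₁ T₁ h1 h2 h3 h4 h5 h6 h7 h8 h9
    have h3d : 3 * δ * T ≤ T₁ := by
      rw [hd] at h1
      linarith
    have hT₁0 : 0 < T₁ := by
      have : 0 < 3 * δ * T := by positivity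
      linarith
    have hKT : K * T ≤ K₁ * T₁ := by
      have h10 : K * T ≤ K / (3 * δ) * T₁ := by
        rw [div_mul_eq_mul_div, le_div_iff₀ (by positivity)]
        have := mul_le_mul_of_nonneg_left h3d (by linarith : (0:ℝ) ≤ K)
        linarith
      rw [hK₁]
      have h17 : 0 ≤ 3 * K * T₁ := by positivity
      linarith
    have hT₁2 : T₂ ≤ T₁ := by
      rw [div_le_iff₀ (by positivity)] at hTT₂
      linarith
    have hlog1 : 1 / 2 * L ≤ Real.log T₁ := by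
      have h11 : Real.sqrt T ≤ T₁ := by
        refine le_trans ?_ h3d
        rw [Real.sqrt_le_left (by positivity)]
        rw [div_le_iff₀ (by positivity)] at hTδ
        have := mul_le_mul_of_nonneg_left hTδ hT0.le
        linarith
      rw [hL, one_div, inv_mul_eq_div, ← Real.log_sqrt hT0.le]
      exact Real.log_le_log (Real.sqrt_pos.2 hT0) h11
    have hlog2 : Real.log T₁ ≤ 2 * L := by
      have h12 : T₁ ≤ T ^ 2 := by
        have := mul_le_mul_of_nonneg_right hTK hT0.le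
        linarith
      calc Real.log T₁ ≤ Real.log (T ^ 2) := Real.log_le_log hT₁0 h12
        _ = 2 * L := by rw [Real.log_pow, hL]; norm_num
    have hlT₁ : 0 < Real.log T₁ := by linarith
    have hsep1 : ∀ u : ℝ, ((A₁.filter (fun x => u ≤ x ∧ x ≤ u + 1 / Real.log T₁)).card : ℝ) ≤ K₁ := by
      intro u
      have h13 := count_cover (A := A₁) (h := 1 / Real.log T) (K := K) (by rw [← hL]; positivity) 2 h5 u
      have h14 : A₁.filter (fun x => u ≤ x ∧ x ≤ u + 1 / Real.log T₁) ⊆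
          A₁.filter (fun x => u ≤ x ∧ x ≤ u + (2 : ℕ) * (1 / Real.log T)) := by
        intro x hx
        rw [Finset.mem_filter] at hx ⊢
        refine ⟨hx.1, hx.2.1, ?_⟩
        have h15 : 1 / Real.log T₁ ≤ (2 : ℕ) * (1 / Real.log T) := by
          push_cast
          rw [← hL, mul_one_div, div_le_div_iff₀ hlT₁ hL0]
          linarith
        linarith [hx.2.2]
      have h16 : ((A₁.filter (fun x => u ≤ x ∧ x ≤ u + 1 / Real.log T₁)).card : ℝ) ≤
          ((A₁.filter (fun x => u ≤ x ∧ x ≤ u + (2 : ℕ) * (1 / Real.log T))).card : ℝ) := by exact_mod_cast Finset.card_le_card h14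
      push_cast at h13 h16
      rw [hK₁]
      linarith
    have hη' : η₁ * T₁ * Real.log T₁ ≤ A₁.card := by
      rw [h7]
      refine le_trans ?_ hA'card
      calc η₁ * T₁ * Real.log T₁ ≤ η₁ * (2 * K * T) * (2 * L) := by gcongr
        _ = 3 / (4 * P) * (η * T * Real.log T) := by
            rw [hη₁, hL]
            field_simp
            ring
        _ ≤ 3 / (4 * P) * A.card := mul_le_mul_of_nonneg_left hcA (by positivity)
    have hZ'' : T₁ ^ ε₁ ≤ Z₁.card := by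
      rw [h8]
      refine le_trans ?_ hZ'
      rw [le_div_iff₀ (by positivity)]
      calc T₁ ^ ε₁ * P ^ 2 ≤ (2 * K * T) ^ ε₁ * P ^ 2 := by gcongr
        _ = ((2 * K) ^ ε₁ * P ^ 2) * T ^ ε₁ := by
            rw [Real.mul_rpow (by positivity) hT0.le]
            ring
        _ ≤ T ^ (ε / 2) * T ^ (ε / 2) := by
            refine mul_le_mul hTε (Real.rpow_le_rpow_of_exponent_le hT1.le hε₁2) (by positivity) (by positivity)
        _ = T ^ ε := by
            rw [← Real.rpow_add hT0]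
            ring_nf
        _ ≤ Z.card := hcon.le
    obtain ⟨z, hz, hz2⟩ := hT₂ T₁ hT₁2 A₁ Z₁ (fun x hx => (h3 x hx).trans hKT) (fun z hz => (h4 z hz).trans hKT) hsep1 h6 hη' hZ'' h9
    refine ⟨z, hz, ?_⟩
    rw [h7] at hz2
    refine hz2.trans ?_
    refine Nat.cast_le.2 (Finset.card_le_card fun x hx => ?_)
    rw [Finset.mem_filter] at hx ⊢
    refine ⟨hx.1, Free_mono ?_ hx.2⟩
    rw [div_div, div_le_div_iff₀ (by rw [← hL]; positivity) hlT₁, ← hL]
    exact mul_le_mul_of_nonneg_left hlog2 hκ₁.le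
  have hfin : ∃ z ∈ Z', c₁ * A'.card ≤ ((A'.filter (fun x => Free (κ₁ / 2 / Real.log T) (x + z))).card : ℝ) := by
    rcases le_or_gt 0 (x₀ + z₀) with hs | hs
    · rw [abs_of_nonneg hs] at hx₀4 hs2K
      have h1 : (2 : ℝ) < ((i₀ + k₀ : ℤ) : ℝ) := by
        have h2 := hr₀.2
        push_cast at h2 ⊢
        by_contra hc
        rw [not_lt] at hc
        have := mul_le_mul_of_nonneg_right hc hd0.le
        linarith
      have h3 : 3 ≤ i₀ + k₀ := by
        have : (2 : ℤ) < i₀ + k₀ := by exact_mod_cast h1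
        omega
      have h4 : (3 : ℝ) ≤ ((i₀ + k₀ : ℤ) : ℝ) := by exact_mod_cast h3
      refine claim A' Z' (((i₀ + k₀ : ℤ) : ℝ) * d) (mul_le_mul_of_nonneg_right h4 hd0.le) (hr₀.1.trans hs2K)
        (fun x hx => hAK x (hA'sub hx)) (fun z hz => hZK z (hZ'sub hz)) hsep' (dens_mono hZ'sub (dens_one hZsep)) rfl rfl ?_
      intro x hx z hz
      have h5 := hrange x hx z hz
      refine ⟨h5.1, h5.2.le.trans ?_⟩
      have h6 := mul_le_mul_of_nonneg_right h4 hd0.le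
      push_cast at h6 ⊢
      linarith
    · rw [abs_of_neg hs] at hx₀4 hs2K
      have h1 : ((i₀ + k₀ : ℤ) : ℝ) < -4 := by
        have h2 := hr₀.1
        by_contra hc
        rw [not_lt] at hc
        have := mul_le_mul_of_nonneg_right hc hd0.le
        linarith
      have h3 : i₀ + k₀ ≤ -5 := by
        have : (i₀ + k₀ : ℤ) < -4 := by exact_mod_cast h1
        omega
      have h4 : ((i₀ + k₀ : ℤ) : ℝ) ≤ -5 := by exact_mod_cast h3
      have h4d := mul_le_mul_of_nonneg_right h4 hd0.le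
      obtain ⟨A₁, hA₁⟩ : ∃ A₁ : Finset ℝ, A₁ = A'.image (fun x => -x) := ⟨_, rfl⟩
      obtain ⟨Z₁, hZ₁⟩ : ∃ Z₁ : Finset ℝ, Z₁ = Z'.image (fun x => -x) := ⟨_, rfl⟩
      have hmA : ∀ x, x ∈ A₁ ↔ -x ∈ A' := by
        intro x
        rw [hA₁, Finset.mem_image]
        constructor
        · rintro ⟨y, hy, rfl⟩
          rwa [neg_neg]
        · intro h
          exact ⟨-x, h, neg_neg x⟩
      have hmZ : ∀ x, x ∈ Z₁ ↔ -x ∈ Z' := by
        intro x
        rw [hZ₁, Finset.mem_image]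
        constructor
        · rintro ⟨y, hy, rfl⟩
          rwa [neg_neg]
        · intro h
          exact ⟨-x, h, neg_neg x⟩
      have hcA₁ : A₁.card = A'.card := by rw [hA₁]; exact Finset.card_image_of_injective _ neg_injective
      have hcZ₁ : Z₁.card = Z'.card := by rw [hZ₁]; exact Finset.card_image_of_injective _ neg_injective
      have hfil : ∀ (p q : ℝ → Prop) [DecidablePred p] [DecidablePred q], (∀ x, p x → q (-x)) →
          ((A₁.filter p).card : ℝ) ≤ ((A'.filter q).card : ℝ) := by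
        intro p q _ _ hpq
        refine Nat.cast_le.2 (Finset.card_le_card_of_injOn (fun x => -x) ?_ neg_injective.injOn)
        intro x hx
        rw [Finset.mem_coe, Finset.mem_filter] at hx ⊢
        exact ⟨(hmA x).1 hx.1, hpq x hx.2⟩
      obtain ⟨z, hz, hz2⟩ := claim A₁ Z₁ (-((i₀ + k₀ + 2 : ℤ) : ℝ) * d) (by push_cast at h4d ⊢; linarith)
        (by
          have := hr₀.2
          push_cast at this hs2K ⊢
          linarith) (fun x hx => by
            have := hAK (-x) (hA'sub ((hmA x).1 hx))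
            rwa [abs_neg] at this)
        (fun x hx => by
            have := hZK (-x) (hZ'sub ((hmZ x).1 hx))
            rwa [abs_neg] at this)
        (fun u => by
          refine le_trans (hfil _ _ ?_) (hsep' (-(u + 1 / Real.log T)))
          intro x hx
          exact ⟨by linarith [hx.2], by linarith [hx.1]⟩)
        (dens_one (fun z hz z' hz' hne => by
          have h5 := hZsep (-z) (hZ'sub ((hmZ z).1 hz)) (-z') (hZ'sub ((hmZ z').1 hz')) (fun h => hne (neg_injective h))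
          rw [← abs_neg] at h5
          convert h5 using 2
          ring)) hcA₁ hcZ₁
        (fun x hx z hz => by
          have h5 := hrange (-x) ((hmA x).1 hx) (-z) ((hmZ z).1 hz)
          push_cast at h4d h5 ⊢
          constructor <;> linarith [h5.1, h5.2])
      refine ⟨-z, (hmZ z).1 hz, hz2.trans ?_⟩
      refine hfil _ _ fun x hx => Free_neg ?_
      have h6 : -(-x + -z) = x + z := by ring
      rw [h6]
      exact hx
  obtain ⟨z, hz, hz2⟩ := hfin
  have h1 := hbad z (hZ'sub hz)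
  have h2 : ((A'.filter (fun x => Free (κ₁ / 2 / Real.log T) (x + z))).card : ℝ) ≤
      ((A.filter (fun x => Free (κ₁ / 2 / Real.log T) (x + z))).card : ℝ) := by
    exact_mod_cast Finset.card_le_card (Finset.filter_subset_filter _ hA'sub)
  have h3 : c₁ * (3 / (4 * P)) * A.card ≤ c₁ * A'.card := by
    rw [mul_assoc]
    exact mul_le_mul_of_nonneg_left hA'card hc₁.le
  linarith

end

end Pool.Agent.V8H7.SM
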