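import Pool.Agent.V8H7.SM.FF
import Pool.Agent.Q16.UM.CLU
import Pool.Agent.H452R4.LI.COR

/-! Sums of ordinates of zeros. -/

set_option autoImplicit false

open MeasureTheory Complex Filter Topology

namespace Pool.Agent.V8H7.SM

open Pool.Agent.H452R4.LI (dens)
open Pool.Agent.Q97.UM (Zw nz mz dp N2)

noncomputable section

/-- the positive ordinates of the nontrivial zeros -/
def Ordi (γ : ℝ) : Prop := 0 < γ ∧ ∃ s : ℂ, riemannZeta s = 0 ∧ 0 < s.re ∧ s.re < 1 ∧ s.im = γ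

theorem card_le_sum {A : Finset ℝ} {T : ℝ} (hT : 1 ≤ T) {P : ℝ → Prop} [DecidablePred P]
    (hA : ∀ γ ∈ A, Ordi γ ∧ T < γ ∧ γ ≤ 2 * T ∧ P γ) :
    (A.card : ℝ) ≤ ∑ s ∈ (H370.Zf riemannZeta T (2 * T)).filter (fun s => P s.im), (mz s : ℝ) := by
  have h1 : A ⊆ ((H370.Zf riemannZeta T (2 * T)).filter (fun s => P s.im)).image Complex.im := by
    intro γ hγ
    obtain ⟨⟨h0, s, h2, h3, h4, h5⟩, h6, h7, h8⟩ := hA γ hγ
    rw [Finset.mem_image]
    refine ⟨s, ?_, h5⟩
    rw [Finset.mem_filter, H370.mem_Zf H370.good_zeta hT]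
    exact ⟨⟨h3, h4, by rw [h5]; exact h6, by rw [h5]; exact h7, h2⟩, by rw [h5]; exact h8⟩
  have h2 : (A.card : ℝ) ≤ (((H370.Zf riemannZeta T (2 * T)).filter (fun s => P s.im)).card : ℝ) := by
    exact_mod_cast (Finset.card_le_card h1).trans Finset.card_image_le
  refine h2.trans ?_
  rw [Finset.card_eq_sum_ones, Nat.cast_sum]
  refine Finset.sum_le_sum fun s hs => ?_
  rw [Finset.mem_filter, H370.mem_Zf H370.good_zeta hT] at hs
  have h3 : 1 ≤ mz s := H370.Loc.mult_pos' H370.good_zeta (by linarith [hs.1.2.2.1]) hs.1.2.2.2.2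
  exact_mod_cast h3

theorem card_le_nz {B : Finset ℝ} {t r : ℝ} (hB : ∀ γ ∈ B, Ordi γ ∧ |γ - t| ≤ r) : B.card ≤ nz t r := by
  classical
  have hfin := Pool.Agent.Q178.UM.ZF2.t_ZF2.1 t r
  unfold nz
  rw [finsum_mem_eq_finite_toFinset_sum _ hfin]
  have h1 : B ⊆ (hfin.toFinset.filter (fun s => 0 < s.im)).image Complex.im := by
    intro γ hγ
    obtain ⟨⟨h0, s, h2, h3, h4, h5⟩, h6⟩ := hB γ hγ
    rw [Finset.mem_image]
    refine ⟨s, ?_, h5⟩
    rw [Finset.mem_filter, Set.Finite.mem_toFinset]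
    exact ⟨⟨h2, h3, h4, by rw [h5]; exact h6⟩, by rw [h5]; exact h0⟩
  refine (Finset.card_le_card h1).trans (Finset.card_image_le.trans ?_)
  rw [Finset.card_eq_sum_ones]
  refine (Finset.sum_le_sum fun s hs => ?_).trans
    (Finset.sum_le_sum_of_subset (Finset.filter_subset (fun s : ℂ => 0 < s.im) hfin.toFinset))
  rw [Finset.mem_filter, Set.Finite.mem_toFinset] at hs
  exact H370.Loc.mult_pos' H370.good_zeta hs.2 hs.1.1

/-- the number of ordinates up to `X` -/
theorem ord_le : ∃ C : ℝ, 0 < C ∧ ∀ X : ℝ, 4 ≤ X → ∀ A : Finset ℝ, (∀ γ ∈ A, Ordi γ ∧ γ ≤ X) → (A.card : ℝ) ≤ C * (X * Real.log X) := by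
  classical
  obtain ⟨C, hC, h⟩ := H370.NN_crude H370.good_zeta
  -- the zeros up to height `8`
  have hfin := H370.zeta_zeros_finite 8
  obtain ⟨M, hM⟩ : ∃ M : ℕ, M = hfin.toFinset.card := ⟨_, rfl⟩
  have hsmall : ∀ A : Finset ℝ, (∀ γ ∈ A, Ordi γ ∧ γ ≤ 8) → A.card ≤ M := by
    intro A hA
    have h1 : A ⊆ hfin.toFinset.image Complex.im := by
      intro γ hγ
      obtain ⟨⟨h0, s, h2, h3, h4, h5⟩, h6⟩ := hA γ hγ
      rw [Finset.mem_image]
      refine ⟨s, ?_, h5⟩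
      rw [Set.Finite.mem_toFinset]
      exact ⟨h3, h4, by rw [h5]; exact h0, by rw [h5]; exact h6, h2⟩
    rw [hM]
    exact (Finset.card_le_card h1).trans Finset.card_image_le
  have hlog4 : 1 ≤ Real.log 4 := by
    rw [Real.le_log_iff_exp_le (by norm_num)]
    have := Real.exp_one_lt_d9
    linarith
  have key : ∀ n : ℕ, ∀ X : ℝ, 4 ≤ X → X ≤ 8 * 2 ^ n → ∀ A : Finset ℝ, (∀ γ ∈ A, Ordi γ ∧ γ ≤ X) →
      (A.card : ℝ) ≤ M + C * (X * Real.log X) := by
    intro n
    induction n with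
    | zero =>
      intro X hX hX2 A hA
      have h1 := hsmall A fun γ hγ => ⟨(hA γ hγ).1, (hA γ hγ).2.trans (by simpa using hX2)⟩
      have h2 : (A.card : ℝ) ≤ M := by exact_mod_cast h1
      have h3 : 0 ≤ C * (X * Real.log X) := by
        have : 0 ≤ Real.log X := Real.log_nonneg (by linarith)
        positivity
      linarith
    | succ n ih =>
      intro X hX hX2 A hA
      have hlX : 0 ≤ Real.log X := Real.log_nonneg (by linarith)
      rcases le_or_gt X 8 with h8 | h8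
      · have h1 := hsmall A fun γ hγ => ⟨(hA γ hγ).1, (hA γ hγ).2.trans h8⟩
        have h2 : (A.card : ℝ) ≤ M := by exact_mod_cast h1
        have h3 : 0 ≤ C * (X * Real.log X) := by positivity
        linarith
      · have h1 := ih (X / 2) (by linarith) (by rw [pow_succ] at hX2; linarith) (A.filter (fun γ => γ ≤ X / 2))
          (fun γ hγ => by rw [Finset.mem_filter] at hγ; exact ⟨(hA γ hγ.1).1, hγ.2⟩)
        have h2 : ((A.filter (fun γ => ¬ γ ≤ X / 2)).card : ℝ) ≤ C * (X / 2 * Real.log (X / 2)) := by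
          have h3 := card_le_sum (A := A.filter (fun γ => ¬ γ ≤ X / 2)) (T := X / 2) (P := fun _ => True) (by linarith)
            (fun γ hγ => by
              rw [Finset.mem_filter, not_le] at hγ
              have := (hA γ hγ.1)
              exact ⟨this.1, hγ.2, by linarith [this.2], trivial⟩)
          refine h3.trans ?_
          have h4 := h (X / 2) (by linarith) (X / 2) (2 * (X / 2)) le_rfl le_rfl
          rw [H370.NN_eq H370.good_zeta (by linarith), Nat.cast_sum] at h4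
          exact le_trans (Finset.sum_le_sum_of_subset_of_nonneg (Finset.filter_subset _ _) (fun _ _ _ => Nat.cast_nonneg _)) h4
        have h5 : (A.card : ℝ) = ((A.filter (fun γ => γ ≤ X / 2)).card : ℝ) + ((A.filter (fun γ => ¬ γ ≤ X / 2)).card : ℝ) := by
          exact_mod_cast (Finset.card_filter_add_card_filter_not (s := A) (fun γ => γ ≤ X / 2)).symm
        have h6 : Real.log (X / 2) ≤ Real.log X := Real.log_le_log (by linarith) (by linarith)
        rw [h5]
        have h7 : X / 2 * Real.log (X / 2) ≤ X / 2 * Real.log X := mul_le_mul_of_nonneg_left h6 (by linarith)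
        have h8 : C * (X / 2 * Real.log (X / 2)) ≤ C * (X / 2 * Real.log X) := mul_le_mul_of_nonneg_left h7 hC.le
        have h9 : C * (X / 2 * Real.log X) + C * (X / 2 * Real.log X) = C * (X * Real.log X) := by ring
        linarith
  refine ⟨M + C, by positivity, ?_⟩
  intro X hX A hA
  obtain ⟨n, hn⟩ := pow_unbounded_of_one_lt X (one_lt_two)
  have h1 := key n X hX (by have : (0 : ℝ) < 2 ^ n := by positivity
                            linarith) A hA
  have h2 : Real.log 4 ≤ Real.log X := Real.log_le_log (by norm_num) hX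
  have h3 : 1 ≤ X * Real.log X := by nlinarith
  have h4 : (M : ℝ) ≤ M * (X * Real.log X) := by
    have : (0 : ℝ) ≤ M := Nat.cast_nonneg M
    nlinarith
  linarith

/-- ordinates in one dyadic interval: most of them are not in clusters -/
theorem clusters : ∃ c C T₀ : ℝ, 0 < c ∧ 0 ≤ C ∧ ∀ T : ℝ, T₀ ≤ T → ∀ (k : ℕ) (A : Finset ℝ),
    (∀ γ ∈ A, Ordi γ ∧ T < γ ∧ γ ≤ 2 * T ∧ k ≤ nz γ (1 / Real.log T)) → (A.card : ℝ) ≤ C * Real.exp (-(c * k)) * (T * Real.log T) := by
  classical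
  obtain ⟨θ, c, C, hθ, hθ1, hc, hC, hev⟩ := Pool.Agent.Q16.UM9.t_CLU Pool.Agent.Q84.UM.t_DPM Pool.Agent.Q84.UM.t_MVL
    Pool.Agent.Q178.UM.ZF2.t_ZF2 Pool.Agent.Q97.UM.b_TAIL
  obtain ⟨T₁, hT₁⟩ := eventually_atTop.1 hev
  refine ⟨c, C, max T₁ 1, hc, hC, ?_⟩
  intro T hT k A hA
  have hT1 : 1 ≤ T := (le_max_right _ _).trans hT
  have h1 := hT₁ T ((le_max_left _ _).trans hT) 1 (by rw [Nat.cast_one]; exact Real.one_le_rpow hT1 hθ.le) (fun _ => 1) k
  have h8 : ∀ t : ℝ, dp 1 (fun _ => 1) t = 1 := by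
    intro t
    unfold dp
    simp
  have h9 : N2 1 (fun _ => 1) = 1 := by
    unfold N2
    simp
  simp only [h8, h9, norm_one, one_pow, mul_one] at h1
  refine (card_le_sum (P := fun γ => k ≤ nz γ (1 / Real.log T)) hT1 hA).trans (h1.trans (le_of_eq ?_))
  ring

open Classical in
/-- a dense set of ordinates contains a dense and sparse set -/
theorem extract (η : ℝ) (hη : 0 < η) : ∃ K η' T₀ : ℝ, 1 ≤ K ∧ 0 < η' ∧ ∀ T : ℝ, T₀ ≤ T → ∀ A : Finset ℝ,
    (∀ γ ∈ A, Ordi γ ∧ γ ≤ T) → η * T * Real.log T ≤ A.card → ∃ A' ⊆ A, η' * T * Real.log T ≤ A'.card ∧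
      ∀ u : ℝ, ((A'.filter (fun x => u ≤ x ∧ x ≤ u + 1 / Real.log T)).card : ℝ) ≤ K := by
  obtain ⟨C, hC, hord⟩ := ord_le
  obtain ⟨c, C₁, T₁, hc, hC₁, hclu⟩ := clusters
  -- the number of dyadic intervals
  obtain ⟨n, hn⟩ : ∃ n : ℕ, 2 * C / η < 2 ^ n := pow_unbounded_of_one_lt _ one_lt_two
  have h2n : (0 : ℝ) < 2 ^ n := by positivity
  -- the cluster size
  have hexp : Tendsto (fun k : ℕ => C₁ * Real.exp (-(c * k))) atTop (𝓝 0) := by
    have h1 : Tendsto (fun k : ℕ => c * (k : ℝ)) atTop atTop := tendsto_natCast_atTop_atTop.const_mul_atTop hc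
    have h2 := (Real.tendsto_exp_neg_atTop_nhds_zero.comp h1).const_mul C₁
    rw [mul_zero] at h2
    exact h2
  obtain ⟨k, hk⟩ : ∃ k : ℕ, C₁ * Real.exp (-(c * k)) ≤ η / (8 * (n + 1)) :=
    ((hexp.eventually (ge_mem_nhds (show (0 : ℝ) < η / (8 * (n + 1)) by positivity))).exists)
  refine ⟨k + 1, η / (8 * (n + 1)), max (4 * 2 ^ n) (2 * 2 ^ n * max T₁ 3), by
    have : (0 : ℝ) ≤ k := Nat.cast_nonneg k
    linarith, by positivity, ?_⟩
  intro T hT A hA hcard
  have hT4 : 4 * 2 ^ n ≤ T := (le_max_left _ _).trans hT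
  have hTm : 2 * 2 ^ n * max T₁ 3 ≤ T := (le_max_right _ _).trans hT
  have h1n : (1 : ℝ) ≤ 2 ^ n := one_le_pow₀ (by norm_num)
  have hT0 : 4 ≤ T := by linarith
  have hL0 : 0 < Real.log T := Real.log_pos (by linarith)
  have hTL : 0 < T * Real.log T := by positivity
  -- the low part
  have hlow : ((A.filter (fun γ => γ ≤ T / 2 ^ n)).card : ℝ) ≤ 1 / 2 * A.card := by
    have h1 := hord (T / 2 ^ n) (by rw [le_div_iff₀ h2n]; exact hT4) (A.filter (fun γ => γ ≤ T / 2 ^ n))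
      (fun γ hγ => by rw [Finset.mem_filter] at hγ; exact ⟨(hA γ hγ.1).1, hγ.2⟩)
    have h2 : Real.log (T / 2 ^ n) ≤ Real.log T := Real.log_le_log (by positivity) (div_le_self (by linarith) h1n)
    have h3 : C / 2 ^ n ≤ η / 2 := by
      rw [div_le_iff₀ h2n]
      rw [div_lt_iff₀ hη] at hn
      linarith
    calc ((A.filter (fun γ => γ ≤ T / 2 ^ n)).card : ℝ) ≤ C * (T / 2 ^ n * Real.log (T / 2 ^ n)) := h1
      _ ≤ C * (T / 2 ^ n * Real.log T) := by gcongr
      _ = C / 2 ^ n * (T * Real.log T) := by ring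
      _ ≤ η / 2 * (T * Real.log T) := mul_le_mul_of_nonneg_right h3 hTL.le
      _ ≤ 1 / 2 * A.card := by linarith
  have hsplit : (A.card : ℝ) = ((A.filter (fun γ => γ ≤ T / 2 ^ n)).card : ℝ) + ((A.filter (fun γ => ¬ γ ≤ T / 2 ^ n)).card : ℝ) := by
    exact_mod_cast (Finset.card_filter_add_card_filter_not (s := A) (fun γ => γ ≤ T / 2 ^ n)).symm
  obtain ⟨H, hH⟩ : ∃ H, H = A.filter (fun γ => ¬ γ ≤ T / 2 ^ n) := ⟨_, rfl⟩
  rw [← hH] at hsplit
  have hHc : 1 / 2 * (η * T * Real.log T) ≤ H.card := by linarith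
  -- the dyadic pieces
  have hcov : H ⊆ (Finset.range (n + 1)).biUnion (fun j => H.filter (fun γ => T / 2 ^ (j + 1) < γ ∧ γ ≤ 2 * (T / 2 ^ (j + 1)))) := by
    intro γ hγ
    have hγ2 := hγ
    rw [hH, Finset.mem_filter, not_le] at hγ2
    obtain ⟨hγA, hγn⟩ := hγ2
    have hγT := (hA γ hγA).2
    have hγ0 : 0 < γ := (hA γ hγA).1.1
    have hex : ∃ j : ℕ, T / 2 ^ (j + 1) < γ := ⟨n, by
      refine lt_of_le_of_lt ?_ hγn
      exact div_le_div_of_nonneg_left (by linarith) h2n (pow_le_pow_right₀ (by norm_num) (by omega))⟩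
    obtain ⟨j, hj⟩ : ∃ j, j = Nat.find hex := ⟨_, rfl⟩
    have hj1 : T / 2 ^ (j + 1) < γ := by rw [hj]; exact Nat.find_spec hex
    have hjn : j ≤ n := by
      rw [hj]
      exact Nat.find_le (by
        refine lt_of_le_of_lt ?_ hγn
        exact div_le_div_of_nonneg_left (by linarith) h2n (pow_le_pow_right₀ (by norm_num) (by omega)))
    have hj2 : γ ≤ 2 * (T / 2 ^ (j + 1)) := by
      have e : 2 * (T / 2 ^ (j + 1)) = T / 2 ^ j := by
        rw [pow_succ]
        field_simp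
      rw [e]
      rcases Nat.eq_zero_or_pos j with h0 | h0
      · rw [h0, pow_zero, div_one]
        exact hγT
      · have h1 := Nat.find_min hex (m := j - 1) (by omega)
        rw [not_lt, Nat.sub_add_cancel h0] at h1
        exact h1
    rw [Finset.mem_biUnion]
    exact ⟨j, Finset.mem_range.2 (by omega), Finset.mem_filter.2 ⟨hγ, hj1, hj2⟩⟩
  obtain ⟨j, hj, hjc⟩ : ∃ j ∈ Finset.range (n + 1), (H.card : ℝ) / (n + 1) ≤
      ((H.filter (fun γ => T / 2 ^ (j + 1) < γ ∧ γ ≤ 2 * (T / 2 ^ (j + 1)))).card : ℝ) := by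
    by_contra hcon
    push Not at hcon
    have h1 : (H.card : ℝ) ≤ ∑ j ∈ Finset.range (n + 1), ((H.filter (fun γ => T / 2 ^ (j + 1) < γ ∧ γ ≤ 2 * (T / 2 ^ (j + 1)))).card : ℝ) := by
      exact_mod_cast (Finset.card_le_card hcov).trans Finset.card_biUnion_le
    have h2 := Finset.sum_lt_sum_of_nonempty (⟨0, Finset.mem_range.2 (by omega)⟩ : (Finset.range (n + 1)).Nonempty) hcon
    rw [Finset.sum_const, Finset.card_range, nsmul_eq_mul] at h2
    push_cast at h2
    have h3 : ((n : ℝ) + 1) * ((H.card : ℝ) / (n + 1)) = H.card := by field_simp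
    rw [h3] at h2
    linarith
  obtain ⟨Tj, hTj⟩ : ∃ Tj, Tj = T / 2 ^ (j + 1) := ⟨_, rfl⟩
  rw [← hTj] at hjc
  obtain ⟨G, hG⟩ : ∃ G, G = H.filter (fun γ => Tj < γ ∧ γ ≤ 2 * Tj) := ⟨_, rfl⟩
  rw [← hG] at hjc
  have hpj : (2 : ℝ) ^ (j + 1) ≤ 2 * 2 ^ n := by
    rw [← pow_succ']
    rw [Finset.mem_range] at hj
    exact pow_le_pow_right₀ (by norm_num) (by omega)
  have hTj1 : max T₁ 3 ≤ Tj := by
    rw [hTj, le_div_iff₀ (by positivity)]
    have h3 : (0 : ℝ) < max T₁ 3 := lt_of_lt_of_le (by norm_num) (le_max_right _ _)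
    calc max T₁ 3 * 2 ^ (j + 1) ≤ max T₁ 3 * (2 * 2 ^ n) := mul_le_mul_of_nonneg_left hpj h3.le
      _ ≤ T := by linarith
  have hTjT : Tj ≤ T := by
    rw [hTj]
    exact div_le_self (by linarith) (one_le_pow₀ (by norm_num))
  have hTj3 : 3 ≤ Tj := (le_max_right _ _).trans hTj1
  have hLj : 0 < Real.log Tj := Real.log_pos (by linarith)
  have hlog : Real.log Tj ≤ Real.log T := Real.log_le_log (by linarith) hTjT
  have hGord : ∀ γ ∈ G, Ordi γ ∧ Tj < γ ∧ γ ≤ 2 * Tj := by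
    intro γ hγ
    rw [hG, Finset.mem_filter] at hγ
    have h1 := hγ.1
    rw [hH, Finset.mem_filter] at h1
    exact ⟨(hA γ h1.1).1, hγ.2⟩
  have hbad := hclu Tj ((le_max_left _ _).trans hTj1) k (G.filter (fun γ => k ≤ nz γ (1 / Real.log Tj))) (fun γ hγ => by
    rw [Finset.mem_filter] at hγ
    exact ⟨(hGord γ hγ.1).1, (hGord γ hγ.1).2.1, (hGord γ hγ.1).2.2, hγ.2⟩)
  have hbad2 : ((G.filter (fun γ => k ≤ nz γ (1 / Real.log Tj))).card : ℝ) ≤ η / (8 * (n + 1)) * (T * Real.log T) := by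
    refine hbad.trans ?_
    have : Tj * Real.log Tj ≤ T * Real.log T := mul_le_mul hTjT hlog hLj.le (by linarith)
    exact mul_le_mul hk this (by positivity) (by positivity)
  have hGsplit : (G.card : ℝ) = ((G.filter (fun γ => k ≤ nz γ (1 / Real.log Tj))).card : ℝ) +
      ((G.filter (fun γ => ¬ k ≤ nz γ (1 / Real.log Tj))).card : ℝ) := by
    exact_mod_cast (Finset.card_filter_add_card_filter_not (s := G) (fun γ => k ≤ nz γ (1 / Real.log Tj))).symm
  refine ⟨G.filter (fun γ => ¬ k ≤ nz γ (1 / Real.log Tj)), ?_, ?_, ?_⟩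
  · intro γ hγ
    rw [Finset.mem_filter] at hγ
    have h1 := hγ.1
    rw [hG, Finset.mem_filter] at h1
    have h2 := h1.1
    rw [hH, Finset.mem_filter] at h2
    exact h2.1
  · have h1 : η / (2 * (n + 1)) * (T * Real.log T) ≤ G.card := by
      refine le_trans ?_ hjc
      rw [le_div_iff₀ (by positivity)]
      calc η / (2 * (n + 1)) * (T * Real.log T) * (n + 1) = 1 / 2 * (η * T * Real.log T) := by field_simp
        _ ≤ H.card := hHc
    have h2 : η / (2 * (n + 1)) = 4 * (η / (8 * (n + 1))) := by field_simp; norm_num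
    rw [h2] at h1
    have h3 : 0 ≤ η / (8 * (n + 1)) * (T * Real.log T) := by positivity
    rw [mul_assoc]
    linarith
  · intro u
    rcases ((G.filter (fun γ => ¬ k ≤ nz γ (1 / Real.log Tj))).filter (fun x => u ≤ x ∧ x ≤ u + 1 / Real.log T)).eq_empty_or_nonempty with he | ⟨γ₀, hγ₀⟩
    · rw [he, Finset.card_empty, Nat.cast_zero]
      have : (0 : ℝ) ≤ k := Nat.cast_nonneg k
      linarith
    · have h5 := card_le_nz (B := (G.filter (fun γ => ¬ k ≤ nz γ (1 / Real.log Tj))).filter (fun x => u ≤ x ∧ x ≤ u + 1 / Real.log T))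
        (t := γ₀) (r := 1 / Real.log Tj) (fun γ hγ => by
          rw [Finset.mem_filter, Finset.mem_filter] at hγ hγ₀
          refine ⟨(hGord γ hγ.1.1).1, ?_⟩
          have h6 : 1 / Real.log T ≤ 1 / Real.log Tj := one_div_le_one_div_of_le hLj hlog
          rw [abs_le]
          constructor <;> linarith [hγ.2.1, hγ.2.2, hγ₀.2.1, hγ₀.2.2])
      rw [Finset.mem_filter, Finset.mem_filter, not_le] at hγ₀
      have h7 : (((G.filter (fun γ => ¬ k ≤ nz γ (1 / Real.log Tj))).filter (fun x => u ≤ x ∧ x ≤ u + 1 / Real.log T)).card : ℝ) ≤ k := by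
        exact_mod_cast h5.trans hγ₀.1.2.le
      linarith

end

end Pool.Agent.V8H7.SM
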