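import Pool.Agent.V8H7.SM.FG

/-! Sums of multiples of ordinates and of the elements of other sets; linear forms in ordinates. -/

set_option autoImplicit false

open MeasureTheory Complex Filter Topology

namespace Pool.Agent.V8H7.SM

open Pool.Agent.H452R4.LI (dens)
open Pool.Agent.Q97.UM (nz)

noncomputable section

theorem ord_dens : ∃ C : ℝ, 0 < C ∧ ∀ (T : ℝ) (A : Finset ℝ), 3 ≤ T → (∀ γ ∈ A, Ordi γ ∧ γ ≤ T) → dens A (C * Real.log T) := by
  classical
  obtain ⟨C, hC, hcount⟩ := H370.zcount H370.good_zeta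
  have hfin := H370.zeta_zeros_finite 8
  obtain ⟨M, hM⟩ : ∃ M : ℕ, M = hfin.toFinset.card := ⟨_, rfl⟩
  refine ⟨2 * C + M + 1, by positivity, ?_⟩
  intro T A hT hA x
  have hlogT : 1 < Real.log T := by
    rw [Real.lt_log_iff_exp_lt (by linarith)]
    exact lt_of_lt_of_le (lt_trans Real.exp_one_lt_d9 (by norm_num)) hT
  have hM0 : (0 : ℝ) ≤ M := Nat.cast_nonneg _
  have hCL : 0 ≤ C * Real.log T := by positivity
  have hML : 0 ≤ M * Real.log T := by positivity
  rcases lt_or_ge x 3 with hx | hx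
  · have h1 : (A.filter (fun a => x ≤ a ∧ a < x + 1)) ⊆ hfin.toFinset.image Complex.im := by
      intro γ hγ
      rw [Finset.mem_filter] at hγ
      obtain ⟨⟨h0, s, h2, h3, h4, h5⟩, h6⟩ := hA γ hγ.1
      rw [Finset.mem_image]
      refine ⟨s, ?_, h5⟩
      rw [Set.Finite.mem_toFinset]
      exact ⟨h3, h4, by rw [h5]; exact h0, by rw [h5]; linarith [hγ.2.2], h2⟩
    have h2 : ((A.filter (fun a => x ≤ a ∧ a < x + 1)).card : ℝ) ≤ M := by
      rw [hM]
      exact_mod_cast (Finset.card_le_card h1).trans Finset.card_image_le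
    have h3 : (M : ℝ) * 1 ≤ M * Real.log T := mul_le_mul_of_nonneg_left hlogT.le hM0
    linarith
  · rcases lt_or_ge T x with hxT | hxT
    · have h1 : A.filter (fun a => x ≤ a ∧ a < x + 1) = ∅ := by
        apply Finset.filter_eq_empty_iff.2
        intro γ hγ h2
        linarith [(hA γ hγ).2, h2.1]
      rw [h1, Finset.card_empty, Nat.cast_zero]
      linarith
    · have hcnt := hcount (x + 1 / 2) (by linarith)
      have hT2 : (1 : ℝ) ≤ (x + 1 / 2) - 1 := by linarith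
      rw [H370.NN_eq_sum H370.good_zeta _ _ hT2] at hcnt
      have hsub : A.filter (fun a => x ≤ a ∧ a < x + 1) ⊆
          (H370.zset_finite H370.good_zeta ((x + 1 / 2) - 1) ((x + 1 / 2) + 1) hT2).toFinset.image Complex.im := by
        intro γ hγ
        rw [Finset.mem_filter] at hγ
        obtain ⟨⟨h0, s, h2, h3, h4, h5⟩, h6⟩ := hA γ hγ.1
        rw [Finset.mem_image]
        refine ⟨s, ?_, h5⟩
        rw [Set.Finite.mem_toFinset]
        exact ⟨h3, h4, by rw [h5]; linarith [hγ.2.1], by rw [h5]; linarith [hγ.2.2], h2⟩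
      have hcard : ((A.filter (fun a => x ≤ a ∧ a < x + 1)).card : ℝ) ≤
          ((∑ s ∈ (H370.zset_finite H370.good_zeta ((x + 1 / 2) - 1) ((x + 1 / 2) + 1) hT2).toFinset,
            H370.mult riemannZeta s : ℕ) : ℝ) := by
        refine Nat.cast_le.2 ((Finset.card_le_card hsub).trans (Finset.card_image_le.trans ?_))
        rw [Finset.card_eq_sum_ones]
        refine Finset.sum_le_sum fun s hs => ?_
        rw [Set.Finite.mem_toFinset] at hs
        exact H370.Loc.mult_pos' H370.good_zeta (by linarith [hs.2.2.1]) hs.2.2.2.2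
      refine hcard.trans (hcnt.trans ?_)
      have h10 : Real.log (x + 1 / 2) ≤ 2 * Real.log T := by
        have h11 : x + 1 / 2 ≤ T ^ 2 := by nlinarith
        calc Real.log (x + 1 / 2) ≤ Real.log (T ^ 2) := Real.log_le_log (by linarith) h11
          _ = 2 * Real.log T := by rw [Real.log_pow]; norm_num
      have h12 : C * Real.log (x + 1 / 2) ≤ C * (2 * Real.log T) := mul_le_mul_of_nonneg_left h10 hC.le
      linarith

open Classical in
theorem ord1 (r ε K η : ℝ) (hr : r ≠ 0) (hε : 0 < ε) (hη : 0 < η) : ∃ c κ T₀ : ℝ, 0 < c ∧ 0 < κ ∧ ∀ T : ℝ, T₀ ≤ T →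
    ∀ A : Finset ℝ, (∀ γ ∈ A, Ordi γ ∧ γ ≤ T) → η * T * Real.log T ≤ A.card → ∀ Z : Finset ℝ, (∀ z ∈ Z, |z| ≤ K * T) →
    (∀ z ∈ Z, ∀ z' ∈ Z, z ≠ z' → 1 ≤ |z - z'|) →
    (∀ z ∈ Z, ((A.filter (fun γ => Free (κ / Real.log T) (r * γ + z))).card : ℝ) < c * A.card) → (Z.card : ℝ) ≤ T ^ ε := by
  obtain ⟨K₁, η', T₁, hK₁, hη', hext⟩ := extract η hη
  obtain ⟨C, hC, hord⟩ := ord_le
  have hr0 : 0 < |r| := abs_pos.2 hr
  obtain ⟨n, hn⟩ : ∃ n : ℕ, 1 / |r| ≤ n := exists_nat_ge _
  obtain ⟨K₂, hK₂K, hK₂r, hK₂n, hK₂1⟩ : ∃ K₂ : ℝ, K ≤ K₂ ∧ |r| ≤ K₂ ∧ (n + 1) * K₁ ≤ K₂ ∧ 1 ≤ K₂ := by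
    refine ⟨|K| + |r| + (n + 1) * K₁ + 1, ?_, ?_, ?_, ?_⟩ <;>
    · have h1 := le_abs_self K
      have h2 := abs_nonneg K
      have h3 : 0 ≤ (n + 1) * K₁ := by positivity
      linarith
  obtain ⟨c₁, κ, T₂, hc₁, hκ, hgen⟩ := gen ε K₂ η' hε hK₂1 hη'
  refine ⟨c₁ * η' / C, κ, max T₁ (max T₂ 4), by positivity, hκ, ?_⟩
  intro T hT A hA hcA Z hZK hZs hbad
  have hTT₁ : T₁ ≤ T := (le_max_left _ _).trans hT
  have hTT₂ : T₂ ≤ T := (le_max_left _ _).trans ((le_max_right _ _).trans hT)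
  have hT4 : 4 ≤ T := (le_max_right _ _).trans ((le_max_right _ _).trans hT)
  have hL0 : 0 < Real.log T := Real.log_pos (by linarith)
  obtain ⟨A', hA'A, hA'c, hA's⟩ := hext T hTT₁ A hA hcA
  obtain ⟨B, hB⟩ : ∃ B : Finset ℝ, B = A'.image (fun γ => r * γ) := ⟨_, rfl⟩
  have hinj : Function.Injective (fun γ : ℝ => r * γ) := mul_right_injective₀ hr
  have hBc : B.card = A'.card := by rw [hB]; exact Finset.card_image_of_injective _ hinj
  refine hgen T hTT₂ B ?_ ?_ (by rw [hBc]; exact hA'c) Z (fun z hz => (hZK z hz).trans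
    (mul_le_mul_of_nonneg_right hK₂K (by linarith))) hZs ?_
  · intro x hx
    rw [hB, Finset.mem_image] at hx
    obtain ⟨γ, hγ, rfl⟩ := hx
    obtain ⟨⟨h0, -⟩, h1⟩ := hA γ (hA'A hγ)
    rw [abs_mul, abs_of_pos h0]
    exact mul_le_mul hK₂r h1 h0.le (by linarith)
  · intro u
    -- the starting point of the interval for `γ`
    obtain ⟨v, hv⟩ : ∃ v : ℝ, ∀ γ : ℝ, u ≤ r * γ → r * γ ≤ u + 1 / Real.log T → v ≤ γ ∧ γ ≤ v + 1 / |r| * (1 / Real.log T) := by
      rcases lt_or_gt_of_ne hr with hneg | hpos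
      · refine ⟨(u + 1 / Real.log T) / r, fun γ h1 h2 => ⟨?_, ?_⟩⟩
        · rw [div_le_iff_of_neg hneg]
          linarith
        · rw [abs_of_neg hneg]
          have h3 : (u + 1 / Real.log T) / r + 1 / -r * (1 / Real.log T) = u / r := by
            field_simp
            ring
          rw [h3, le_div_iff_of_neg hneg]
          linarith
      · refine ⟨u / r, fun γ h1 h2 => ⟨?_, ?_⟩⟩
        · rw [div_le_iff₀ hpos]
          linarith
        · rw [abs_of_pos hpos]
          have h3 : u / r + 1 / r * (1 / Real.log T) = (u + 1 / Real.log T) / r := by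
            field_simp
          rw [h3, le_div_iff₀ hpos]
          linarith
    have h1 := count_cover (A := A') (h := 1 / Real.log T) (K := K₁) (by positivity) n hA's v
    refine le_trans ?_ (h1.trans hK₂n)
    refine Nat.cast_le.2 ?_
    have h2 : B.filter (fun x => u ≤ x ∧ x ≤ u + 1 / Real.log T) ⊆
        (A'.filter (fun x => v ≤ x ∧ x ≤ v + n * (1 / Real.log T))).image (fun γ => r * γ) := by
      intro x hx
      rw [Finset.mem_filter, hB, Finset.mem_image] at hx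
      obtain ⟨⟨γ, hγ, rfl⟩, h3, h4⟩ := hx
      rw [Finset.mem_image]
      refine ⟨γ, Finset.mem_filter.2 ⟨hγ, (hv γ h3 h4).1, (hv γ h3 h4).2.trans ?_⟩, rfl⟩
      have : 1 / |r| * (1 / Real.log T) ≤ n * (1 / Real.log T) := mul_le_mul_of_nonneg_right hn (by positivity)
      linarith
    exact (Finset.card_le_card h2).trans Finset.card_image_le
  · intro z hz
    have h1 := hbad z hz
    have h2 : ((B.filter (fun x => Free (κ / Real.log T) (x + z))).card : ℝ) ≤
        ((A.filter (fun γ => Free (κ / Real.log T) (r * γ + z))).card : ℝ) := by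
      refine Nat.cast_le.2 ?_
      have h3 : B.filter (fun x => Free (κ / Real.log T) (x + z)) ⊆
          (A.filter (fun γ => Free (κ / Real.log T) (r * γ + z))).image (fun γ => r * γ) := by
        intro x hx
        rw [Finset.mem_filter, hB, Finset.mem_image] at hx
        obtain ⟨⟨γ, hγ, rfl⟩, h4⟩ := hx
        exact Finset.mem_image.2 ⟨γ, Finset.mem_filter.2 ⟨hA'A hγ, h4⟩, rfl⟩
      exact (Finset.card_le_card h3).trans Finset.card_image_le
    have h5 := hord T hT4 A hA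
    have h6 : c₁ * η' / C * A.card ≤ c₁ * (η' * T * Real.log T) := by
      calc c₁ * η' / C * A.card ≤ c₁ * η' / C * (C * (T * Real.log T)) := mul_le_mul_of_nonneg_left h5 (by positivity)
        _ = c₁ * (η' * T * Real.log T) := by field_simp
    have h7 : c₁ * (η' * T * Real.log T) ≤ c₁ * A'.card := mul_le_mul_of_nonneg_left hA'c hc₁.le
    rw [hBc]
    linarith

/-- separated points from the floors -/
theorem floors_le {W : Finset ℝ} {N : ℝ}
    (h : ∀ Z ⊆ W, (∀ z ∈ Z, ∀ z' ∈ Z, z ≠ z' → 1 ≤ |z - z'|) → (Z.card : ℝ) ≤ N) :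
    ((W.image (fun w => ⌊w⌋)).card : ℝ) ≤ 2 * N := by
  classical
  have hex : ∀ f : ℤ, ∃ w : ℝ, f ∈ W.image (fun w => ⌊w⌋) → w ∈ W ∧ ⌊w⌋ = f := by
    intro f
    by_cases hf : f ∈ W.image (fun w => ⌊w⌋)
    · obtain ⟨w, hw, hwf⟩ := Finset.mem_image.1 hf
      exact ⟨w, fun _ => ⟨hw, hwf⟩⟩
    · exact ⟨0, fun h => absurd h hf⟩
  choose g hg using hex
  obtain ⟨F, hF⟩ : ∃ F, F = W.image (fun w => ⌊w⌋) := ⟨_, rfl⟩
  rw [← hF] at hg ⊢
  have key : ∀ G ⊆ F, (∀ a ∈ G, ∀ b ∈ G, a ≠ b → 2 ≤ |a - b|) → (G.card : ℝ) ≤ N := by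
    intro G hG hsep
    have h1 : (G.image g).card = G.card := by
      refine Finset.card_image_of_injOn fun a ha b hb hab => ?_
      have h2 := (hg a (hG ha)).2
      have h3 := (hg b (hG hb)).2
      rw [← h2, ← h3]
      exact congrArg _ hab
    rw [← h1]
    refine h _ ?_ ?_
    · intro w hw
      obtain ⟨a, ha, rfl⟩ := Finset.mem_image.1 hw
      exact (hg a (hG ha)).1
    · intro z hz z' hz' hne
      obtain ⟨a, ha, rfl⟩ := Finset.mem_image.1 hz
      obtain ⟨b, hb, rfl⟩ := Finset.mem_image.1 hz'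
      have hab : a ≠ b := fun h => hne (by rw [h])
      have h2 := hsep a ha b hb hab
      have h3 := Int.floor_le (g a)
      have h4 := Int.lt_floor_add_one (g a)
      have h5 := Int.floor_le (g b)
      have h6 := Int.lt_floor_add_one (g b)
      rw [(hg a (hG ha)).2] at h3 h4
      rw [(hg b (hG hb)).2] at h5 h6
      rcases le_abs.1 h2 with h7 | h7
      · have h8 : (2 : ℝ) ≤ (a : ℝ) - b := by exact_mod_cast h7
        exact le_abs.2 (Or.inl (by linarith))
      · have h8 : (2 : ℝ) ≤ -((a : ℝ) - b) := by exact_mod_cast h7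
        exact le_abs.2 (Or.inr (by linarith))
  have h1 := key (F.filter (fun a => Even a)) (Finset.filter_subset _ _) (by
    intro a ha b hb hab
    rw [Finset.mem_filter] at ha hb
    obtain ⟨a', ha'⟩ := ha.2
    obtain ⟨b', hb'⟩ := hb.2
    rw [le_abs]
    omega)
  have h2 := key (F.filter (fun a => ¬ Even a)) (Finset.filter_subset _ _) (by
    intro a ha b hb hab
    rw [Finset.mem_filter, Int.not_even_iff_odd] at ha hb
    obtain ⟨a', ha'⟩ := ha.2
    obtain ⟨b', hb'⟩ := hb.2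
    rw [le_abs]
    omega)
  have h3 : (F.card : ℝ) = ((F.filter (fun a => Even a)).card : ℝ) + ((F.filter (fun a => ¬ Even a)).card : ℝ) := by
    exact_mod_cast (Finset.card_filter_add_card_filter_not (s := F) (fun a => Even a)).symm
  linarith

open Classical in
theorem ord_prod (r ε K η : ℝ) (hr : r ≠ 0) (hε : 0 < ε) (hη : 0 < η) : ∃ c κ T₀ : ℝ, 0 < c ∧ 0 < κ ∧ ∀ T : ℝ, T₀ ≤ T →
    ∀ A : Finset ℝ, (∀ γ ∈ A, Ordi γ ∧ γ ≤ T) → η * T * Real.log T ≤ A.card → ∀ (ι : Type) (S : Finset ι) (g : ι → ℝ),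
    (∀ s ∈ S, |g s| ≤ K * T) → (∀ u : ℝ, ((S.filter (fun s => u ≤ g s ∧ g s < u + 1)).card : ℝ) ≤ S.card / T ^ ε) →
    c * (A.card * S.card) ≤ (((A ×ˢ S).filter (fun p => Free (κ / Real.log T) (r * p.1 + g p.2))).card : ℝ) := by
  obtain ⟨c, κ, T₁, hc, hκ, h⟩ := ord1 r (ε / 2) K η hr (by positivity) hη
  have hbig : ∀ᶠ T : ℝ in atTop, 4 ≤ T ^ (ε / 2) := (tendsto_rpow_atTop (by positivity)).eventually_ge_atTop _
  obtain ⟨T₂, hT₂⟩ := eventually_atTop.1 hbig
  refine ⟨c / 2, κ, max T₁ (max T₂ 1), by positivity, hκ, ?_⟩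
  intro T hT A hA hcA ι S g hgK hgu
  have hTT₁ : T₁ ≤ T := (le_max_left _ _).trans hT
  have h4 : 4 ≤ T ^ (ε / 2) := hT₂ T ((le_max_left _ _).trans ((le_max_right _ _).trans hT))
  have hT1 : 1 ≤ T := (le_max_right _ _).trans ((le_max_right _ _).trans hT)
  have hT0 : 0 < T := by linarith
  obtain ⟨Bd, hBd⟩ : ∃ Bd : ι → Prop, Bd = fun s => ((A.filter (fun γ => Free (κ / Real.log T) (r * γ + g s))).card : ℝ) < c * A.card :=
    ⟨_, rfl⟩
  obtain ⟨W, hW⟩ : ∃ W : Finset ℝ, W = (S.filter Bd).image g := ⟨_, rfl⟩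
  have hfl : ((W.image (fun w => ⌊w⌋)).card : ℝ) ≤ 2 * T ^ (ε / 2) := by
    refine floors_le fun Z hZ hZs => ?_
    refine h T hTT₁ A hA hcA Z (fun z hz => ?_) hZs (fun z hz => ?_)
    · have := hZ hz
      rw [hW, Finset.mem_image] at this
      obtain ⟨s, hs, rfl⟩ := this
      exact hgK s (Finset.mem_filter.1 hs).1
    · have := hZ hz
      rw [hW, Finset.mem_image] at this
      obtain ⟨s, hs, rfl⟩ := this
      have h5 := (Finset.mem_filter.1 hs).2
      rw [hBd] at h5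
      exact h5
  have hbadc : ((S.filter Bd).card : ℝ) ≤ 1 / 2 * S.card := by
    have h5 : (S.filter Bd).card = ∑ f ∈ W.image (fun w => ⌊w⌋), ((S.filter Bd).filter (fun s => ⌊g s⌋ = f)).card := by
      refine Finset.card_eq_sum_card_fiberwise fun s hs => ?_
      rw [Finset.mem_coe, Finset.mem_image]
      exact ⟨g s, by rw [hW]; exact Finset.mem_image_of_mem g hs, rfl⟩
    have h6 : ((S.filter Bd).card : ℝ) ≤ ∑ _f ∈ W.image (fun w => ⌊w⌋), (S.card : ℝ) / T ^ ε := by
      rw [h5, Nat.cast_sum]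
      refine Finset.sum_le_sum fun f _ => le_trans (Nat.cast_le.2 (Finset.card_le_card ?_)) (hgu f)
      intro s hs
      rw [Finset.mem_filter, Finset.mem_filter] at hs
      rw [Finset.mem_filter]
      refine ⟨hs.1.1, ?_, ?_⟩
      · rw [← hs.2]
        exact Int.floor_le _
      · rw [← hs.2]
        exact Int.lt_floor_add_one _
    rw [Finset.sum_const, nsmul_eq_mul] at h6
    refine h6.trans ?_
    have h7 : T ^ ε = T ^ (ε / 2) * T ^ (ε / 2) := by
      rw [← Real.rpow_add hT0]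
      ring_nf
    have h8 : 0 ≤ (S.card : ℝ) / T ^ ε := by positivity
    calc ((W.image (fun w => ⌊w⌋)).card : ℝ) * ((S.card : ℝ) / T ^ ε) ≤ (2 * T ^ (ε / 2)) * ((S.card : ℝ) / T ^ ε) :=
          mul_le_mul_of_nonneg_right hfl h8
      _ = 2 / T ^ (ε / 2) * S.card := by
          rw [h7]
          field_simp
      _ ≤ 1 / 2 * S.card := by
          refine mul_le_mul_of_nonneg_right ?_ (Nat.cast_nonneg _)
          rw [div_le_iff₀ (by positivity)]
          linarith
  have hsplit : (S.card : ℝ) = ((S.filter Bd).card : ℝ) + ((S.filter (fun s => ¬ Bd s)).card : ℝ) := by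
    exact_mod_cast (Finset.card_filter_add_card_filter_not (s := S) Bd).symm
  have hgood : 1 / 2 * (S.card : ℝ) ≤ ((S.filter (fun s => ¬ Bd s)).card : ℝ) := by linarith
  have h9 : (((A ×ˢ S).filter (fun p => Free (κ / Real.log T) (r * p.1 + g p.2))).card : ℝ) =
      ∑ s ∈ S, ((A.filter (fun γ => Free (κ / Real.log T) (r * γ + g s))).card : ℝ) := by
    rw [Finset.card_filter, Finset.sum_product_right, Nat.cast_sum]
    refine Finset.sum_congr rfl fun s _ => ?_
    rw [Finset.card_filter]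
  rw [h9]
  calc c / 2 * ((A.card : ℝ) * S.card) = (1 / 2 * (S.card : ℝ)) * (c * A.card) := by ring
    _ ≤ ((S.filter (fun s => ¬ Bd s)).card : ℝ) * (c * A.card) := mul_le_mul_of_nonneg_right hgood (by positivity)
    _ = ∑ _s ∈ S.filter (fun s => ¬ Bd s), c * A.card := by rw [Finset.sum_const, nsmul_eq_mul]
    _ ≤ ∑ s ∈ S.filter (fun s => ¬ Bd s), ((A.filter (fun γ => Free (κ / Real.log T) (r * γ + g s))).card : ℝ) := by
        refine Finset.sum_le_sum fun s hs => ?_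
        have h5 := (Finset.mem_filter.1 hs).2
        rw [hBd, not_lt] at h5
        exact h5
    _ ≤ _ := Finset.sum_le_sum_of_subset_of_nonneg (Finset.filter_subset _ _) (fun _ _ _ => Nat.cast_nonneg _)

open Classical in
theorem ord2 (m : ℕ) (a : Fin m → ℝ) (K η : ℝ) (hm : 2 ≤ m) (ha : ∀ i, a i ≠ 0) (hη : 0 < η) :
    ∃ c κ T₀ : ℝ, 0 < c ∧ 0 < κ ∧ ∀ T : ℝ, T₀ ≤ T → ∀ A : Fin m → Finset ℝ, (∀ i, ∀ γ ∈ A i, Ordi γ ∧ γ ≤ T) →
    (∀ i, η * T * Real.log T ≤ (A i).card) → ∀ h : ℝ, |h| ≤ K * T →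
    c * ∏ i, ((A i).card : ℝ) ≤
      (((Fintype.piFinset A).filter (fun x => Free (κ / Real.log T) (∑ i, a i * x i + h))).card : ℝ) := by
  obtain ⟨i0, i1, h01⟩ : ∃ i0 i1 : Fin m, i0 ≠ i1 := ⟨⟨0, by omega⟩, ⟨1, by omega⟩, by simp⟩
  obtain ⟨K', hK'⟩ : ∃ K' : ℝ, K' = ∑ i, |a i| + K := ⟨_, rfl⟩
  obtain ⟨c, κ, T₁, hc, hκ, hp⟩ := ord_prod (a i0) (1 / 2) K' η (ha i0) (by norm_num) hη
  obtain ⟨C, hC, hdens⟩ := ord_dens
  obtain ⟨D, hD⟩ : ∃ D : ℝ, D = C * (1 / |a i1| + 1) := ⟨_, rfl⟩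
  have hbig : ∀ᶠ T : ℝ in atTop, D / η ≤ T ^ (1 / 2 : ℝ) := (tendsto_rpow_atTop (by norm_num)).eventually_ge_atTop _
  obtain ⟨T₂, hT₂⟩ := eventually_atTop.1 hbig
  refine ⟨c, κ, max T₁ (max T₂ 3), hc, hκ, ?_⟩
  intro T hT A hA hcA h hh
  have hTT₁ : T₁ ≤ T := (le_max_left _ _).trans hT
  have hTD : D / η ≤ T ^ (1 / 2 : ℝ) := hT₂ T ((le_max_left _ _).trans ((le_max_right _ _).trans hT))
  have hT3 : 3 ≤ T := (le_max_right _ _).trans ((le_max_right _ _).trans hT)
  have hT0 : 0 < T := by linarith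
  have hL0 : 0 < Real.log T := Real.log_pos (by linarith)
  obtain ⟨f, hf⟩ : ∃ f : (Fin m → ℝ) → ℝ, f = fun x => if Free (κ / Real.log T) (∑ i, a i * x i + h) then 1 else 0 := ⟨_, rfl⟩
  have havg := Pool.Agent.H452R4.LI.CORaux.avg A i0 i1 h01 f
  have hfsum : (((Fintype.piFinset A).filter (fun x => Free (κ / Real.log T) (∑ i, a i * x i + h))).card : ℝ) =
      ∑ x ∈ Fintype.piFinset A, f x := by
    rw [hf, Finset.card_filter, Nat.cast_sum]
    refine Finset.sum_congr rfl fun x _ => ?_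
    by_cases hF : Free (κ / Real.log T) (∑ i, a i * x i + h) <;> simp [hF]
  have hpos : ∀ i, 0 < ((A i).card : ℝ) := fun i => lt_of_lt_of_le (by positivity) (hcA i)
  have hin : ∀ x ∈ Fintype.piFinset A, c * (((A i0).card : ℝ) * ((A i1).card : ℝ)) ≤
      ∑ p ∈ A i0 ×ˢ A i1, f (Function.update (Function.update x i0 p.1) i1 p.2) := by
    intro x hx
    rw [Fintype.mem_piFinset] at hx
    obtain ⟨w, hw⟩ : ∃ w : ℝ, w = ∑ i ∈ (Finset.univ.erase i1).erase i0, a i * x i + h := ⟨_, rfl⟩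
    have hform : ∀ p : ℝ × ℝ, ∑ i, a i * (Function.update (Function.update x i0 p.1) i1 p.2) i + h =
        a i0 * p.1 + (a i1 * p.2 + w) := by
      intro p
      rw [← Finset.add_sum_erase _ _ (Finset.mem_univ i1),
        ← Finset.add_sum_erase _ _ (Finset.mem_erase.2 ⟨h01, Finset.mem_univ i0⟩), Function.update_self,
        Function.update_of_ne h01, Function.update_self, hw]
      have : ∑ i ∈ (Finset.univ.erase i1).erase i0, a i * (Function.update (Function.update x i0 p.1) i1 p.2) i =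
          ∑ i ∈ (Finset.univ.erase i1).erase i0, a i * x i := by
        refine Finset.sum_congr rfl fun i hi => ?_
        rw [Finset.mem_erase, Finset.mem_erase] at hi
        rw [Function.update_of_ne hi.2.1, Function.update_of_ne hi.1]
      rw [this]
      ring
    have h1 := hp T hTT₁ (A i0) (hA i0) (hcA i0) ℝ (A i1) (fun y => a i1 * y + w) ?_ ?_
    · refine h1.trans (le_of_eq ?_)
      rw [Finset.card_filter, Nat.cast_sum]
      refine Finset.sum_congr rfl fun p _ => ?_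
      rw [hf]
      simp only [hform]
      by_cases hF : Free (κ / Real.log T) (a i0 * p.1 + (a i1 * p.2 + w)) <;> simp [hF]
    · -- the size
      intro y hy
      obtain ⟨⟨hy0, -⟩, hyT⟩ := hA i1 y hy
      have h2 : |w| ≤ ∑ i ∈ (Finset.univ.erase i1).erase i0, |a i| * T + K * T := by
        rw [hw]
        refine (abs_add_le _ _).trans (add_le_add ((Finset.abs_sum_le_sum_abs _ _).trans (Finset.sum_le_sum fun i _ => ?_)) hh)
        obtain ⟨⟨h3, -⟩, h4⟩ := hA i (x i) (hx i)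
        rw [abs_mul, abs_of_pos h3]
        exact mul_le_mul_of_nonneg_left h4 (abs_nonneg _)
      have h5 : |a i1 * y| ≤ |a i1| * T := by
        rw [abs_mul, abs_of_pos hy0]
        exact mul_le_mul_of_nonneg_left hyT (abs_nonneg _)
      have h6 : K' * T = |a i1| * T + (|a i0| * T + (∑ i ∈ (Finset.univ.erase i1).erase i0, |a i| * T)) + K * T := by
        rw [hK', add_mul, Finset.sum_mul, ← Finset.add_sum_erase _ _ (Finset.mem_univ i1),
          ← Finset.add_sum_erase _ _ (Finset.mem_erase.2 ⟨h01, Finset.mem_univ i0⟩)]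
      rw [h6]
      have h7 : 0 ≤ |a i0| * T := by positivity
      exact (abs_add_le _ _).trans (by linarith)
    · -- unit intervals
      intro u
      have h2 := Pool.Agent.H452R4.LI.CORaux.dens_image (hdens T (A i1) hT3 (hA i1)) (ha i1) (u - w)
      have h3 : ((A i1).filter (fun y => u ≤ a i1 * y + w ∧ a i1 * y + w < u + 1)).card ≤
          (((A i1).image (fun y => a i1 * y)).filter (fun y => u - w ≤ y ∧ y < u - w + 1)).card := by
        refine Finset.card_le_card_of_injOn (fun y => a i1 * y) ?_ (mul_right_injective₀ (ha i1)).injOn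
        intro y hy
        rw [Finset.mem_coe, Finset.mem_filter] at hy ⊢
        exact ⟨Finset.mem_image_of_mem _ hy.1, by linarith [hy.2.1], by linarith [hy.2.2]⟩
      refine le_trans (Nat.cast_le.2 h3) (h2.trans ?_)
      rw [le_div_iff₀ (by positivity)]
      refine le_trans ?_ (hcA i1)
      have h4 : T = T ^ (1 / 2 : ℝ) * T ^ (1 / 2 : ℝ) := by
        rw [← Real.rpow_add hT0]
        norm_num
      rw [div_le_iff₀ hη] at hTD
      calc C * Real.log T * (1 / |a i1| + 1) * T ^ (1 / 2 : ℝ) = D * (Real.log T * T ^ (1 / 2 : ℝ)) := by rw [hD]; ring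
        _ ≤ (T ^ (1 / 2 : ℝ) * η) * (Real.log T * T ^ (1 / 2 : ℝ)) := mul_le_mul_of_nonneg_right hTD (by positivity)
        _ = η * (T ^ (1 / 2 : ℝ) * T ^ (1 / 2 : ℝ)) * Real.log T := by ring
        _ = η * T * Real.log T := by rw [← h4]
  have hsum := Finset.sum_le_sum hin
  rw [havg, Finset.sum_const, nsmul_eq_mul, Fintype.card_piFinset, ← hfsum] at hsum
  have hpp : 0 < ((A i0).card : ℝ) * ((A i1).card : ℝ) := mul_pos (hpos i0) (hpos i1)
  rw [← mul_le_mul_iff_right₀ hpp]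
  refine le_trans (le_of_eq ?_) hsum
  push_cast
  ring

end

end Pool.Agent.V8H7.SM
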