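import Pool.Agent.H452R4.LI.MV
import Pool.Agent.H452R4.LI.GAU
import Pool.Agent.H452R4.LI.SCH
import Pool.Agent.Q84.UM.DPM

/-! The mean value theorem for Dirichlet polynomials over sets of points with bounded density
(the starting file `Pool/Agent/H452R4/LI/MV.lean` with general coefficients, its dual, and powers of polynomials). -/

set_option autoImplicit false

open Finset MeasureTheory Complex

namespace Pool.Agent.V8H7.SM

open Pool.Agent.H452R4.LI (mvS mvS_hasDerivAt mvS_cont mv_step dens S_SCH S_GAU sch gau)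
open Pool.Agent.Q97.UM (cv N2 dp)

theorem mvg : ∃ C : ℝ, 0 < C ∧ ∀ (A : Finset ℝ) (c : ℝ → ℂ) (T w : ℝ) (D : ℕ), 1 ≤ T → 1 ≤ D →
    (∀ a ∈ A, |a| ≤ T) → dens A w →
    ∑ n ∈ Ioc D (2 * D), ‖mvS A c (Real.log n)‖ ^ 2 ≤ C * (D + T) * w * ∑ a ∈ A, ‖c a‖ ^ 2 := by
  obtain ⟨C2, hC2, hS⟩ := sch
  obtain ⟨C1, hC1, hG⟩ := gau
  refine ⟨2 * (C1 * C2), by positivity, ?_⟩
  intro A c T w D hT hD hA hdens
  rcases A.eq_empty_or_nonempty with hAe | ⟨a0, ha0⟩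
  · subst hAe
    simp [mvS]
  have hw : 0 ≤ w := by
    have h := hdens a0
    exact le_trans (Nat.cast_nonneg _) h
  set g := mvS A c with hg
  set g' := mvS A (fun a => c a * (-(Complex.I * (a : ℂ)))) with hg'
  have hd : ∀ u, HasDerivAt g (g' u) u := fun u => mvS_hasDerivAt A c u
  have hgc : Continuous g := mvS_cont _ _
  have hdc : Continuous g' := mvS_cont _ _
  have hsq : Continuous fun u => ‖g u‖ ^ 2 := hgc.norm.pow 2
  have hsq' : Continuous fun u => ‖g' u‖ ^ 2 := hdc.norm.pow 2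
  have hprod : Continuous fun u => 2 * (‖g u‖ * ‖g' u‖) :=
    continuous_const.mul (hgc.norm.mul hdc.norm)
  have h1 : ∑ n ∈ Ioc D (2 * D), ‖g (Real.log n)‖ ^ 2 =
      ∑ k ∈ Ico D (2 * D), ‖g (Real.log ((k + 1 : ℕ) : ℝ))‖ ^ 2 := by
    rw [Finset.sum_Ico_add' (fun k : ℕ => ‖g (Real.log (k : ℝ))‖ ^ 2)]
    refine Finset.sum_congr ?_ fun n _ => rfl
    ext k
    simp only [Finset.mem_Ioc, Finset.mem_Ico]
    omega
  have hcont : Continuous fun u => ((2 * D : ℝ) * ‖g u‖ ^ 2 + 2 * (‖g u‖ * ‖g' u‖)) :=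
    (continuous_const.mul hsq).add hprod
  have h2 : ∑ n ∈ Ioc D (2 * D), ‖g (Real.log n)‖ ^ 2 ≤
      ∫ u in (Real.log (D : ℝ))..(Real.log ((2 * D : ℕ) : ℝ)),
        ((2 * D : ℝ) * ‖g u‖ ^ 2 + 2 * (‖g u‖ * ‖g' u‖)) := by
    rw [h1]
    refine le_trans (Finset.sum_le_sum fun k hk => mv_step g g' hd hdc D k hD hk) ?_
    rw [intervalIntegral.sum_integral_adjacent_intervals_Ico (a := fun k : ℕ => Real.log (k : ℝ))
      (by omega) (fun k _ => hcont.intervalIntegrable _ _)]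
  have hD0 : (0 : ℝ) < D := by exact_mod_cast hD
  have hlog : Real.log ((2 * D : ℕ) : ℝ) ≤ Real.log D + 1 := by
    push_cast
    rw [Real.log_mul (by norm_num) hD0.ne']
    have := Real.log_two_lt_d9
    linarith
  have hlog2 : Real.log (D : ℝ) ≤ Real.log ((2 * D : ℕ) : ℝ) := by
    apply Real.log_le_log hD0
    push_cast
    linarith
  set x0 := Real.log (D : ℝ) with hx0
  have h3 : ∫ u in x0..(Real.log ((2 * D : ℕ) : ℝ)),
        ((2 * D : ℝ) * ‖g u‖ ^ 2 + 2 * (‖g u‖ * ‖g' u‖)) ≤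
      ∫ u in x0..(x0 + 1), ((2 * D : ℝ) * ‖g u‖ ^ 2 + 2 * (‖g u‖ * ‖g' u‖)) := by
    rw [← intervalIntegral.integral_add_adjacent_intervals (a := x0)
      (b := Real.log ((2 * D : ℕ) : ℝ)) (c := x0 + 1)
      (hcont.intervalIntegrable _ _) (hcont.intervalIntegrable _ _)]
    have : 0 ≤ ∫ u in (Real.log ((2 * D : ℕ) : ℝ))..(x0 + 1),
        ((2 * D : ℝ) * ‖g u‖ ^ 2 + 2 * (‖g u‖ * ‖g' u‖)) :=
      intervalIntegral.integral_nonneg hlog fun x _ => by positivity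
    linarith
  have hT0 : 0 < T := by linarith
  have h4 : ∫ u in x0..(x0 + 1), ((2 * D : ℝ) * ‖g u‖ ^ 2 + 2 * (‖g u‖ * ‖g' u‖)) ≤
      ∫ u in x0..(x0 + 1), ((2 * D + T : ℝ) * ‖g u‖ ^ 2 + (1 / T) * ‖g' u‖ ^ 2) := by
    apply intervalIntegral.integral_mono_on (by linarith) (hcont.intervalIntegrable _ _)
      ((by fun_prop : Continuous fun u => ((2 * D + T : ℝ) * ‖g u‖ ^ 2 +
        (1 / T) * ‖g' u‖ ^ 2)).intervalIntegrable _ _)
    intro u _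
    show (2 * D : ℝ) * ‖g u‖ ^ 2 + 2 * (‖g u‖ * ‖g' u‖) ≤
      (2 * D + T : ℝ) * ‖g u‖ ^ 2 + (1 / T) * ‖g' u‖ ^ 2
    have h5 : 2 * (‖g u‖ * ‖g' u‖) ≤ T * ‖g u‖ ^ 2 + (1 / T) * ‖g' u‖ ^ 2 := by
      have h6 : 0 ≤ (T * ‖g u‖ - ‖g' u‖) ^ 2 / T := by positivity
      have h7 : (T * ‖g u‖ - ‖g' u‖) ^ 2 / T =
          T * ‖g u‖ ^ 2 + (1 / T) * ‖g' u‖ ^ 2 - 2 * (‖g u‖ * ‖g' u‖) := by
        field_simp
        ring
      rw [h7] at h6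
      linarith
    have h7' : (2 * D + T : ℝ) * ‖g u‖ ^ 2 + (1 / T) * ‖g' u‖ ^ 2 =
        (2 * D : ℝ) * ‖g u‖ ^ 2 + (T * ‖g u‖ ^ 2 + (1 / T) * ‖g' u‖ ^ 2) := by ring
    rw [h7']
    exact add_le_add_right h5 _
  have hsplit : ∫ u in x0..(x0 + 1), ((2 * D + T : ℝ) * ‖g u‖ ^ 2 + (1 / T) * ‖g' u‖ ^ 2) =
      (2 * D + T : ℝ) * (∫ u in x0..(x0 + 1), ‖g u‖ ^ 2) +
      (1 / T) * ∫ u in x0..(x0 + 1), ‖g' u‖ ^ 2 := by
    rw [← intervalIntegral.integral_const_mul, ← intervalIntegral.integral_const_mul]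
    have hc1 : Continuous fun u => (2 * D + T : ℝ) * ‖g u‖ ^ 2 := by fun_prop
    have hc2 : Continuous fun u => (1 / T) * ‖g' u‖ ^ 2 := by fun_prop
    exact intervalIntegral.integral_add (hc1.intervalIntegrable _ _) (hc2.intervalIntegrable _ _)
  rw [hsplit] at h4
  have hW : ∀ a ∈ A, ∑ b ∈ A, Real.exp (-(a - b) ^ 2 / 2) ≤ C2 * w := hS A w hdens
  have h8 : ∫ u in x0..(x0 + 1), ‖g u‖ ^ 2 ≤ C1 * (C2 * w) * ∑ a ∈ A, ‖c a‖ ^ 2 :=
    hG A c (C2 * w) x0 hW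
  have h9 : ∫ u in x0..(x0 + 1), ‖g' u‖ ^ 2 ≤ C1 * (C2 * w) * ((∑ a ∈ A, ‖c a‖ ^ 2) * T ^ 2) := by
    have h := hG A (fun a => c a * (-(Complex.I * (a : ℂ)))) (C2 * w) x0 hW
    refine le_trans h ?_
    apply mul_le_mul_of_nonneg_left _ (by positivity)
    rw [Finset.sum_mul]
    apply Finset.sum_le_sum
    intro a ha
    rw [norm_mul, norm_neg, norm_mul, Complex.norm_I, one_mul, Complex.norm_real,
      Real.norm_eq_abs, mul_pow]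
    exact mul_le_mul_of_nonneg_left (pow_le_pow_left₀ (abs_nonneg _) (hA a ha) 2) (by positivity)
  have hq : 0 ≤ ∑ a ∈ A, ‖c a‖ ^ 2 := Finset.sum_nonneg fun _ _ => by positivity
  have h10 : (2 * D + T : ℝ) * (∫ u in x0..(x0 + 1), ‖g u‖ ^ 2) ≤
      (2 * D + T) * (C1 * (C2 * w) * ∑ a ∈ A, ‖c a‖ ^ 2) :=
    mul_le_mul_of_nonneg_left h8 (by positivity)
  have h11 : (1 / T) * (∫ u in x0..(x0 + 1), ‖g' u‖ ^ 2) ≤
      (1 / T) * (C1 * (C2 * w) * ((∑ a ∈ A, ‖c a‖ ^ 2) * T ^ 2)) :=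
    mul_le_mul_of_nonneg_left h9 (by positivity)
  have h12 : (1 / T) * (C1 * (C2 * w) * ((∑ a ∈ A, ‖c a‖ ^ 2) * T ^ 2)) =
      T * (C1 * (C2 * w) * ∑ a ∈ A, ‖c a‖ ^ 2) := by
    field_simp
  calc ∑ n ∈ Ioc D (2 * D), ‖g (Real.log n)‖ ^ 2
      ≤ (2 * D + T) * (C1 * (C2 * w) * ∑ a ∈ A, ‖c a‖ ^ 2) + T * (C1 * (C2 * w) * ∑ a ∈ A, ‖c a‖ ^ 2) := by
        rw [h12] at h11
        linarith
    _ = 2 * (C1 * C2) * (D + T) * w * ∑ a ∈ A, ‖c a‖ ^ 2 := by ring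

/-- `n^{-iz}` -/
noncomputable def en (z : ℝ) (n : ℕ) : ℂ := cexp (-(I * ((z * Real.log n : ℝ) : ℂ)))

/-- the dual inequality -/
theorem dual : ∃ C : ℝ, 0 < C ∧ ∀ (Z : Finset ℝ) (T w : ℝ) (D : ℕ) (b : ℕ → ℂ), 1 ≤ T → 1 ≤ D →
    (∀ z ∈ Z, |z| ≤ T) → dens Z w →
    ∑ z ∈ Z, ‖∑ n ∈ Ioc D (2 * D), b n * en z n‖ ^ 2 ≤ C * (D + T) * w * ∑ n ∈ Ioc D (2 * D), ‖b n‖ ^ 2 := by
  obtain ⟨C, hC, h⟩ := mvg
  refine ⟨C, hC, ?_⟩
  intro Z T w D b hT hD hZ hdens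
  set S : ℝ → ℂ := fun z => ∑ n ∈ Ioc D (2 * D), b n * en z n with hS
  set X : ℝ := ∑ z ∈ Z, ‖S z‖ ^ 2 with hX
  have hX0 : 0 ≤ X := Finset.sum_nonneg fun _ _ => by positivity
  have hm := h Z (fun z => (starRingEnd ℂ) (S z)) T w D hT hD hZ hdens
  simp only [RCLike.norm_conj] at hm
  change _ ≤ C * (D + T) * w * X at hm
  have h1 : (X : ℂ) = ∑ n ∈ Ioc D (2 * D), b n * mvS Z (fun z => (starRingEnd ℂ) (S z)) (Real.log n) := by
    rw [hX]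
    push_cast
    unfold mvS
    simp only [Finset.mul_sum]
    rw [Finset.sum_comm]
    refine Finset.sum_congr rfl fun z _ => ?_
    rw [← Complex.conj_mul', hS]
    simp only [Finset.mul_sum]
    refine Finset.sum_congr rfl fun n _ => ?_
    unfold en
    ring
  have h2 : X ≤ ∑ n ∈ Ioc D (2 * D), ‖b n‖ * ‖mvS Z (fun z => (starRingEnd ℂ) (S z)) (Real.log n)‖ := by
    have h3 : X = ‖(X : ℂ)‖ := by rw [Complex.norm_real, Real.norm_eq_abs, abs_of_nonneg hX0]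
    rw [h3, h1]
    refine (norm_sum_le _ _).trans (Finset.sum_le_sum fun n _ => ?_)
    rw [norm_mul]
  have h4 := Finset.sum_mul_sq_le_sq_mul_sq (Ioc D (2 * D)) (fun n => ‖b n‖)
    (fun n : ℕ => ‖mvS Z (fun z => (starRingEnd ℂ) (S z)) (Real.log n)‖)
  have hB0 : 0 ≤ ∑ n ∈ Ioc D (2 * D), ‖b n‖ ^ 2 := Finset.sum_nonneg fun _ _ => by positivity
  have h5 : X * X ≤ (C * (D + T) * w * ∑ n ∈ Ioc D (2 * D), ‖b n‖ ^ 2) * X := by
    have h6 : X ^ 2 ≤ (∑ n ∈ Ioc D (2 * D), ‖b n‖ * ‖mvS Z (fun z => (starRingEnd ℂ) (S z)) (Real.log n)‖) ^ 2 :=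
      pow_le_pow_left₀ hX0 h2 2
    have h7 := mul_le_mul_of_nonneg_left hm hB0
    nlinarith
  rcases hX0.eq_or_lt with h8 | h8
  · rw [← h8]
    rcases Z.eq_empty_or_nonempty with hZe | ⟨z0, hz0⟩
    · have hT0 : (0 : ℝ) ≤ D + T := by positivity
      have hw : 0 ≤ w := by
        have := hdens 0
        exact le_trans (Nat.cast_nonneg _) this
      positivity
    · have hw : 0 ≤ w := by
        have := hdens z0
        exact le_trans (Nat.cast_nonneg _) this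
      positivity
  · exact le_of_mul_le_mul_right h5 h8

/-- all frequencies up to `2 ^ J` -/
theorem ls : ∃ C : ℝ, 0 < C ∧ ∀ (Z : Finset ℝ) (T w : ℝ) (J : ℕ) (b : ℕ → ℂ), 1 ≤ T →
    (∀ z ∈ Z, |z| ≤ T) → dens Z w →
    ∑ z ∈ Z, ‖∑ n ∈ Ioc 1 (2 ^ J), b n * en z n‖ ^ 2 ≤
      C * J * (2 ^ J + T) * w * ∑ n ∈ Ioc 1 (2 ^ J), ‖b n‖ ^ 2 := by
  obtain ⟨C, hC, h⟩ := dual
  refine ⟨C, hC, ?_⟩
  intro Z T w J b hT hZ hdens
  have hw : 0 ≤ w := by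
    have := hdens 0
    exact le_trans (Nat.cast_nonneg _) this
  have hsplit : ∀ {M : Type} [AddCommMonoid M] (f : ℕ → M), ∑ n ∈ Ioc 1 (2 ^ J), f n =
      ∑ j ∈ range J, ∑ n ∈ Ioc (2 ^ j) (2 * 2 ^ j), f n := by
    intro M _ f
    induction J with
    | zero => simp
    | succ J ih =>
      rw [Finset.sum_range_succ, ← ih, ← Finset.sum_union]
      · congr 1
        ext n
        simp only [Finset.mem_Ioc, Finset.mem_union]
        have : 1 ≤ 2 ^ J := Nat.one_le_two_pow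
        rw [pow_succ]
        omega
      · rw [Finset.disjoint_left]
        intro n h1 h2
        rw [Finset.mem_Ioc] at h1 h2
        omega
  calc ∑ z ∈ Z, ‖∑ n ∈ Ioc 1 (2 ^ J), b n * en z n‖ ^ 2
      ≤ ∑ z ∈ Z, J * ∑ j ∈ range J, ‖∑ n ∈ Ioc (2 ^ j) (2 * 2 ^ j), b n * en z n‖ ^ 2 := by
        refine Finset.sum_le_sum fun z _ => ?_
        rw [hsplit]
        have h1 : ‖∑ j ∈ range J, ∑ n ∈ Ioc (2 ^ j) (2 * 2 ^ j), b n * en z n‖ ≤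
            ∑ j ∈ range J, ‖∑ n ∈ Ioc (2 ^ j) (2 * 2 ^ j), b n * en z n‖ := norm_sum_le _ _
        have h2 := sq_sum_le_card_mul_sum_sq (s := range J)
          (f := fun j => ‖∑ n ∈ Ioc (2 ^ j) (2 * 2 ^ j), b n * en z n‖)
        rw [Finset.card_range] at h2
        exact (pow_le_pow_left₀ (norm_nonneg _) h1 2).trans h2
    _ = J * ∑ j ∈ range J, ∑ z ∈ Z, ‖∑ n ∈ Ioc (2 ^ j) (2 * 2 ^ j), b n * en z n‖ ^ 2 := by
        rw [← Finset.mul_sum, Finset.sum_comm]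
    _ ≤ J * ∑ j ∈ range J, C * (2 ^ J + T) * w * ∑ n ∈ Ioc (2 ^ j) (2 * 2 ^ j), ‖b n‖ ^ 2 := by
        refine mul_le_mul_of_nonneg_left (Finset.sum_le_sum fun j hj => ?_) (Nat.cast_nonneg J)
        refine (h Z T w (2 ^ j) b hT Nat.one_le_two_pow hZ hdens).trans ?_
        have h3 : ((2 ^ j : ℕ) : ℝ) ≤ 2 ^ J := by
          push_cast
          exact pow_le_pow_right₀ (by norm_num) (Finset.mem_range.1 hj).le
        have h4 : 0 ≤ ∑ n ∈ Ioc (2 ^ j) (2 * 2 ^ j), ‖b n‖ ^ 2 := Finset.sum_nonneg fun _ _ => by positivity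
        gcongr
    _ = C * J * (2 ^ J + T) * w * ∑ n ∈ Ioc 1 (2 ^ J), ‖b n‖ ^ 2 := by
        rw [hsplit, ← Finset.mul_sum]
        ring

end Pool.Agent.V8H7.SM
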