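import Pool.Agent.V8H7.SM.LS

/-! Moments of Dirichlet polynomials over sets of points with bounded density. -/

set_option autoImplicit false

open Finset MeasureTheory Complex

namespace Pool.Agent.V8H7.SM

open Pool.Agent.H452R4.LI (dens)
open Pool.Agent.Q97.UM (cv N2 dp)

theorem sum_conv (N M : ℕ) (f : ℕ × ℕ → ℝ) (hf : ∀ p : ℕ × ℕ, (N < p.1 ∨ M < p.2) → f p = 0) :
    ∑ n ∈ Icc 1 (N * M), ∑ p ∈ n.divisorsAntidiagonal, f p = ∑ p ∈ Icc 1 N ×ˢ Icc 1 M, f p := by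
  symm
  rw [← Finset.sum_fiberwise_of_maps_to (t := Finset.Icc 1 (N * M)) (g := fun p : ℕ × ℕ => p.1 * p.2)]
  · refine Finset.sum_congr rfl fun n hn => ?_
    rw [Finset.mem_Icc] at hn
    refine Finset.sum_subset_zero_on_sdiff ?_ ?_ ?_
    · intro p hp
      rw [Finset.mem_filter] at hp
      rw [Nat.mem_divisorsAntidiagonal]
      exact ⟨hp.2, by omega⟩
    · intro p hp
      rw [Finset.mem_sdiff, Nat.mem_divisorsAntidiagonal, Finset.mem_filter, Finset.mem_product,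
        Finset.mem_Icc, Finset.mem_Icc] at hp
      obtain ⟨⟨h1, h2⟩, h3⟩ := hp
      have h4 : p.1 ≠ 0 := by rintro h; rw [h] at h1; simp at h1; omega
      have h5 : p.2 ≠ 0 := by rintro h; rw [h] at h1; simp at h1; omega
      by_cases h6 : N < p.1
      · exact hf p (Or.inl h6)
      · by_cases h7 : M < p.2
        · exact hf p (Or.inr h7)
        · exact absurd ⟨⟨⟨by omega, by omega⟩, ⟨by omega, by omega⟩⟩, h1⟩ h3
    · intro p _
      rfl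
  · intro p hp
    rw [Finset.mem_product, Finset.mem_Icc, Finset.mem_Icc] at hp
    rw [Finset.mem_Icc]
    exact ⟨Nat.mul_pos (by omega) (by omega), Nat.mul_le_mul hp.1.2 hp.2.2⟩

/-- pointwise bound of a convolution -/
theorem cv_sq_le (b c : ℕ → ℂ) (n : ℕ) :
    ‖cv b c n‖ ^ 2 ≤ (n.divisors.card : ℝ) * ∑ p ∈ n.divisorsAntidiagonal, (‖b p.1‖ ^ 2 * ‖c p.2‖ ^ 2) := by
  unfold cv
  have h1 : ‖∑ p ∈ n.divisorsAntidiagonal, b p.1 * c p.2‖ ≤ ∑ p ∈ n.divisorsAntidiagonal, ‖b p.1‖ * ‖c p.2‖ :=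
    (norm_sum_le _ _).trans (Finset.sum_le_sum fun p _ => by rw [norm_mul])
  have h2 := sq_sum_le_card_mul_sum_sq (s := n.divisorsAntidiagonal) (f := fun p => ‖b p.1‖ * ‖c p.2‖)
  have h3 : n.divisorsAntidiagonal.card = n.divisors.card := by
    rw [← Nat.map_div_right_divisors, Finset.card_map]
  rw [h3] at h2
  refine (pow_le_pow_left₀ (norm_nonneg _) h1 2).trans (h2.trans (le_of_eq ?_))
  congr 1
  refine Finset.sum_congr rfl fun p _ => by ring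

theorem N2_cv {N M : ℕ} {b c : ℕ → ℂ} {Δ : ℝ} (hb : ∀ n, N < n → b n = 0) (hc : ∀ n, M < n → c n = 0)
    (hΔ : ∀ n : ℕ, 1 ≤ n → n ≤ N * M → (n.divisors.card : ℝ) ≤ Δ) :
    N2 (N * M) (cv b c) ≤ Δ * (N2 N b * N2 M c) := by
  unfold N2
  have key := sum_conv N M (fun p => (‖b p.1‖ ^ 2 / p.1) * (‖c p.2‖ ^ 2 / p.2)) (by
    intro p hp
    rcases hp with h | h
    · simp [hb _ h]
    · simp [hc _ h])
  rw [Finset.sum_product] at key
  simp only at key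
  rw [← Finset.sum_mul_sum] at key
  rw [← key, Finset.mul_sum]
  refine Finset.sum_le_sum fun n hn => ?_
  rw [Finset.mem_Icc] at hn
  have hn0 : (0 : ℝ) < n := by exact_mod_cast hn.1
  have h1 := cv_sq_le b c n
  have h2 : ∑ p ∈ n.divisorsAntidiagonal, (‖b p.1‖ ^ 2 / p.1) * (‖c p.2‖ ^ 2 / p.2) =
      (∑ p ∈ n.divisorsAntidiagonal, (‖b p.1‖ ^ 2 * ‖c p.2‖ ^ 2)) / n := by
    rw [Finset.sum_div]
    refine Finset.sum_congr rfl fun p hp => ?_
    rw [Nat.mem_divisorsAntidiagonal] at hp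
    have h3 : (n : ℝ) = (p.1 : ℝ) * p.2 := by exact_mod_cast hp.1.symm
    rw [h3]
    rw [div_mul_div_comm]
  rw [h2, ← mul_div_assoc]
  refine div_le_div_of_nonneg_right (h1.trans ?_) hn0.le
  exact mul_le_mul_of_nonneg_right (hΔ n hn.1 hn.2) (Finset.sum_nonneg fun _ _ => by positivity)

/-- convolution powers -/
noncomputable def cp (b : ℕ → ℂ) : ℕ → ℕ → ℂ
  | 0 => fun n => if n = 1 then 1 else 0
  | r + 1 => cv (cp b r) b

theorem cp_supp {b : ℕ → ℂ} {D E : ℕ} (hb : ∀ n, b n ≠ 0 → D < n ∧ n ≤ E) (r : ℕ) :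
    ∀ n, cp b r n ≠ 0 → (D + 1) ^ r ≤ n ∧ n ≤ E ^ r := by
  induction r with
  | zero =>
    intro n hn
    unfold cp at hn
    simp only [ne_eq, ite_eq_right_iff, one_ne_zero, imp_false, not_not] at hn
    rw [hn]
    simp
  | succ r ih =>
    intro n hn
    have h1 : ∃ p ∈ n.divisorsAntidiagonal, cp b r p.1 * b p.2 ≠ 0 := by
      by_contra h
      push Not at h
      exact hn (Finset.sum_eq_zero h)
    obtain ⟨p, hp, h2⟩ := h1
    rw [Nat.mem_divisorsAntidiagonal] at hp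
    have h3 := ih p.1 (left_ne_zero_of_mul h2)
    have h4 := hb p.2 (right_ne_zero_of_mul h2)
    rw [← hp.1, pow_succ, pow_succ]
    exact ⟨Nat.mul_le_mul h3.1 h4.1, Nat.mul_le_mul h3.2 h4.2⟩

theorem dp_cp {b : ℕ → ℂ} {D E : ℕ} (hb : ∀ n, b n ≠ 0 → D < n ∧ n ≤ E) (r : ℕ) (t : ℝ) :
    dp (E ^ r) (cp b r) t = dp E b t ^ r := by
  induction r with
  | zero =>
    unfold dp cp
    simp
  | succ r ih =>
    have h1 : ∀ n, E ^ r < n → cp b r n = 0 := by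
      intro n hn
      by_contra h
      exact absurd (cp_supp hb r n h).2 (by omega)
    have h2 : ∀ n, E < n → b n = 0 := by
      intro n hn
      by_contra h
      exact absurd (hb n h).2 (by omega)
    rw [pow_succ, pow_succ, ← ih, Pool.Agent.Q84.UM.dp_mul _ _ _ _ t h1 h2]
    rfl

theorem N2_nn (N : ℕ) (b : ℕ → ℂ) : 0 ≤ N2 N b := Pool.Agent.Q84.UM.N2_nonneg N b

theorem N2_cp {b : ℕ → ℂ} {D E : ℕ} (hb : ∀ n, b n ≠ 0 → D < n ∧ n ≤ E) {Δ : ℝ} (hΔ1 : 1 ≤ Δ) (hE : 1 ≤ E) (r : ℕ)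
    (hΔ : ∀ n : ℕ, 1 ≤ n → n ≤ E ^ r → (n.divisors.card : ℝ) ≤ Δ) :
    N2 (E ^ r) (cp b r) ≤ (Δ * N2 E b) ^ r := by
  induction r with
  | zero =>
    unfold N2 cp
    simp
  | succ r ih =>
    have h1 : ∀ n, E ^ r < n → cp b r n = 0 := by
      intro n hn
      by_contra h
      exact absurd (cp_supp hb r n h).2 (by omega)
    have h2 : ∀ n, E < n → b n = 0 := by
      intro n hn
      by_contra h
      exact absurd (hb n h).2 (by omega)
    have h3 := ih (fun n hn hn2 => hΔ n hn (hn2.trans (Nat.pow_le_pow_right hE (Nat.le_succ r))))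
    have h4 := N2_cv (Δ := Δ) h1 h2 (by rw [← pow_succ]; exact hΔ)
    rw [pow_succ]
    refine h4.trans ?_
    have h5 := N2_nn E b
    have h6 := N2_nn (E ^ r) (cp b r)
    calc Δ * (N2 (E ^ r) (cp b r) * N2 E b) = N2 (E ^ r) (cp b r) * (Δ * N2 E b) := by ring
      _ ≤ (Δ * N2 E b) ^ r * (Δ * N2 E b) := mul_le_mul_of_nonneg_right h3 (by positivity)
      _ = (Δ * N2 E b) ^ (r + 1) := by ring

theorem cpow_en {n : ℕ} (hn : 1 ≤ n) (z : ℝ) :
    (n : ℂ) ^ (-(1 / 2 + (z : ℂ) * I)) = ((Real.sqrt n)⁻¹ : ℝ) * en z n := by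
  have hn0 : (0 : ℝ) < n := by exact_mod_cast hn
  have hnc : (n : ℂ) ≠ 0 := by exact_mod_cast (by omega : n ≠ 0)
  have h1 : ((Real.sqrt n)⁻¹ : ℝ) = Real.exp (-(1 / 2) * Real.log n) := by
    rw [Real.sqrt_eq_rpow, ← Real.rpow_neg hn0.le, Real.rpow_def_of_pos hn0]
    ring_nf
  unfold en
  rw [Complex.cpow_def_of_ne_zero hnc, ← Complex.natCast_log, h1, Complex.ofReal_exp, ← Complex.exp_add]
  congr 1
  push_cast
  ring

/-- the moment of order `2r` of a Dirichlet polynomial over a set of points -/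
theorem moment : ∃ C : ℝ, 0 < C ∧ ∀ (Z : Finset ℝ) (T w : ℝ) (J : ℕ) (b : ℕ → ℂ) (D E r : ℕ) (Δ : ℝ), 1 ≤ T →
    (∀ z ∈ Z, |z| ≤ T) → dens Z w → 1 ≤ D → 1 ≤ E → 1 ≤ r → (∀ n, b n ≠ 0 → D < n ∧ n ≤ E) → E ^ r ≤ 2 ^ J → 1 ≤ Δ →
    (∀ n : ℕ, 1 ≤ n → n ≤ E ^ r → (n.divisors.card : ℝ) ≤ Δ) →
    ∑ z ∈ Z, ‖dp E b z‖ ^ (2 * r) ≤ C * J * (2 ^ J + T) * w * (Δ * N2 E b) ^ r := by
  obtain ⟨C, hC, h⟩ := ls
  refine ⟨C, hC, ?_⟩
  intro Z T w J b D E r Δ hT hZ hdens hD hE hr hb hJ hΔ1 hΔ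
  have hw : 0 ≤ w := by
    have := hdens 0
    exact le_trans (Nat.cast_nonneg _) this
  have hs := cp_supp hb r
  have hs2 : ∀ n, cp b r n ≠ 0 → 1 < n ∧ n ≤ E ^ r := by
    intro n hn
    refine ⟨?_, (hs n hn).2⟩
    have h1 : 2 ^ 1 ≤ (D + 1) ^ r := (Nat.pow_le_pow_right (by norm_num) hr).trans (Nat.pow_le_pow_left (by omega) r)
    have := (hs n hn).1
    omega
  have h1 : ∀ z : ℝ, dp (E ^ r) (cp b r) z = ∑ n ∈ Ioc 1 (2 ^ J), (cp b r n * ((Real.sqrt n)⁻¹ : ℝ)) * en z n := by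
    intro z
    unfold dp
    have e1 : ∑ n ∈ Icc 1 (E ^ r), cp b r n * (n : ℂ) ^ (-(1 / 2 + (z : ℂ) * I)) =
        ∑ n ∈ Icc 1 (2 ^ J), cp b r n * (n : ℂ) ^ (-(1 / 2 + (z : ℂ) * I)) := by
      refine Finset.sum_subset (Finset.Icc_subset_Icc_right hJ) ?_
      intro n hn hn2
      rw [Finset.mem_Icc] at hn hn2
      have : cp b r n = 0 := by
        by_contra hc
        have := (hs2 n hc).2
        omega
      rw [this, zero_mul]
    have e2 : ∑ n ∈ Ioc 1 (2 ^ J), cp b r n * (n : ℂ) ^ (-(1 / 2 + (z : ℂ) * I)) =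
        ∑ n ∈ Icc 1 (2 ^ J), cp b r n * (n : ℂ) ^ (-(1 / 2 + (z : ℂ) * I)) := by
      refine Finset.sum_subset Finset.Ioc_subset_Icc_self ?_
      intro n hn hn2
      rw [Finset.mem_Icc] at hn
      rw [Finset.mem_Ioc] at hn2
      have : cp b r n = 0 := by
        by_contra hc
        have := (hs2 n hc).1
        omega
      rw [this, zero_mul]
    rw [e1, ← e2]
    refine Finset.sum_congr rfl fun n hn => ?_
    rw [Finset.mem_Ioc] at hn
    rw [cpow_en (by omega), mul_assoc]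
  have h2 : ∑ n ∈ Ioc 1 (2 ^ J), ‖cp b r n * ((Real.sqrt n)⁻¹ : ℝ)‖ ^ 2 ≤ N2 (E ^ r) (cp b r) := by
    unfold N2
    have e3 : ∀ n ∈ Ioc 1 (2 ^ J), ‖cp b r n * ((Real.sqrt n)⁻¹ : ℝ)‖ ^ 2 = ‖cp b r n‖ ^ 2 / n := by
      intro n hn
      rw [Finset.mem_Ioc] at hn
      rw [norm_mul, Complex.norm_real, Real.norm_eq_abs, mul_pow, sq_abs, inv_pow, Real.sq_sqrt (Nat.cast_nonneg n)]
      rfl
    rw [Finset.sum_congr rfl e3]
    have e4 : ∑ n ∈ Ioc 1 (2 ^ J), ‖cp b r n‖ ^ 2 / (n : ℝ) =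
        ∑ n ∈ (Ioc 1 (2 ^ J)).filter (fun n => n ≤ E ^ r), ‖cp b r n‖ ^ 2 / (n : ℝ) := by
      symm
      refine Finset.sum_filter_of_ne fun n _ hne => ?_
      by_contra hc
      have : cp b r n = 0 := by
        by_contra h3
        exact hc (hs2 n h3).2
      exact hne (by rw [this]; simp)
    rw [e4]
    refine Finset.sum_le_sum_of_subset_of_nonneg ?_ fun _ _ _ => by positivity
    intro n hn
    rw [Finset.mem_filter, Finset.mem_Ioc] at hn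
    rw [Finset.mem_Icc]
    omega
  have h3 := h Z T w J (fun n => cp b r n * ((Real.sqrt n)⁻¹ : ℝ)) hT hZ hdens
  have h4 := N2_cp hb hΔ1 hE r hΔ
  calc ∑ z ∈ Z, ‖dp E b z‖ ^ (2 * r) = ∑ z ∈ Z, ‖∑ n ∈ Ioc 1 (2 ^ J), (cp b r n * ((Real.sqrt n)⁻¹ : ℝ)) * en z n‖ ^ 2 := by
        refine Finset.sum_congr rfl fun z _ => ?_
        rw [← h1, dp_cp hb, norm_pow, ← pow_mul, mul_comm r 2]
    _ ≤ C * J * (2 ^ J + T) * w * N2 (E ^ r) (cp b r) :=
        h3.trans (mul_le_mul_of_nonneg_left h2 (by positivity))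
    _ ≤ _ := mul_le_mul_of_nonneg_left h4 (by positivity)

end Pool.Agent.V8H7.SM
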